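import Mathlib
import Pool.Agent.H11.EC.Stm

/-!
# Project EN (helper11): the theorems of the projects EM, EC, EC2 WITHOUT the hypothesis on the Galois groups

`f k`, `h i`, `g = ∏ k, f k` as in `Pool/Agent/H11/EC/Stm.lean` (`I` may be empty), but only: for every
nonempty set `A ≠ K` with `∑ k ∈ A, deg (f k) ≤ 2` some automorphism `σ` has `SQ σ ≠ ∅`, `SQ σ ∩ A = ∅`.
(For `I` empty: no rational zero of `g`, and for every quadratic `f k` some `σ` fixes a zero of `g`, but no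
zero of `f k`.) Then for 100 percent of the everywhere locally soluble twists no covering is.

PROOF. In the old proof all coordinates `α k` had to be large (at least `exp ((log X) ^ (1 - ε))`).
New: a large sieve with SEVERAL SCALES (`S_MS`): sort the sides `Y k` of the box; the primes `l` between
(powers of) two consecutive sides are used only for the coordinates with the larger sides, with the other
components fixed (they are units at `l`, as `l` is larger than their norms). The number of the classes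
modulo `l` of the components in `A` of the elements of a fibre is at most
`l ^ nA (1 - (NA - 1) / l + ..)` if `nA ≥ 3` (`S_CNTR`), and a smaller number if `l` splits completely. So
`#box ≤ C ∏ Y k ^ n k / log Y k * exp (∑ 1/q) * (log Z) ^ (-c)` (`S_COREM`), and the sum over all dyadic
boxes is `O(X (log X)^(ρ - 1 - δ))`. The cases where the large components have total degree at most 2
are treated by counting the `D` (hypothesis above).
-/

set_option autoImplicit false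

namespace Pool.Agent.H11.EN

open Polynomial NumberField IsDedekindDomain Finset Filter Topology
open Pool.Agent.Q51.EL (Abv Par N1 pr Setup hom)
open Pool.Agent.H11.EM (PL In Ty1 Ty2 box cls dg NN tau)
open Pool.Agent.H11.EC (SR SQ)

/-- JOB EN-MS. The multi-scale large sieve.
Proof. `q j = ∏ j' ∈ range j, Q j'`. For `S ⊆ ι`, `q ≥ 1` and `c : (ι → ℕ) → ℂ` supported on `Z` let
`V(S, q) = ∑_w ∑_r |∑_z c(z) e(∑ i ∈ S, z i * r i)|²`, `w` over the restrictions of elements of `Z` to the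
complement of `S`, `z` over the elements of `Z` which are equal to `w` outside `S`, and `r` over the vectors
`(r i)_{i ∈ S}` of Farey fractions in `[0, 1)` of denominators `≤ q`. Then
(1) `V(insert i S, q) ≤ 6 (N i + q²) V(S, q)` (`i ∉ S`): for fixed `w` and fixed other fractions this is the
    additive large sieve in dimension one, for the variable `z i` and its fractions
    (`Pool.Agent.TH194.BL.add` with `k = 1` after translation, see the proof of `lsv` in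
    `Pool/Agent/H11/V/R_pool_sql_team_seeded_3997aac3_Q51_EL_LSV.lean`, or the one-dimensional one in
    `V/R_seed8_Helper112_LS.lean`).
(2) `G j * V(S, q) ≤ V(S, q * Q j)`, `S = A j`, `q = q j`, `G j` the sum over `D` in the statement: for fixed
    `w`, `r` apply `lowV` of the same file (dimension `#S`, `Om t` the set of the classes of the fibre, `c`
    times `e(r z)`) and sum over `D`; the fractions `r i + b i / D` have denominators `≤ q Q j` and are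
    different for different `(r, D, b)`, since the denominators of the `r i` are prime to the primes
    `t ∈ D` (`≤ q < t`) (compare with `collectV` there).
Start with `V(univ, 1) = (#Z)²` for `c = 1` on `Z`, apply (1) for the `i ∉ A 0`, (2) for `j = 0`, (1) for the
`i ∈ A 0 \ A 1`, (2) for `j = 1`, .., at the end (1) for the `i ∈ A (s - 1)`; `V(∅, q) = #Z`. -/
def S_MS : Prop := ∀ (ι : Type) [Fintype ι] [DecidableEq ι] (s : ℕ) (A : ℕ → Finset ι)
  (P : ℕ → Finset ℕ) (Q : ℕ → ℕ) (η : ℕ → ℕ → ℝ) (N a : ι → ℕ) (Z : Finset (ι → ℕ)),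
  (∀ j, A (j + 1) ⊆ A j) → (∀ j, 1 ≤ Q j) →
  (∀ j < s, ∀ t ∈ P j, t.Prime ∧ ∏ j' ∈ range j, Q j' < t ∧ 0 < η j t) →
  (∀ i, (∏ j ∈ (range s).filter (fun j => i ∈ A j), Q j) ^ 2 ≤ N i) →
  (∀ z ∈ Z, ∀ i, z i ∈ Ioc (a i) (a i + N i)) →
  (∀ j < s, ∀ t ∈ P j, ∀ w ∈ Z,
    ((((fun (z : ι → ℕ) (i : A j) => ((z i : ℕ) : ZMod t)) ''
      {z | z ∈ Z ∧ ∀ i, i ∉ A j → z i = w i}).ncard : ℕ) : ℝ) ≤ (1 - η j t) * (t : ℝ) ^ (A j).card) →
  (Z.card : ℝ) * ∏ j ∈ range s,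
    ∑ D ∈ (P j).powerset.filter (fun D => ∏ t ∈ D, t ≤ Q j), ∏ t ∈ D, η j t ≤ ∏ i, (12 * (N i : ℝ))

section defs

variable {K : Type} {L : K → Type} [∀ k, Field (L k)] [∀ k, NumberField (L k)]

/-- the classes modulo `l` of the components in `A` of the elements of `T` -/
def clsA (A : Finset K) (l : ℕ) (T : Set (∀ k, 𝓞 (L k))) :
    Set (∀ k : A, 𝓞 (L k) ⧸ Ideal.span {(l : 𝓞 (L k))}) :=
  (fun (β : ∀ k, 𝓞 (L k)) (k : A) => Ideal.Quotient.mk (Ideal.span {(l : 𝓞 (L k))}) (β k)) '' T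

/-- the elements of `T` with the same components outside `A` as `γ` -/
def fib (A : Finset K) (γ : ∀ k, 𝓞 (L k)) (T : Set (∀ k, 𝓞 (L k))) : Set (∀ k, 𝓞 (L k)) :=
  {β ∈ T | ∀ k, k ∉ A → β k = γ k}

/-- stronger form of the second local condition -/
def Ty2s (l : ℕ) (T : Set (∀ k, 𝓞 (L k))) : Prop :=
  ∀ β ∈ T, ∀ β' ∈ T, ∀ u0 : PL L l, In β u0 → In β' u0 → ∀ u : PL L l, u ≠ u0 →
      ∃ g : 𝓞 (L u.1), β u.1 * β' u.1 - g ^ 2 ∈ u.2.1.asIdeal

variable (L)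

/-- the degree of the part `A` -/
noncomputable def nA (A : Finset K) : ℕ := ∑ k ∈ A, Module.finrank ℚ (L k)

/-- the number of the primes of norm `l` in the part `A` -/
noncomputable def NA (A : Finset K) (l : ℕ) : ℕ := ∑ k ∈ A, N1 (L k) l

/-- `tau` under the stronger condition -/
noncomputable def tauS [Fintype K] (l : ℕ) : ℝ :=
  if NN L l = 0 then 0 else if NN L l = dg L then (dg L : ℝ) * 2 / 2 ^ dg L else 1 / 2

/-- `tau` for the components in `A` -/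
noncomputable def tauR [Fintype K] (A : Finset K) (l : ℕ) : ℝ :=
  (if NA L A l = 0 then 0 else 1) - (if NN L l = dg L then 1 / 4 else 0)

open Classical in
/-- the weight of the prime `l` in the sieve for the components in `A`; `S`: the primes at which the
elements need not be units -/
noncomputable def wt [Fintype K] (S : Set ℕ) (A : Finset K) (l : ℕ) : ℝ :=
  NA L A l - (if l ∈ S then tauR L A l else 0)

end defs

/-- JOB EN-NS. The multi-scale large sieve for number fields.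
Proof (from `S_MS`): as `sieve_of` in `Pool/Agent/H11/EM/SIEVE.lean`, but without cubes: `ι = Σ k, Fin (n k)`,
`N (k, i) = 2 M k + 1`, `M k = ⌈C1 * Y k⌉₊`, the coordinates `x` translated by `M k + 1`, `a = 0`; the set
`A j` of `S_MS` is the set of the `(k, i)` with `k ∈ A j`; the coordinates modulo `t` of the components in
`A j` are determined by their classes modulo `t` and conversely. -/
def S_NS : Prop := ∀ (K : Type) [Fintype K] [DecidableEq K] [Nonempty K] (L : K → Type)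
  [∀ k, Field (L k)] [∀ k, NumberField (L k)], ∃ C : ℝ, 0 < C ∧
  ∀ (s : ℕ) (A : ℕ → Finset K) (P : ℕ → Finset ℕ) (Q : ℕ → ℕ) (η : ℕ → ℕ → ℝ) (Y : K → ℝ)
  (T : Set (∀ k, 𝓞 (L k))), (∀ k, 1 ≤ Y k) → (∀ j, A (j + 1) ⊆ A j) → (∀ j, 1 ≤ Q j) →
  (∀ j < s, ∀ t ∈ P j, t.Prime ∧ ∏ j' ∈ range j, Q j' < t ∧ 0 < η j t) →
  (∀ k, ((∏ j ∈ (range s).filter (fun j => k ∈ A j), Q j : ℕ) : ℝ) ^ 2 ≤ Y k) →
  (∀ j < s, ∀ t ∈ P j, ∀ γ ∈ box Y T,
    (((clsA (A j) t (fib (A j) γ (box Y T))).ncard : ℕ) : ℝ) ≤ (1 - η j t) * (t : ℝ) ^ nA L (A j)) →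
  (box Y T).Finite ∧
  (((box Y T).ncard : ℕ) : ℝ) * ∏ j ∈ range s,
    ∑ D ∈ (P j).powerset.filter (fun D => ∏ t ∈ D, t ≤ Q j), ∏ t ∈ D, η j t ≤
    C * ∏ k, Y k ^ Module.finrank ℚ (L k)

/-- JOB EN-CNTS. The number of the residue classes under the stronger condition.
Proof: as `cnt` in `Pool/Agent/H11/EM/CNT.lean`; the elements of the second kind in `u0` are in at most
`∏_{u ≠ u0} (#k(u) / 2)` classes (instead of `2 * ..`). -/
def S_CNTS : Prop := ∀ (K : Type) [Fintype K] [Nonempty K] (L : K → Type) [∀ k, Field (L k)]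
  [∀ k, NumberField (L k)] (l : ℕ), l.Prime → l ≠ 2 →
  (∀ k, Squarefree (Ideal.span {(l : 𝓞 (L k))})) → ∀ T : Set (∀ k, 𝓞 (L k)), Ty1 l T → Ty2s l T →
  (((cls l T).ncard : ℕ) : ℝ) ≤ (l : ℝ) ^ dg L *
    (1 - (NN L l - tauS L l) / l + (dg L : ℝ) ^ 2 / (l : ℝ) ^ 2)

/-- JOB EN-CNTR. The number of the residue classes of the components in `A` in a fibre.
Proof (from `S_CNTS`, and `S_CNT` = `Pool.Agent.H11.EM.CNT.cnt`, proved). First part. If `A = univ`: `S_CNT`;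
`tau ≤ tauR` as `dg L ≥ 5`. Let `A ≠ univ`. Apply these to the family `L k`, `k ∈ A`, and the restrictions of
the elements of `fib A γ T`; they satisfy `Ty1` (the components outside `A` are units at `l`) and `Ty2`. If
some prime `u` above `l` outside `A` has odd residue degree they satisfy `Ty2s`: for `β`, `β'` in the fibre
`c γ_u² ≡ g²` modulo `u` and `γ_u ∉ u`, so `c` is a square in the residue field of `u`, so modulo `l` as the
residue degree is odd, `c ≡ b²`, and one can divide by `b²`. This is the case if `l` splits completely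
(`NN = dg`), and if `nA` is odd (then `dg - nA` is odd, the sum of the residue degrees outside `A`): then
`tauS ≤ 3 / 4 ≤ tauR` unless `NA = 0`. Otherwise `nA` is even, `nA ≥ 4`, `NN ≠ dg`, and `tau ≤ 1 = tauR` unless
`NA = 0`. Second part: all elements are units, `Pool.Agent.H11.EC.CORE.cnt0` in
`Pool/Agent/H11/EC/CORE.lean`, for the restrictions. -/
def S_CNTR : Prop := ∀ (K : Type) [Fintype K] [DecidableEq K] (L : K → Type) [∀ k, Field (L k)]
  [∀ k, NumberField (L k)], Even (dg L) → 5 ≤ dg L → ∀ A : Finset K, 3 ≤ nA L A →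
  ∀ l : ℕ, l.Prime → l ≠ 2 → (∀ k, Squarefree (Ideal.span {(l : 𝓞 (L k))})) →
  ∀ T : Set (∀ k, 𝓞 (L k)), Ty1 l T → Ty2 l T → ∀ γ ∈ T, (∀ u : PL L l, u.1 ∉ A → ¬ In γ u) →
  (((clsA A l (fib A γ T)).ncard : ℕ) : ℝ) ≤ (l : ℝ) ^ nA L A *
    (1 - (NA L A l - tauR L A l) / l + (nA L A : ℝ) ^ 2 / (l : ℝ) ^ 2) ∧
  ((∀ β ∈ T, ∀ u : PL L l, ¬ In β u) → (((clsA A l (fib A γ T)).ncard : ℕ) : ℝ) ≤
    (l : ℝ) ^ nA L A * (1 - (NA L A l : ℝ) / l + (nA L A : ℝ) ^ 2 / (l : ℝ) ^ 2))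

/-- the `j`-th threshold: `min (Y (e j)) Z` -/
noncomputable def yy {K : Type} [Fintype K] (e : Fin (Fintype.card K) ≃ K) (Y : K → ℝ) (Z : ℝ)
    (j : Fin (Fintype.card K)) : ℝ := min (Y (e j)) Z

/-- the threshold before the `j`-th: 1 for `j = 0` -/
noncomputable def y0 {K : Type} [Fintype K] (e : Fin (Fintype.card K) ≃ K) (Y : K → ℝ) (Z : ℝ)
    (j : Fin (Fintype.card K)) : ℝ :=
  if h : 0 < j.1 then yy e Y Z ⟨j.1 - 1, by omega⟩ else 1

/-- the primes of the `j`-th scale -/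
noncomputable def PJ {K : Type} [Fintype K] (M0 : ℕ) (e : Fin (Fintype.card K) ≃ K) (Y : K → ℝ) (Z : ℝ)
    (j : Fin (Fintype.card K)) : Finset ℕ :=
  (pr (yy e Y Z j ^ ((1 : ℝ) / (4 * Fintype.card K)))).filter
    (fun l => (M0 : ℝ) * y0 e Y Z j ^ M0 < l)

/-- the components of the `j`-th scale -/
def AJ {K : Type} [Fintype K] (e : Fin (Fintype.card K) ≃ K) (j : Fin (Fintype.card K)) : Finset K :=
  univ.filter (fun k => j ≤ e.symm k)

/-- JOB EN-COREA. The sieve.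
Proof (from `S_NS`, `S_CNTR` and the library theorems `S_SUMS` (for each scale), `S_RAM`; compare with
`Pool.Agent.H11.EC.CORE.core`, `Pool/Agent/H11/EC/CORE.lean`): `r = Fintype.card K` scales,
`A j = AJ e j`, `Q j = ⌊yy j ^ (1 / (4 r))⌋₊`, `P j` = the `l ∈ PJ .. j` with `η j l > 0`, where
`η j l = wt L S (AJ e j) l / l - (nA) ^ 2 / l ^ 2`; `η j l ≤ dg / l`. (For `wt > 0`: `wt ≥ 1/4`, so `η > 0` for
`l > 4 dg²`; if `wt ≤ 0` then `wt = 0`.) `M0` is larger than `4 dg²`, `B`, the integers of `S_RAM`, 2, all the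
degrees. As `yy` is monotone, `∏ j' < j, Q j' ≤ y0 j ^ (1 / 4) < l` for `l ∈ PJ j`, and `(∏ j' ≤ j, Q j')² ≤ yy j
≤ Y (e j)`. If `y0 j ≥ Z` then `PJ j = ∅`. Otherwise for `k ∉ AJ e j`: `Y k ≤ y0 j`, so the norm of the nonzero
component `γ k` is at most `y0 j ^ n k < l`, and it is a unit at `l`; and `{k | Z ≤ Y k} ⊆ AJ e j`, so
`3 ≤ nA (AJ e j)`. So `S_CNTR` applies. `S_SUMS` gives `G j ≥ c exp (∑ l ∈ P j, η j l)`, and
`∑ (nA) ^ 2 / l ^ 2` is bounded. -/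
def S_COREA : Prop := ∀ (K : Type) [Fintype K] [DecidableEq K] [Nonempty K] (L : K → Type)
  [∀ k, Field (L k)] [∀ k, NumberField (L k)], Even (dg L) → 5 ≤ dg L → ∀ B : ℕ, B ≠ 0 → ∀ S : Set ℕ,
  ∃ (C : ℝ) (M0 : ℕ), 0 < C ∧ 1 ≤ M0 ∧ ∀ T : Set (∀ k, 𝓞 (L k)),
    (∀ l : ℕ, l.Prime → ¬ l ∣ B → Ty1 l T ∧ Ty2 l T ∧
      (l ∉ S → ∀ β ∈ T, ∀ u : PL L l, ¬ In β u)) → (∀ β ∈ T, ∀ k, β k ≠ 0) →
  ∀ (Z : ℝ) (Y : K → ℝ) (e : Fin (Fintype.card K) ≃ K), 3 ≤ Z → (∀ k, 1 ≤ Y k) →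
    Monotone (fun j => Y (e j)) → 3 ≤ nA L (univ.filter (fun k => Z ≤ Y k)) →
    (box Y T).Finite ∧ (((box Y T).ncard : ℕ) : ℝ) ≤ C * (∏ k, Y k ^ Module.finrank ℚ (L k)) *
      Real.exp (-(∑ j, ∑ l ∈ PJ M0 e Y Z j, wt L S (AJ e j) l / l))

open Classical in
/-- JOB EN-COREB. The sum of the weights.
Proof (from the library theorem `S_M1`, `Pool.Agent.Q247.EL.m1`, and Mertens' theorem,
`Pool.Agent.R925.FD.mert` or `V/..Q91_EL_Sums.lean`): `wt ≥ NA - 1_S + (1/4) 1_{S, NN = dg}`, and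
`∑ j, ∑ l ∈ PJ j, NA (AJ j) l / l = ∑ i, ∑ j ≤ i, ∑ l ∈ PJ j, N1 (L (e i)) l / l`. A prime `l ≤ yy i` is in `PJ j`
for some `j ≤ i`, or `yy j ^ (1 / (4 r)) < l ≤ M0 * yy j ^ M0` for some `j ≤ i` (`j` minimal with
`l ≤ M0 * yy j ^ M0`); the sum of `1 / l` over these is bounded. So the sum is at least
`∑ i, ((1 - ε) log log (yy i) - C)`; similarly for the sum over the primes with `NN = dg` (hypothesis). The
`PJ j` are disjoint subsets of `pr Z`. -/
def S_COREB : Prop := ∀ (K : Type) [Fintype K] [DecidableEq K] [Nonempty K] (L : K → Type)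
  [∀ k, Field (L k)] [∀ k, NumberField (L k)] (S : Set ℕ) (M0 : ℕ), 1 ≤ M0 →
  (∃ c C : ℝ, 0 < c ∧ ∀ Y : ℝ, 3 ≤ Y → c * Real.log (Real.log Y) - C ≤
    ∑ l ∈ (pr Y).filter (fun l => NN L l = dg L ∧ l ∈ S), (1 : ℝ) / l) →
  ∃ c C : ℝ, 0 < c ∧ ∀ (Z : ℝ) (Y : K → ℝ) (e : Fin (Fintype.card K) ≃ K), 3 ≤ Z → (∀ k, 1 ≤ Y k) →
    Monotone (fun j => Y (e j)) → (∃ k, Z ≤ Y k) →
    ∑ k, Real.log (1 + Real.log (min (Y k) Z)) + c * Real.log (1 + Real.log Z) -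
      ∑ q ∈ (pr Z).filter (fun q => q ∈ S), (1 : ℝ) / q - C ≤
      ∑ j, ∑ l ∈ PJ M0 e Y Z j, wt L S (AJ e j) l / l

open Classical in
/-- the main upper bound (from `S_COREA`, `S_COREB`) -/
def S_COREM : Prop := ∀ (K : Type) [Fintype K] [DecidableEq K] [Nonempty K] (L : K → Type)
  [∀ k, Field (L k)] [∀ k, NumberField (L k)], Even (dg L) → 5 ≤ dg L → ∀ B : ℕ, B ≠ 0 → ∀ S : Set ℕ,
  (∃ c C : ℝ, 0 < c ∧ ∀ Y : ℝ, 3 ≤ Y → c * Real.log (Real.log Y) - C ≤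
    ∑ l ∈ (pr Y).filter (fun l => NN L l = dg L ∧ l ∈ S), (1 : ℝ) / l) →
  ∃ c C : ℝ, 0 < c ∧ 0 < C ∧ ∀ T : Set (∀ k, 𝓞 (L k)),
    (∀ l : ℕ, l.Prime → ¬ l ∣ B → Ty1 l T ∧ Ty2 l T ∧
      (l ∉ S → ∀ β ∈ T, ∀ u : PL L l, ¬ In β u)) → (∀ β ∈ T, ∀ k, β k ≠ 0) →
  ∀ (Z : ℝ) (Y : K → ℝ), 3 ≤ Z → (∀ k, 1 ≤ Y k) → 3 ≤ nA L (univ.filter (fun k => Z ≤ Y k)) →
    (box Y T).Finite ∧ (((box Y T).ncard : ℕ) : ℝ) ≤ C * (∏ k, Y k ^ Module.finrank ℚ (L k)) *
      Real.exp (∑ q ∈ (pr Z).filter (fun q => q ∈ S), (1 : ℝ) / q) * Real.log Z ^ (-c) *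
      (∏ k, (1 + Real.log (min (Y k) Z)))⁻¹

/-- JOB EN-DYAD. The sum over the dyadic boxes.
Proof. By induction on the number `r` of the elements of `K`:
`∑_{∑ j = s} ∏ 1 / (j k + 1) ≤ (C (1 + log (s + 1))) ^ r / (s + 1)` (`r ≥ 1`), since
`∑_{a + b = s} 1 / ((a + 1) (b + 1)) ≤ 2 (1 + log (s + 1)) / (s + 2)`; then sum `2 ^ s / (s + 1)` over `s ≤ Λ`. -/
def S_DYAD : Prop := ∀ (K : Type) [Fintype K] [DecidableEq K] [Nonempty K], ∃ C : ℝ, 0 < C ∧ ∀ Λ : ℕ,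
  ∑ j ∈ (Fintype.piFinset (fun _ : K => range (Λ + 1))).filter (fun j => ∑ k, j k ≤ Λ),
    (2 : ℝ) ^ (∑ k, j k) * ∏ k, ((j k : ℝ) + 1)⁻¹ ≤
    C * 2 ^ Λ * (1 + Real.log (Λ + 1)) ^ Fintype.card K / (Λ + 1)

/-- JOB EN-GOOD. The number of the `D` with large components of total degree at least 3.
Proof (from `S_DYAD`): as `good_count` in `Pool/Agent/H11/EC/Fin.lean`: the `D` with
`2 ^ (j k) ≤ P D k < 2 ^ (j k + 1)` (all `k`), `∑ j k ≤ Nat.log 2 X =: Λ`, are mapped by `A` into the box with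
`Y k = max C1 1 * (2 ^ (j k + 1)) ^ (1 / n k)`, `Y k ≥ Z` if `P D k ≥ Z ^ dg L`. For the sum over the `j` use
`1 + log (min (Y k) Z) ≥ c (j k + 1) * (log Z / (Λ + 1))`: if the minimum is `Y k` this is true for small `c`
(`log Z ≤ Λ + 1` if the set is not empty), and if it is `Z`, `j k ≤ Λ`. -/
def S_GOOD : Prop := ∀ (K : Type) [Fintype K] [DecidableEq K] [Nonempty K] (L : K → Type)
  [∀ k, Field (L k)] [∀ k, NumberField (L k)] (T : Set (∀ k, 𝓞 (L k))) (A : ℤ → ∀ k, 𝓞 (L k))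
  (P : ℤ → K → ℕ) (E : Set ℤ) (GG : ℝ → ℝ) (C1 C2 c : ℝ), 0 < C2 → Set.InjOn A E →
  (∀ D ∈ E, (∀ k, P D k ≠ 0) ∧ ∏ k, P D k ≤ D.natAbs ∧ A D ∈ T ∧
    ∀ k, ∀ σ : L k →+* ℂ, ‖σ (A D k : L k)‖ ≤
      C1 * (P D k : ℝ) ^ ((1 : ℝ) / Module.finrank ℚ (L k))) →
  (∀ (Z : ℝ) (Y : K → ℝ), 3 ≤ Z → (∀ k, 1 ≤ Y k) → 3 ≤ nA L (univ.filter (fun k => Z ≤ Y k)) →
    (box Y T).Finite ∧ (((box Y T).ncard : ℕ) : ℝ) ≤ C2 * (∏ k, Y k ^ Module.finrank ℚ (L k)) *
      Real.exp (GG Z) * Real.log Z ^ (-c) * (∏ k, (1 + Real.log (min (Y k) Z)))⁻¹) →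
  ∃ C : ℝ, 0 < C ∧ ∀ (Z : ℝ) (X : ℕ), 3 ≤ Z → 1 ≤ X →
    ({D : ℤ | D.natAbs ≤ X ∧ D ∈ E ∧
      3 ≤ nA L (univ.filter (fun k => Z ^ dg L ≤ (P D k : ℝ)))}.ncard : ℝ) ≤
      C * X * (((Nat.log 2 X : ℝ) + 1) / Real.log Z) ^ Fintype.card K *
        (1 + Real.log ((Nat.log 2 X : ℝ) + 1)) ^ Fintype.card K / ((Nat.log 2 X : ℝ) + 1) *
        (Real.exp (GG Z) * Real.log Z ^ (-c))

end Pool.Agent.H11.EN
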