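import Mathlib
import Pool.Agent.H11.EN.Stm
import Pool.Agent.H11.EM.CNT
import Pool.Agent.H11.EC.CORE
import Pool.Agent.H11.V.R_pool_sql_team_seeded_3997aac3_Q91_EL_Small

set_option autoImplicit false

/-!
Project EN (helper11), job CNTR: the number of the residue classes of the components in `A` in a fibre.
-/

namespace Pool.Agent.H11.EN.CNTR

open Finset NumberField IsDedekindDomain
open Pool.Agent.Q51.EL (Abv N1)
open Pool.Agent.H11.EM (PL In Ty1 Ty2 box cls dg NN tau)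
open Pool.Agent.H11.EM.CNT (kk finite_PL)
open Pool.Agent.H11.EN

/-- a rational integer that is a square in an extension of odd degree is a square -/
theorem sq_of_odd {l : ℕ} (hl : l.Prime) (hl2 : l ≠ 2) (F : Type) [Field F] [Fintype F] {f : ℕ}
    (hf : Odd f) (hF : Fintype.card F = l ^ f) (hinj : ∀ z : ℤ, (z : F) = 0 → (l : ℤ) ∣ z)
    (c : ℤ) (x : F) (hx : x ^ 2 = c) (hc : ¬ (l : ℤ) ∣ c) :
    ∃ b : ℤ, (l : ℤ) ∣ c - b ^ 2 := by
  haveI : Fact l.Prime := ⟨hl⟩
  have hodd : Odd l := hl.odd_of_ne_two hl2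
  have hx0 : x ≠ 0 := by
    intro h
    rw [h] at hx
    exact hc (hinj c (by rw [← hx]; ring))
  have h1 : x ^ (l ^ f - 1) = 1 := by
    rw [← hF]
    exact FiniteField.pow_card_sub_one_eq_one x hx0
  obtain ⟨m, hm⟩ := hodd
  have hS : (∑ i ∈ range f, l ^ i) * (l - 1) = l ^ f - 1 := by
    have h2 : 1 ≤ l := hl.one_lt.le
    have h3 := Nat.geomSum_eq hl.two_le f
    rw [h3]
    exact Nat.div_mul_cancel (Nat.sub_one_dvd_pow_sub_one l f)
  have hSodd : Odd (∑ i ∈ range f, l ^ i) := by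
    rw [Finset.odd_sum_iff_odd_card_odd, filter_true_of_mem, card_range]
    · exact hf
    · intro i _
      exact (hl.odd_of_ne_two hl2).pow
  obtain ⟨S, hSe⟩ : ∃ S, S = ∑ i ∈ range f, l ^ i := ⟨_, rfl⟩
  rw [← hSe] at hS hSodd
  have h2 : ((c : F) ^ m) ^ S = 1 := by
    rw [← hx, ← pow_mul, ← pow_mul, ← h1, ← hS]
    congr 1
    rw [hm]
    simp
    ring
  have h3 : (((c ^ m) ^ S - 1 : ℤ) : F) = 0 := by
    push_cast
    rw [h2, sub_self]
  have h4 := hinj _ h3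
  have h5 : ((c : ZMod l) ^ m) ^ S = 1 := by
    have h6 := (ZMod.intCast_zmod_eq_zero_iff_dvd _ l).2 h4
    push_cast at h6
    exact sub_eq_zero.1 h6
  have hc0 : (c : ZMod l) ≠ 0 := fun h => hc ((ZMod.intCast_zmod_eq_zero_iff_dvd _ l).1 h)
  have hm2 : l / 2 = m := by omega
  have h6 : (c : ZMod l) ^ (l / 2) = 1 := by
    rcases ZMod.pow_div_two_eq_neg_one_or_one l hc0 with h | h
    · exact h
    · rw [hm2] at h
      rw [h, hSodd.neg_one_pow] at h5
      exfalso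
      have h7 : (2 : ZMod l) = 0 := by
        calc (2 : ZMod l) = 1 - (-1) := by ring
          _ = 0 := by rw [h5, sub_self]
      have h8 : ((2 : ℕ) : ZMod l) = 0 := by exact_mod_cast h7
      rw [ZMod.natCast_eq_zero_iff] at h8
      exact hl2 ((Nat.prime_dvd_prime_iff_eq hl Nat.prime_two).1 h8)
  obtain ⟨b, hb⟩ := (ZMod.euler_criterion l hc0).2 h6
  obtain ⟨b', rfl⟩ := ZMod.intCast_surjective b
  refine ⟨b', ?_⟩
  rw [← ZMod.intCast_zmod_eq_zero_iff_dvd]
  push_cast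
  rw [hb]
  ring

section

variable {K : Type} (L : K → Type) [∀ k, Field (L k)] [∀ k, NumberField (L k)] {l : ℕ}

/-- the primes of the part `A` -/
def ic (A : Finset K) (u : PL (fun k : A => L k) l) : PL L l := ⟨u.1.1, u.2⟩

theorem ic_inj (A : Finset K) : Function.Injective (ic L A (l := l)) := by
  rintro ⟨⟨k, hk⟩, u⟩ ⟨⟨k', hk'⟩, v⟩ h
  unfold ic at h
  simp only [Sigma.mk.injEq] at h
  obtain ⟨h1, h2⟩ := h
  subst h1
  rw [eq_of_heq h2]

/-- the restriction -/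
def re (A : Finset K) (β : ∀ k, 𝓞 (L k)) : ∀ k : A, 𝓞 (L k) := fun k => β k

theorem cls_re (A : Finset K) (T : Set (∀ k, 𝓞 (L k))) : clsA A l T = cls l (re L A '' T) := by
  unfold clsA cls
  rw [Set.image_image]
  rfl

theorem dg_re (A : Finset K) : dg (fun k : A => L k) = nA L A := by
  unfold dg nA
  exact Finset.sum_coe_sort A (fun k => Module.finrank ℚ (L k))

theorem NN_re (A : Finset K) : NN (fun k : A => L k) l = NA L A l := by
  unfold NN NA
  exact Finset.sum_coe_sort A (fun k => N1 (L k) l)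

variable {L}

theorem ty1_re {A : Finset K} {T : Set (∀ k, 𝓞 (L k))} {γ : ∀ k, 𝓞 (L k)} (h : Ty1 l T)
    (hγ : ∀ u : PL L l, u.1 ∉ A → ¬ In γ u) : Ty1 l (re L A '' fib A γ T) := by
  rintro _ ⟨β, ⟨hβT, hβγ⟩, rfl⟩
  rcases h β hβT with h1 | ⟨u0, hn, h0, h1⟩
  · left
    intro u
    exact h1 (ic L A u)
  · right
    have hA : u0.1 ∈ A := by
      by_contra hA
      refine hγ u0 hA ?_
      unfold In at h0 ⊢
      rw [← hβγ u0.1 hA]
      exact h0
    refine ⟨⟨⟨u0.1, hA⟩, u0.2⟩, hn, h0, ?_⟩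
    intro u hu
    refine h1 (ic L A u) ?_
    intro h2
    refine hu (ic_inj L A ?_)
    rw [h2]
    rfl

theorem ty2_re {A : Finset K} {T : Set (∀ k, 𝓞 (L k))} {γ : ∀ k, 𝓞 (L k)} (h : Ty2 l T) :
    Ty2 l (re L A '' fib A γ T) := by
  rintro _ ⟨β, ⟨hβT, hβγ⟩, rfl⟩ _ ⟨β', ⟨hβ'T, hβ'γ⟩, rfl⟩ u0 h0 h0'
  obtain ⟨c, hc, h1⟩ := h β hβT β' hβ'T (ic L A u0) h0 h0'
  exact ⟨c, hc, fun u hu => h1 (ic L A u) (fun h2 => hu (ic_inj L A h2))⟩

theorem ty2s_re {A : Finset K} {T : Set (∀ k, 𝓞 (L k))} {γ : ∀ k, 𝓞 (L k)} (h : Ty2 l T)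
    (hl : l.Prime) (hl2 : l ≠ 2) (hγ : ∀ u : PL L l, u.1 ∉ A → ¬ In γ u) (u1 : PL L l) (hu1 : u1.1 ∉ A)
    {f : ℕ} (hf : Odd f) (hF : Nat.card (kk L u1) = l ^ f) :
    Ty2s l (re L A '' fib A γ T) := by
  rintro _ ⟨β, ⟨hβT, hβγ⟩, rfl⟩ _ ⟨β', ⟨hβ'T, hβ'γ⟩, rfl⟩ u0 h0 h0'
  obtain ⟨c, hc, h1⟩ := h β hβT β' hβ'T (ic L A u0) h0 h0'
  have hne : u1 ≠ ic L A u0 := by
    intro h2
    apply hu1
    rw [h2]
    exact u0.1.2
  obtain ⟨g, hg⟩ := h1 u1 hne
  rw [hβγ u1.1 hu1, hβ'γ u1.1 hu1] at hg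
  -- `c` is a square modulo `u1`
  obtain ⟨b, hb⟩ : ∃ b : ℤ, (l : ℤ) ∣ c - b ^ 2 := by
    haveI := u1.2.1.isMaximal
    letI : Field (kk L u1) := Ideal.Quotient.field u1.2.1.asIdeal
    haveI : Finite (kk L u1) := Pool.Agent.Q247.EL.finite_k (L u1.1) u1.2
    letI : Fintype (kk L u1) := Fintype.ofFinite _
    have hγ0 : Ideal.Quotient.mk u1.2.1.asIdeal (γ u1.1) ≠ 0 := fun h =>
      hγ u1 hu1 ((Ideal.Quotient.eq_zero_iff_mem).1 h)
    have h2 : Ideal.Quotient.mk u1.2.1.asIdeal (c : 𝓞 (L u1.1)) *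
        Ideal.Quotient.mk u1.2.1.asIdeal (γ u1.1) * Ideal.Quotient.mk u1.2.1.asIdeal (γ u1.1) =
          Ideal.Quotient.mk u1.2.1.asIdeal g ^ 2 := by
      rw [← map_mul, ← map_mul, ← map_pow]
      exact (Ideal.Quotient.eq).2 hg
    refine sq_of_odd hl hl2 (kk L u1) hf ?_ ?_ c (Ideal.Quotient.mk u1.2.1.asIdeal g /
      Ideal.Quotient.mk u1.2.1.asIdeal (γ u1.1)) ?_ hc
    · rw [← Nat.card_eq_fintype_card]
      exact hF
    · intro z hz
      refine Pool.Agent.Q247.EL.int_mem (L u1.1) hl u1.2 z ((Ideal.Quotient.eq_zero_iff_mem).1 ?_)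
      rw [map_intCast]
      exact hz
    · rw [div_pow, ← h2, map_intCast]
      field_simp
  have hlb : ¬ (l : ℤ) ∣ b := by
    intro h2
    apply hc
    have h3 : (l : ℤ) ∣ (c - b ^ 2) + b * b := dvd_add hb (h2.mul_right b)
    have h4 : (c - b ^ 2) + b * b = c := by ring
    rwa [h4] at h3
  have hcop : IsCoprime (l : ℤ) b := by
    rw [Int.isCoprime_iff_gcd_eq_one]
    have h1 : Nat.Coprime l b.natAbs := (Nat.Prime.coprime_iff_not_dvd hl).2
      (fun h2 => hlb (Int.natCast_dvd.2 h2))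
    have h2 : Int.gcd (l : ℤ) b = Nat.gcd l b.natAbs := rfl
    rw [h2]
    exact h1
  obtain ⟨a, b', hab⟩ := hcop
  intro u hu
  have hkey : ∃ g' : 𝓞 (L u.1), (c : 𝓞 (L u.1)) * β u.1 * β' u.1 - g' ^ 2 ∈ u.2.1.asIdeal := by
    exact h1 (ic L A u) (fun h2 => hu (ic_inj L A h2))
  obtain ⟨g', hg'⟩ := hkey
  refine ⟨(b' : 𝓞 (L u.1)) * g', ?_⟩
  change β u.1 * β' u.1 - ((b' : 𝓞 (L u.1)) * g') ^ 2 ∈ u.2.1.asIdeal
  obtain ⟨m, hm⟩ := hb
  -- `1 - b'² c` is a multiple of `l`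
  obtain ⟨z, hz⟩ : ∃ z : ℤ, 1 - b' ^ 2 * c = z * l := by
    refine ⟨a * (1 + b' * b) - b' ^ 2 * m, ?_⟩
    have e1 : c = b ^ 2 + l * m := by linarith
    have e2 : 1 - b' ^ 2 * b ^ 2 = (a * (1 + b' * b)) * l := by
      have e3 : a * l = 1 - b' * b := by linarith
      calc 1 - b' ^ 2 * b ^ 2 = (1 - b' * b) * (1 + b' * b) := by ring
        _ = (a * l) * (1 + b' * b) := by rw [e3]
        _ = _ := by ring
    rw [e1]
    linear_combination e2
  have hz' : (1 : 𝓞 (L u.1)) - (b' : 𝓞 (L u.1)) ^ 2 * (c : 𝓞 (L u.1)) = (z : 𝓞 (L u.1)) * (l : 𝓞 (L u.1)) := by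
    have := congrArg (fun x : ℤ => (x : 𝓞 (L u.1))) hz
    push_cast at this
    exact this
  have h5 : β u.1 * β' u.1 - ((b' : 𝓞 (L u.1)) * g') ^ 2 =
      (β u.1 * β' u.1 * (z : 𝓞 (L u.1))) * (l : 𝓞 (L u.1)) +
        (b' : 𝓞 (L u.1)) ^ 2 * ((c : 𝓞 (L u.1)) * β u.1 * β' u.1 - g' ^ 2) := by
    linear_combination (β u.1 * β' u.1) * hz'
  rw [h5]
  exact u.2.1.asIdeal.add_mem (u.2.1.asIdeal.mul_mem_left _ u.2.2) (u.2.1.asIdeal.mul_mem_left _ hg')

end

/-- a prime outside `A` of odd residue degree, if `nA` is odd -/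
theorem exists_odd {K : Type} [Fintype K] [DecidableEq K] (L : K → Type) [∀ k, Field (L k)]
    [∀ k, NumberField (L k)] {l : ℕ} (hl : l.Prime) (hsq : ∀ k, Squarefree (Ideal.span {(l : 𝓞 (L k))}))
    (A : Finset K) (hev : Even (dg L)) (hodd : Odd (nA L A)) :
    ∃ u1 : PL L l, u1.1 ∉ A ∧ ∃ f, Odd f ∧ Nat.card (kk L u1) = l ^ f := by
  classical
  by_contra hcon
  push Not at hcon
  have hfin : Finite (PL (fun k : (Aᶜ : Finset K) => L k) l) := finite_PL _ hl
  letI : Fintype (PL (fun k : (Aᶜ : Finset K) => L k) l) := Fintype.ofFinite _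
  have h1 := Pool.Agent.H11.EM.CNT.prod_card (fun k : (Aᶜ : Finset K) => L k) hl (fun k => hsq k)
  rw [dg_re L Aᶜ] at h1
  have h2 : nA L A + nA L Aᶜ = dg L := by
    unfold nA dg
    exact Finset.sum_add_sum_compl A _
  have h3 : Odd (nA L Aᶜ) := by
    rw [← h2] at hev
    rcases Nat.even_or_odd (nA L Aᶜ) with h | h
    · exfalso
      exact (Nat.not_odd_iff_even.2 hev) (hodd.add_even h)
    · exact h
  have h4 : ∀ u : PL (fun k : (Aᶜ : Finset K) => L k) l, ∃ f, Even f ∧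
      Nat.card (kk (fun k : (Aᶜ : Finset K) => L k) u) = l ^ f := by
    intro u
    have h5 : Nat.card (kk (fun k : (Aᶜ : Finset K) => L k) u) ∣ l ^ nA L Aᶜ := by
      rw [← h1]
      exact Finset.dvd_prod_of_mem _ (mem_univ u)
    obtain ⟨f, _, hf⟩ := (Nat.dvd_prime_pow hl).1 h5
    refine ⟨f, ?_, hf⟩
    by_contra hne
    rw [Nat.not_even_iff_odd] at hne
    exact hcon (ic L Aᶜ u) (Finset.mem_compl.1 u.1.2) f hne hf
  choose f hf1 hf2 using h4
  rw [Finset.prod_congr rfl (fun u _ => hf2 u), Finset.prod_pow_eq_pow_sum] at h1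
  have h5 := Nat.pow_right_injective hl.two_le h1
  have h6 : Even (∑ u, f u) := Finset.even_sum _ (fun u _ => hf1 u)
  rw [h5] at h6
  exact (Nat.not_odd_iff_even.2 h6) h3

/-- a prime outside `A` of degree one, if `l` splits completely -/
theorem exists_one {K : Type} [Fintype K] [DecidableEq K] (L : K → Type) [∀ k, Field (L k)]
    [∀ k, NumberField (L k)] {l : ℕ} (hl : l.Prime)
    (A : Finset K) (hA : A ≠ univ) (hN : NN L l = dg L) :
    ∃ u1 : PL L l, u1.1 ∉ A ∧ ∃ f, Odd f ∧ Nat.card (kk L u1) = l ^ f := by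
  classical
  obtain ⟨k, hk⟩ : ∃ k, k ∉ A := by
    by_contra h
    push Not at h
    exact hA (Finset.eq_univ_iff_forall.2 h)
  have h1 : N1 (L k) l = Module.finrank ℚ (L k) := by
    unfold NN dg at hN
    exact (Finset.sum_eq_sum_iff_of_le
      (fun k _ => (Pool.Agent.Q91.EL.ram (L k)).2 l hl)).1 hN k (mem_univ k)
  have h2 : 0 < N1 (L k) l := by
    rw [h1]
    exact Module.finrank_pos
  unfold N1 at h2
  obtain ⟨⟨v, hv⟩⟩ := (Nat.card_pos_iff.1 h2).1
  have h3 : Abv v l := by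
    have h := Ideal.absNorm_mem v.asIdeal
    rw [hv] at h
    exact h
  refine ⟨⟨k, ⟨v, h3⟩⟩, hk, 1, odd_one, ?_⟩
  rw [pow_one]
  exact (Pool.Agent.Q247.EL.card_eq_norm (L k) ⟨v, h3⟩).trans hv

theorem NA_eq {K : Type} [Fintype K] [DecidableEq K] (L : K → Type) [∀ k, Field (L k)]
    [∀ k, NumberField (L k)] {l : ℕ} (hl : l.Prime) (A : Finset K) (hN : NN L l = dg L) :
    NA L A l = nA L A := by
  unfold NA nA
  unfold NN dg at hN
  exact Finset.sum_congr rfl fun k _ => (Finset.sum_eq_sum_iff_of_le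
    (fun k _ => (Pool.Agent.Q91.EL.ram (L k)).2 l hl)).1 hN k (mem_univ k)

theorem pw1 : ∀ n : ℕ, 3 ≤ n → n * 8 ≤ 3 * 2 ^ n := by
  intro n hn
  induction n, hn using Nat.le_induction with
  | base => norm_num
  | succ n hn ih =>
    rw [pow_succ]
    omega

theorem pw2 : ∀ n : ℕ, 4 ≤ n → n * 4 ≤ 2 ^ n := by
  intro n hn
  induction n, hn using Nat.le_induction with
  | base => norm_num
  | succ n hn ih =>
    rw [pow_succ]
    omega

theorem pw3 : ∀ n : ℕ, 5 ≤ n → n * 16 ≤ 3 * 2 ^ n := by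
  intro n hn
  induction n, hn using Nat.le_induction with
  | base => norm_num
  | succ n hn ih =>
    rw [pow_succ]
    omega

/-- weakening the constant -/
theorem weak {l n N : ℕ} {t t' X : ℝ} (hl : l.Prime) (h : t ≤ t')
    (hX : X ≤ (l : ℝ) ^ n * (1 - ((N : ℝ) - t) / l + (n : ℝ) ^ 2 / (l : ℝ) ^ 2)) :
    X ≤ (l : ℝ) ^ n * (1 - ((N : ℝ) - t') / l + (n : ℝ) ^ 2 / (l : ℝ) ^ 2) := by
  have hl0 : (0 : ℝ) < l := by exact_mod_cast hl.pos
  refine hX.trans ?_
  refine mul_le_mul_of_nonneg_left ?_ (by positivity)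
  have h1 : ((N : ℝ) - t') / l ≤ ((N : ℝ) - t) / l :=
    div_le_div_of_nonneg_right (by linarith) hl0.le
  linarith

theorem main (hS : S_CNTS) : S_CNTR := by
  intro K _ _ L _ _ hev h5 A hA3 l hl hl2 hsq T hT1 hT2 γ hγT hγ
  classical
  have hne : A.Nonempty := by
    by_contra h
    rw [Finset.not_nonempty_iff_eq_empty] at h
    rw [h] at hA3
    unfold nA at hA3
    simp at hA3
  haveI : Nonempty A := hne.to_subtype
  rw [cls_re L A (fib A γ T)]
  have hT1' := ty1_re (A := A) hT1 hγ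
  have hT2' := ty2_re (A := A) (γ := γ) hT2
  constructor
  · by_cases hcase : Odd (nA L A) ∨ (NN L l = dg L ∧ A ≠ univ)
    · obtain ⟨u1, hu1, f, hf, hF⟩ : ∃ u1 : PL L l, u1.1 ∉ A ∧ ∃ f, Odd f ∧
          Nat.card (kk L u1) = l ^ f := by
        rcases hcase with h | h
        · exact exists_odd L hl hsq A hev h
        · exact exists_one L hl A h.2 h.1
      have hT2s := ty2s_re (A := A) hT2 hl hl2 hγ u1 hu1 hf hF
      have h1 := hS A (fun k : A => L k) l hl hl2 (fun k => hsq k) (re L A '' fib A γ T) hT1' hT2s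
      rw [dg_re L A, NN_re L A] at h1
      refine weak hl ?_ h1
      unfold tauS tauR
      rw [dg_re L A, NN_re L A]
      have hp : (nA L A : ℝ) * 2 / 2 ^ nA L A ≤ 3 / 4 := by
        rw [div_le_div_iff₀ (by positivity) (by norm_num)]
        have := pw1 _ hA3
        have h6 : ((nA L A : ℕ) : ℝ) * 8 ≤ 3 * 2 ^ nA L A := by exact_mod_cast this
        linarith
      by_cases hN0 : NA L A l = 0
      · rw [if_pos hN0, if_pos hN0]
        have : NN L l ≠ dg L := by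
          intro h
          rw [NA_eq L hl A h] at hN0
          omega
        rw [if_neg this]
        norm_num
      · rw [if_neg hN0, if_neg hN0]
        have h7 : (if NA L A l = nA L A then (nA L A : ℝ) * 2 / 2 ^ nA L A else 1 / 2) ≤ 3 / 4 := by
          split_ifs
          · exact hp
          · norm_num
        refine h7.trans ?_
        split_ifs <;> norm_num
    · push Not at hcase
      obtain ⟨hc1, hc2⟩ := hcase
      rw [Nat.not_odd_iff_even] at hc1
      have h1 := Pool.Agent.H11.EM.CNT.cnt A (fun k : A => L k) l hl hl2 (fun k => hsq k)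
        (re L A '' fib A γ T) hT1' hT2'
      rw [dg_re L A, NN_re L A] at h1
      refine weak hl ?_ h1
      unfold tau tauR
      rw [dg_re L A, NN_re L A]
      have hn4 : 4 ≤ nA L A := by
        obtain ⟨m, hm⟩ := hc1
        omega
      by_cases hN0 : NA L A l = 0
      · rw [if_pos hN0, if_pos hN0]
        have : NN L l ≠ dg L := by
          intro h
          rw [NA_eq L hl A h] at hN0
          omega
        rw [if_neg this]
        norm_num
      · rw [if_neg hN0, if_neg hN0]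
        by_cases hd : NN L l = dg L
        · have hu : A = univ := hc2 hd
          have hnd : nA L A = dg L := by rw [hu]; rfl
          have hNn := NA_eq L hl A hd
          rw [if_pos hNn, if_pos hd]
          have := pw3 (nA L A) (by omega)
          have h6 : ((nA L A : ℕ) : ℝ) * 16 ≤ 3 * 2 ^ nA L A := by exact_mod_cast this
          rw [div_le_iff₀ (by positivity)]
          linarith
        · rw [if_neg hd, sub_zero]
          split_ifs
          · have := pw2 (nA L A) hn4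
            have h6 : ((nA L A : ℕ) : ℝ) * 4 ≤ 2 ^ nA L A := by exact_mod_cast this
            rw [div_le_iff₀ (by positivity)]
            linarith
          · exact le_refl _
  · intro hun
    have h1 := Pool.Agent.H11.EC.CORE.cnt0 (fun k : A => L k) hl (fun k => hsq k)
      (re L A '' fib A γ T) ?_
    · rw [dg_re L A, NN_re L A] at h1
      exact h1
    · rintro _ ⟨β, ⟨hβT, _⟩, rfl⟩ u
      exact hun β hβT (ic L A u)

end Pool.Agent.H11.EN.CNTR
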