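import Mathlib
import Pool.Agent.H11.EN.Stm
import Pool.Agent.H11.EM.CNT
import Pool.Agent.H11.V.R_pool_sql_team_seeded_3997aac3_Q91_EL_Sums
import Pool.Agent.H11.V.R_pool_sql_team_seeded_3997aac3_Q91_EL_Small

/-!
# Project EN (helper11), job EN-COREA: the multi-scale sieve (helper67)
-/

set_option autoImplicit false

namespace Pool.Agent.H11.EN.COREA

open NumberField IsDedekindDomain Finset
open Pool.Agent.Q51.EL (Abv N1 pr S_RAM S_SUMS)
open Pool.Agent.H11.EM (PL In Ty1 Ty2 box cls dg NN tau)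

/-! ## the norm -/

lemma norm_le {L : Type} [Field L] [NumberField L] (x : 𝓞 L) {Y : ℝ}
    (h : ∀ σ : L →+* ℂ, ‖σ (x : L)‖ ≤ Y) :
    ((Algebra.norm ℤ x).natAbs : ℝ) ≤ Y ^ Module.finrank ℚ L := by
  have h1 : (((Algebra.norm ℤ x).natAbs : ℝ)) =
      ‖algebraMap ℚ ℂ (Algebra.norm ℚ (x : L))‖ := by
    rw [← Algebra.coe_norm_int]
    simp
  rw [h1, Algebra.norm_eq_prod_embeddings ℚ ℂ, norm_prod]
  calc ∏ σ : L →ₐ[ℚ] ℂ, ‖σ (x : L)‖ ≤ ∏ σ : L →ₐ[ℚ] ℂ, Y :=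
        prod_le_prod (fun _ _ => norm_nonneg _) fun σ _ => h (σ : L →+* ℂ)
    _ = Y ^ Module.finrank ℚ L := by
        rw [prod_const, Finset.card_univ, AlgHom.card]

lemma not_mem {L : Type} [Field L] [NumberField L] {l : ℕ} (hl : l.Prime)
    (v : {v : HeightOneSpectrum (𝓞 L) // Abv v l}) (x : 𝓞 L) (hx : x ≠ 0) {Y : ℝ}
    (h : ∀ σ : L →+* ℂ, ‖σ (x : L)‖ ≤ Y) (hlt : Y ^ Module.finrank ℚ L < l) :
    x ∉ v.1.asIdeal := by
  intro hm
  have h1 : Ideal.absNorm v.1.asIdeal ∣ Ideal.absNorm (Ideal.span {x}) :=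
    Ideal.absNorm_dvd_absNorm_of_le ((Ideal.span_singleton_le_iff_mem _).2 hm)
  have h2 : Ideal.absNorm (Ideal.span {x}) ≠ 0 := by
    rw [Ne, Ideal.absNorm_eq_zero_iff, Ideal.span_singleton_eq_bot]
    exact hx
  have h3 := Pool.Agent.Q247.EL.le_card L hl v
  rw [Pool.Agent.Q247.EL.card_eq_norm] at h3
  have h4 := Nat.le_of_dvd (Nat.pos_of_ne_zero h2) h1
  rw [Ideal.absNorm_span_singleton] at h4
  have h5 := norm_le x h
  have h6 : (l : ℝ) ≤ ((Algebra.norm ℤ x).natAbs : ℝ) := by exact_mod_cast h3.trans h4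
  linarith

/-! ## the scales -/

section scales

variable {K : Type} [Fintype K] (e : Fin (Fintype.card K) ≃ K) (Y : K → ℝ) (Z : ℝ)

lemma yy_mono (hm : Monotone (fun j => Y (e j))) {i j : Fin (Fintype.card K)} (h : i ≤ j) :
    yy e Y Z i ≤ yy e Y Z j := min_le_min_right _ (hm h)

lemma one_le_yy (hZ : 1 ≤ Z) (hY : ∀ k, 1 ≤ Y k) (j : Fin (Fintype.card K)) : 1 ≤ yy e Y Z j :=
  le_min (hY _) hZ

lemma one_le_y0 (hZ : 1 ≤ Z) (hY : ∀ k, 1 ≤ Y k) (j : Fin (Fintype.card K)) : 1 ≤ y0 e Y Z j := by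
  unfold y0
  split_ifs
  · exact one_le_yy e Y Z hZ hY _
  · exact le_rfl

lemma yy_le_y0 (hm : Monotone (fun j => Y (e j))) {i j : Fin (Fintype.card K)} (h : i < j) :
    yy e Y Z i ≤ y0 e Y Z j := by
  unfold y0
  have h0 : 0 < j.1 := lt_of_le_of_lt (Nat.zero_le _) (Fin.lt_def.1 h)
  rw [dif_pos h0]
  refine yy_mono e Y Z hm ?_
  rw [Fin.le_def]
  have := Fin.lt_def.1 h
  simp only
  omega

lemma y0_le (hm : Monotone (fun j => Y (e j))) (hZ : 1 ≤ Z) (j : Fin (Fintype.card K)) :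
    y0 e Y Z j ≤ Z := by
  unfold y0
  split_ifs
  · exact min_le_right _ _
  · exact hZ

open Classical in
/-- the levels -/
noncomputable def Qf (j : ℕ) : ℕ :=
  if h : j < Fintype.card K then
    ⌊yy e Y Z ⟨j, h⟩ ^ ((1 : ℝ) / (4 * Fintype.card K))⌋₊ else 1

lemma one_le_Qf (hZ : 1 ≤ Z) (hY : ∀ k, 1 ≤ Y k) (j : ℕ) : 1 ≤ Qf e Y Z j := by
  unfold Qf
  split_ifs with h
  · refine Nat.le_floor ?_
    rw [Nat.cast_one]
    exact Real.one_le_rpow (one_le_yy e Y Z hZ hY _) (by positivity)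
  · exact le_rfl

lemma prodQ (hr : 0 < Fintype.card K) (hZ : 1 ≤ Z) (hY : ∀ k, 1 ≤ Y k) (s : Finset ℕ)
    (hs : s ⊆ range (Fintype.card K)) (W : ℝ)
    (hW : 1 ≤ W) (h : ∀ i : Fin (Fintype.card K), (i : ℕ) ∈ s → yy e Y Z i ≤ W) :
    ((∏ j ∈ s, Qf e Y Z j : ℕ) : ℝ) ≤ W ^ ((1 : ℝ) / 4) := by
  have hr' : (0 : ℝ) < Fintype.card K := by exact_mod_cast hr
  have h1 : ∀ j ∈ s, ((Qf e Y Z j : ℕ) : ℝ) ≤ W ^ ((1 : ℝ) / (4 * Fintype.card K)) := by
    intro j hj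
    have hj' := Finset.mem_range.1 (hs hj)
    unfold Qf
    rw [dif_pos hj']
    have h0 : 0 ≤ yy e Y Z ⟨j, hj'⟩ := by linarith [one_le_yy e Y Z hZ hY ⟨j, hj'⟩]
    refine (Nat.floor_le (Real.rpow_nonneg h0 _)).trans ?_
    exact Real.rpow_le_rpow h0 (h ⟨j, hj'⟩ hj) (by positivity)
  have h2 : 1 ≤ W ^ ((1 : ℝ) / (4 * Fintype.card K)) := Real.one_le_rpow hW (by positivity)
  have h3 : s.card ≤ Fintype.card K := by
    have := Finset.card_le_card hs
    rwa [card_range] at this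
  calc ((∏ j ∈ s, Qf e Y Z j : ℕ) : ℝ) = ∏ j ∈ s, ((Qf e Y Z j : ℕ) : ℝ) := by push_cast; rfl
    _ ≤ ∏ j ∈ s, W ^ ((1 : ℝ) / (4 * Fintype.card K)) :=
        prod_le_prod (fun _ _ => Nat.cast_nonneg _) h1
    _ = (W ^ ((1 : ℝ) / (4 * Fintype.card K))) ^ s.card := by rw [prod_const]
    _ ≤ (W ^ ((1 : ℝ) / (4 * Fintype.card K))) ^ Fintype.card K :=
        pow_le_pow_right₀ h2 h3
    _ = W ^ ((1 : ℝ) / 4) := by
        rw [← Real.rpow_natCast, ← Real.rpow_mul (by linarith)]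
        congr 1
        field_simp

/-- the components of the scales -/
noncomputable def Af [DecidableEq K] (j : ℕ) : Finset K :=
  if h : j < Fintype.card K then AJ e ⟨j, h⟩ else ∅

end scales

lemma N1_sum_le {K : Type} [Fintype K] (L : K → Type) [∀ k, Field (L k)] [∀ k, NumberField (L k)]
    (h4 : S_RAM) (A : Finset K) {l : ℕ} (hl : l.Prime) : NA L A l ≤ nA L A :=
  Finset.sum_le_sum fun k _ => (h4 (L k)).2 l hl

lemma nA_mono {K : Type} [Fintype K] (L : K → Type) [∀ k, Field (L k)] [∀ k, NumberField (L k)]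
    {A B : Finset K} (h : A ⊆ B) : nA L A ≤ nA L B :=
  Finset.sum_le_sum_of_subset h

lemma nA_le {K : Type} [Fintype K] (L : K → Type) [∀ k, Field (L k)] [∀ k, NumberField (L k)]
    (A : Finset K) : nA L A ≤ dg L :=
  Finset.sum_le_sum_of_subset (Finset.subset_univ A)

lemma wt_le {K : Type} [Fintype K] (L : K → Type) [∀ k, Field (L k)] [∀ k, NumberField (L k)]
    (S : Set ℕ) (A : Finset K) (l : ℕ) : wt L S A l ≤ NA L A l + 1 := by
  unfold wt tauR
  split_ifs <;> linarith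

theorem core (h1 : S_NS) (h2 : S_CNTR) (hS : S_SUMS) (h4 : S_RAM) : S_COREA := by
  intro K _ _ _ L _ _ hev hn B hB S
  obtain ⟨r, hr⟩ : ∃ r, r = Fintype.card K := ⟨_, rfl⟩
  have hr0 : 0 < Fintype.card K := Fintype.card_pos
  set n := dg L with hndef
  obtain ⟨Cs, hCs, hsieve⟩ := h1 K L
  have h4' := fun k => (h4 (L k)).1
  choose Bk hBk hramk using h4'
  obtain ⟨B0, hB0def⟩ : ∃ B0 : ℕ, B0 = ∏ k, Bk k := ⟨_, rfl⟩
  have hB0 : B0 ≠ 0 := by
    rw [hB0def]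
    exact Finset.prod_ne_zero_iff.2 fun k _ => hBk k
  have hram : ∀ l : ℕ, l.Prime → ¬ l ∣ B0 → ∀ k, Squarefree (Ideal.span {(l : 𝓞 (L k))}) := by
    intro l hl hlB k
    refine hramk k l hl fun h => hlB ?_
    rw [hB0def]
    exact h.trans (Finset.dvd_prod_of_mem Bk (Finset.mem_univ k))
  obtain ⟨c2, hc2, hsums⟩ := hS (n + 1) (by positivity)
  have hsumm : Summable (fun n : ℕ => 1 / (n : ℝ) ^ 2) :=
    Real.summable_one_div_nat_pow.2 (by norm_num)
  set K2 : ℝ := ∑' n : ℕ, 1 / (n : ℝ) ^ 2 with hK2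
  have hdeg : ∀ k, Module.finrank ℚ (L k) ≤ n := by
    intro k
    rw [hndef]
    unfold dg
    exact Finset.single_le_sum (f := fun k => Module.finrank ℚ (L k)) (fun _ _ => Nat.zero_le _)
      (Finset.mem_univ k)
  refine ⟨Cs / c2 ^ r * Real.exp (r * (n ^ 2 * K2)), B + B0 + 2 + n, by positivity, by omega, ?_⟩
  intro T hT hT0 Z Y e hZ hY hmon h3
  obtain ⟨M0, hM0⟩ : ∃ M0, M0 = B + B0 + 2 + n := ⟨_, rfl⟩
  rw [← hM0]
  have hM1 : 1 ≤ M0 := by omega
  have hZ1 : 1 ≤ Z := by linarith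
  have hM1' : (1 : ℝ) ≤ M0 := by exact_mod_cast hM1
  -- the weights
  let ηf : ℕ → ℕ → ℝ := fun j l => wt L S (Af e j) l / l - (nA L (Af e j) : ℝ) ^ 2 / (l : ℝ) ^ 2
  let Pf : ℕ → Finset ℕ := fun j => if h : j < Fintype.card K then
    (PJ M0 e Y Z ⟨j, h⟩).filter (fun l => 0 < ηf j l) else ∅
  have hAf : ∀ (j : ℕ) (h : j < Fintype.card K), Af e j = AJ e ⟨j, h⟩ := by
    intro j h
    unfold Af
    rw [dif_pos h]
  have hPf : ∀ (j : ℕ) (h : j < Fintype.card K), Pf j =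
      (PJ M0 e Y Z ⟨j, h⟩).filter (fun l => 0 < ηf j l) := by
    intro j h
    simp only [Pf]
    rw [dif_pos h]
  have hPJ : ∀ (j : Fin (Fintype.card K)), ∀ l ∈ PJ M0 e Y Z j, l.Prime ∧
      l ≤ ⌊yy e Y Z j ^ ((1 : ℝ) / (4 * Fintype.card K))⌋₊ ∧ (M0 : ℝ) * y0 e Y Z j ^ M0 < l := by
    intro j l hl
    unfold PJ pr at hl
    rw [mem_filter, mem_filter, mem_Icc] at hl
    exact ⟨hl.1.2, hl.1.1.2, hl.2⟩
  have hy0l : ∀ (j : Fin (Fintype.card K)), ∀ l ∈ PJ M0 e Y Z j, y0 e Y Z j < l ∧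
      y0 e Y Z j ^ M0 < l ∧ M0 < l := by
    intro j l hl
    obtain ⟨-, -, h⟩ := hPJ j l hl
    have h1 := one_le_y0 e Y Z hZ1 hY j
    have h2 : 1 ≤ y0 e Y Z j ^ M0 := one_le_pow₀ h1
    have h3 : y0 e Y Z j ≤ y0 e Y Z j ^ M0 := by
      calc y0 e Y Z j = y0 e Y Z j ^ 1 := (pow_one _).symm
        _ ≤ _ := pow_le_pow_right₀ h1 hM1
    refine ⟨by nlinarith, by nlinarith, ?_⟩
    have : (M0 : ℝ) < l := by nlinarith
    exact_mod_cast this
  have hPAj : ∀ (j : Fin (Fintype.card K)), ∀ l ∈ PJ M0 e Y Z j, y0 e Y Z j < Z := by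
    intro j l hl
    by_contra hcon
    have h1 : y0 e Y Z j = Z := le_antisymm (y0_le e Y Z hmon hZ1 j) (not_lt.1 hcon)
    have h2 := (hy0l j l hl).1
    have h3 := (hPJ j l hl).2.1
    have h4 : (l : ℝ) ≤ yy e Y Z j ^ ((1 : ℝ) / (4 * Fintype.card K)) := by
      refine (Nat.le_floor_iff (Real.rpow_nonneg ?_ _)).1 h3
      linarith [one_le_yy e Y Z hZ1 hY j]
    have h5 : yy e Y Z j ^ ((1 : ℝ) / (4 * Fintype.card K)) ≤ yy e Y Z j := by
      have h6 : (1 : ℝ) / (4 * Fintype.card K) ≤ 1 := by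
        rw [div_le_one (by positivity)]
        have : (1 : ℝ) ≤ Fintype.card K := by exact_mod_cast hr0
        linarith
      calc _ ≤ yy e Y Z j ^ (1 : ℝ) :=
            Real.rpow_le_rpow_of_exponent_le (one_le_yy e Y Z hZ1 hY j) h6
        _ = _ := Real.rpow_one _
    have h7 : yy e Y Z j ≤ Z := min_le_right _ _
    linarith
  -- the components outside of `AJ e j`
  have hout : ∀ (j : Fin (Fintype.card K)), ∀ l ∈ PJ M0 e Y Z j, ∀ k, k ∉ AJ e j →
      Y k ≤ y0 e Y Z j := by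
    intro j l hl k hk
    unfold AJ at hk
    rw [mem_filter, not_and] at hk
    have hk' : e.symm k < j := not_le.1 (hk (mem_univ k))
    have h1 := yy_le_y0 e Y Z hmon hk'
    unfold yy at h1
    rw [Equiv.apply_symm_apply] at h1
    have h2 := hPAj j l hl
    rcases min_le_iff.1 h1 with h | h
    · exact h
    · exact absurd h (not_le.2 h2)
  have hres := hsieve (Fintype.card K) (Af e) Pf (Qf e Y Z) ηf Y T hY ?_ (one_le_Qf e Y Z hZ1 hY)
    ?_ ?_ ?_
  · refine ⟨hres.1, ?_⟩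
    have hG : ∀ j ∈ range (Fintype.card K), c2 * Real.exp (∑ l ∈ Pf j, ηf j l) ≤
        ∑ D ∈ (Pf j).powerset.filter (fun D => ∏ t ∈ D, t ≤ Qf e Y Z j), ∏ t ∈ D, ηf j t := by
      intro j hj
      have hj' := mem_range.1 hj
      have hmem : ∀ t ∈ Pf j, t ∈ PJ M0 e Y Z ⟨j, hj'⟩ ∧ 0 < ηf j t := by
        intro t ht
        rw [hPf j hj', mem_filter] at ht
        exact ht
      refine hsums (Qf e Y Z j) (Pf j) (ηf j) (one_le_Qf e Y Z hZ1 hY j)
        (fun t ht => (hPJ _ t (hmem t ht).1).1) (fun t ht => ?_) fun t ht => ⟨(hmem t ht).2.le, ?_⟩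
      · unfold Qf
        rw [dif_pos hj']
        exact (hPJ _ t (hmem t ht).1).2.1
      · have htp := (hPJ _ t (hmem t ht).1).1
        have ht0 : (0 : ℝ) < t := by exact_mod_cast htp.pos
        simp only [ηf]
        have e1 : wt L S (Af e j) t ≤ n + 1 := by
          refine (wt_le L S (Af e j) t).trans ?_
          have : (NA L (Af e j) t : ℝ) ≤ n := by
            exact_mod_cast (N1_sum_le L h4 (Af e j) htp).trans (nA_le L _)
          linarith
        have e2 : 0 ≤ (nA L (Af e j) : ℝ) ^ 2 / (t : ℝ) ^ 2 := by positivity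
        have e3 : wt L S (Af e j) t / t ≤ (n + 1) / t := div_le_div_of_nonneg_right e1 ht0.le
        linarith
    have hprod : ∏ j ∈ range (Fintype.card K), (c2 * Real.exp (∑ l ∈ Pf j, ηf j l)) ≤
        ∏ j ∈ range (Fintype.card K),
          ∑ D ∈ (Pf j).powerset.filter (fun D => ∏ t ∈ D, t ≤ Qf e Y Z j), ∏ t ∈ D, ηf j t :=
      prod_le_prod (fun _ _ => by positivity) hG
    rw [prod_mul_distrib, prod_const, card_range, ← Real.exp_sum] at hprod
    have hlow : ∑ j, ∑ l ∈ PJ M0 e Y Z j, wt L S (AJ e j) l / l - r * (n ^ 2 * K2) ≤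
        ∑ j ∈ range (Fintype.card K), ∑ l ∈ Pf j, ηf j l := by
      rw [Finset.sum_range]
      have e0 : (r : ℝ) * (n ^ 2 * K2) = ∑ j : Fin (Fintype.card K), (n : ℝ) ^ 2 * K2 := by
        rw [Finset.sum_const, Finset.card_univ, Fintype.card_fin, nsmul_eq_mul, hr]
      rw [e0, ← Finset.sum_sub_distrib]
      refine Finset.sum_le_sum fun j _ => ?_
      have hPfj : Pf (j : ℕ) = (PJ M0 e Y Z j).filter (fun l => 0 < ηf j l) := hPf j j.2
      have hAfj : Af e (j : ℕ) = AJ e j := hAf j j.2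
      rw [hPfj]
      have e1 : ∑ l ∈ PJ M0 e Y Z j, ηf j l ≤
          ∑ l ∈ (PJ M0 e Y Z j).filter (fun l => 0 < ηf j l), ηf j l := by
        rw [Finset.sum_filter]
        refine Finset.sum_le_sum fun l _ => ?_
        split_ifs with h
        · exact le_rfl
        · exact not_lt.1 h
      have e2 : ∑ l ∈ PJ M0 e Y Z j, ηf j l = ∑ l ∈ PJ M0 e Y Z j, wt L S (AJ e j) l / l -
          ∑ l ∈ PJ M0 e Y Z j, (nA L (AJ e j) : ℝ) ^ 2 / (l : ℝ) ^ 2 := by
        simp only [ηf]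
        rw [Finset.sum_sub_distrib, hAfj]
      have e3 : ∑ l ∈ PJ M0 e Y Z j, (nA L (AJ e j) : ℝ) ^ 2 / (l : ℝ) ^ 2 ≤ n ^ 2 * K2 := by
        have : ∑ l ∈ PJ M0 e Y Z j, (nA L (AJ e j) : ℝ) ^ 2 / (l : ℝ) ^ 2 =
            (nA L (AJ e j) : ℝ) ^ 2 * ∑ l ∈ PJ M0 e Y Z j, 1 / (l : ℝ) ^ 2 := by
          rw [Finset.mul_sum]; exact Finset.sum_congr rfl fun l _ => by ring
        rw [this]
        have e4 : (nA L (AJ e j) : ℝ) ≤ n := by exact_mod_cast nA_le L (AJ e j)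
        exact mul_le_mul (pow_le_pow_left₀ (Nat.cast_nonneg _) e4 2)
          (hsumm.sum_le_tsum _ fun n _ => by positivity)
          (Finset.sum_nonneg fun _ _ => by positivity) (by positivity)
      linarith
    obtain ⟨V, hVdef⟩ : ∃ V : ℝ, V = ∏ k, Y k ^ Module.finrank ℚ (L k) := ⟨_, rfl⟩
    set M : ℝ := (((box Y T).ncard : ℕ) : ℝ) with hM
    have hM0' : 0 ≤ M := Nat.cast_nonneg _
    obtain ⟨X1, hX1⟩ : ∃ X1 : ℝ, X1 = ∑ j, ∑ l ∈ PJ M0 e Y Z j, wt L S (AJ e j) l / l := ⟨_, rfl⟩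
    obtain ⟨X2, hX2⟩ : ∃ X2 : ℝ, X2 = (r : ℝ) * (n ^ 2 * K2) := ⟨_, rfl⟩
    rw [← hX1, ← hX2] at hlow
    have hres2 := hres.2
    rw [← hVdef] at hres2
    rw [← hX1, ← hX2, ← hVdef]
    have h5 : M * (c2 ^ r * Real.exp (X1 - X2)) ≤ Cs * V := by
      refine le_trans (mul_le_mul_of_nonneg_left ?_ hM0') hres2
      refine le_trans ?_ hprod
      rw [← hr]
      exact mul_le_mul_of_nonneg_left (Real.exp_le_exp.2 (by rw [hr]; exact hlow)) (by positivity)
    have h6 : Cs / c2 ^ r * Real.exp X2 * V * Real.exp (-X1) =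
        Cs * V / (c2 ^ r * Real.exp (X1 - X2)) := by
      rw [Real.exp_sub, Real.exp_neg]
      field_simp
    rw [h6, le_div_iff₀ (by positivity)]
    exact h5
  · -- A decreasing
    intro j
    by_cases h : j + 1 < Fintype.card K
    · rw [hAf _ h, hAf j (by omega)]
      unfold AJ
      intro k hk
      rw [mem_filter] at hk ⊢
      refine ⟨hk.1, le_trans ?_ hk.2⟩
      rw [Fin.le_def]
      simp only
      omega
    · unfold Af
      rw [dif_neg h]
      exact Finset.empty_subset _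
  · -- primes
    intro j hj t ht
    rw [hPf j hj, mem_filter] at ht
    refine ⟨(hPJ _ t ht.1).1, ?_, ht.2⟩
    have h5 := prodQ e Y Z hr0 hZ1 hY (range j) (Finset.range_subset_range.2 hj.le)
      (y0 e Y Z ⟨j, hj⟩) (one_le_y0 e Y Z hZ1 hY _) (fun i hi => yy_le_y0 e Y Z hmon (by
        rw [Fin.lt_def]
        exact mem_range.1 hi))
    have h6 : y0 e Y Z ⟨j, hj⟩ ^ ((1 : ℝ) / 4) ≤ y0 e Y Z ⟨j, hj⟩ := by
      calc _ ≤ y0 e Y Z ⟨j, hj⟩ ^ (1 : ℝ) :=
            Real.rpow_le_rpow_of_exponent_le (one_le_y0 e Y Z hZ1 hY _) (by norm_num)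
        _ = _ := Real.rpow_one _
    have h7 := (hy0l _ t ht.1).1
    have h8 : ((∏ j' ∈ range j, Qf e Y Z j' : ℕ) : ℝ) < t := by linarith
    exact_mod_cast h8
  · -- sizes
    intro k
    have h5 := prodQ e Y Z hr0 hZ1 hY
      ((range (Fintype.card K)).filter (fun j => k ∈ Af e j)) (Finset.filter_subset _ _)
      (yy e Y Z (e.symm k)) (one_le_yy e Y Z hZ1 hY _) (fun i hi => yy_mono e Y Z hmon (by
        rw [mem_filter, hAf _ i.2] at hi
        have := hi.2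
        unfold AJ at this
        rw [mem_filter] at this
        exact this.2))
    have h6 : yy e Y Z (e.symm k) ≤ Y k := by
      unfold yy
      rw [Equiv.apply_symm_apply]
      exact min_le_left _ _
    have h7 := one_le_yy e Y Z hZ1 hY (e.symm k)
    refine le_trans (pow_le_pow_left₀ (Nat.cast_nonneg _) h5 2) (le_trans ?_ h6)
    rw [← Real.rpow_natCast, ← Real.rpow_mul (by linarith)]
    calc _ ≤ yy e Y Z (e.symm k) ^ (1 : ℝ) :=
          Real.rpow_le_rpow_of_exponent_le h7 (by norm_num)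
      _ = _ := Real.rpow_one _
  · -- classes
    intro j hj t ht γ hγ
    rw [hPf j hj, mem_filter] at ht
    obtain ⟨htJ, hη⟩ := ht
    have htp := (hPJ _ t htJ).1
    have htM := (hy0l _ t htJ).2.2
    have ht0 : (0 : ℝ) < t := by exact_mod_cast htp.pos
    have hA := hAf j hj
    have htB : ¬ t ∣ B := fun h => by
      have := Nat.le_of_dvd (Nat.pos_of_ne_zero hB) h
      omega
    have htB0 : ¬ t ∣ B0 := fun h => by
      have := Nat.le_of_dvd (Nat.pos_of_ne_zero hB0) h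
      omega
    obtain ⟨ty1, ty2, ty3⟩ := hT t htp htB
    have hsub : box Y T ⊆ T := fun β hβ => hβ.1
    have h3' : 3 ≤ nA L (Af e j) := by
      refine h3.trans (nA_mono L ?_)
      intro k hk
      rw [mem_filter] at hk
      by_contra hcon
      rw [hA] at hcon
      have h8 := hout _ t htJ k hcon
      have h9 := hPAj _ t htJ
      linarith [hk.2]
    have hγu : ∀ u : PL L t, u.1 ∉ Af e j → ¬ In γ u := by
      intro u hu
      rw [hA] at hu
      have h8 := hout _ t htJ u.1 hu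
      refine not_mem htp u.2 (γ u.1) (hT0 γ hγ.1 u.1) (hγ.2 u.1) ?_
      have h9 := hdeg u.1
      calc Y u.1 ^ Module.finrank ℚ (L u.1) ≤
            y0 e Y Z ⟨j, hj⟩ ^ Module.finrank ℚ (L u.1) :=
            pow_le_pow_left₀ (by linarith [hY u.1]) h8 _
        _ ≤ y0 e Y Z ⟨j, hj⟩ ^ M0 :=
            pow_le_pow_right₀ (one_le_y0 e Y Z hZ1 hY _) (by omega)
        _ < t := (hy0l _ t htJ).2.1
    have h10 := h2 K L hev hn (Af e j) h3' t htp (by omega) (hram t htp htB0) (box Y T)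
      (fun β hβ => ty1 β (hsub hβ)) (fun β hβ β' hβ' => ty2 β (hsub hβ) β' (hsub hβ')) γ hγ hγu
    by_cases htS : t ∈ S
    · refine h10.1.trans (le_of_eq ?_)
      simp only [ηf, wt]
      rw [if_pos htS]
      ring
    · refine (h10.2 fun β hβ => ty3 htS β (hsub hβ)).trans (le_of_eq ?_)
      simp only [ηf, wt]
      rw [if_neg htS]
      ring

/-- **EN-COREA** -/
theorem main (h1 : S_NS) (h2 : S_CNTR) : S_COREA :=
  core h1 h2 Pool.Agent.Q91.EL.sums Pool.Agent.Q91.EL.ram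

end Pool.Agent.H11.EN.COREA
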