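import Mathlib
import Pool.Agent.H11.EN.Stm
import Pool.Agent.H11.V.R_pool_sql_team_seeded_3997aac3_Q247_EL_M1
import Pool.Agent.H11.V.R_pool_sql_team_seeded_3997aac3_Q91_EL_Small
import Pool.Agent.H11.V.R_seed8_Erdos456_Mertens

/-! Project EN: the sum of the weights (stub COREB). -/

set_option autoImplicit false

namespace Pool.Agent.H11.EN.COREB

open Polynomial NumberField IsDedekindDomain Finset Filter Topology
open Pool.Agent.Q51.EL (Abv Par N1 pr Setup hom)
open Pool.Agent.H11.EM (PL In Ty1 Ty2 box cls dg NN tau)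
open Pool.Agent.H11.EC (SR SQ)

theorem mem_pr {Y : ℝ} (hY : 0 ≤ Y) {l : ℕ} : l ∈ pr Y ↔ l.Prime ∧ (l : ℝ) ≤ Y := by
  unfold pr
  rw [mem_filter, mem_Icc, Nat.le_floor_iff hY]
  constructor
  · rintro ⟨⟨_, h1⟩, h2⟩
    exact ⟨h2, h1⟩
  · rintro ⟨h1, h2⟩
    exact ⟨⟨h1.one_le, h2⟩, h1⟩

theorem prime_of_mem {Y : ℝ} {l : ℕ} (h : l ∈ pr Y) : l.Prime := by
  unfold pr at h
  exact (mem_filter.1 h).2

theorem log3 : 1 < Real.log 3 := by
  rw [Real.lt_log_iff_exp_lt (by norm_num)]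
  exact Real.exp_one_lt_d9.trans (by norm_num)

/-- the primes between powers -/
theorem gap (M0 r : ℕ) (hM : 1 ≤ M0) (hr : 1 ≤ r) : ∃ B : ℝ, 0 ≤ B ∧ ∀ y : ℝ, 1 ≤ y →
    ∑ l ∈ (pr ((M0 : ℝ) * y ^ M0)).filter (fun l : ℕ => y ^ ((1 : ℝ) / (4 * r)) < l), (1 : ℝ) / l ≤ B := by
  obtain ⟨C, hC⟩ := Pool.Agent.Erdos456.Mert.mertens_inv
  have hC0 : 0 ≤ C := (abs_nonneg _).trans (hC 3 le_rfl)
  have hM' : (1 : ℝ) ≤ M0 := by exact_mod_cast hM
  have hr' : (1 : ℝ) ≤ r := by exact_mod_cast hr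
  set K : ℝ := 2 * (M0 + 4 * r * M0) with hK
  have hK1 : 1 ≤ K := by rw [hK]; nlinarith
  set N0 : ℝ := M0 * ((3 : ℝ) ^ (4 * r)) ^ M0 with hN0
  have hN00 : 0 ≤ N0 := by positivity
  refine ⟨N0 + (Real.log K + 2 * C), by have := Real.log_nonneg hK1; positivity, fun y hy => ?_⟩
  have hy0 : (0 : ℝ) < y := by linarith
  set α : ℝ := y ^ ((1 : ℝ) / (4 * r)) with hα
  have hα1 : 1 ≤ α := Real.one_le_rpow hy (by positivity)
  have hαy : α ^ (4 * r) = y := by
    rw [hα, ← Real.rpow_natCast, ← Real.rpow_mul hy0.le]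
    have : (1 : ℝ) / (4 * r) * ((4 * r : ℕ) : ℝ) = 1 := by
      push_cast
      field_simp
    rw [this, Real.rpow_one]
  have hbig : 0 ≤ (M0 : ℝ) * y ^ M0 := by positivity
  have hlK := Real.log_nonneg hK1
  by_cases h3 : α < 3
  · have h1 : y ≤ (3 : ℝ) ^ (4 * r) := by
      rw [← hαy]
      exact pow_le_pow_left₀ (by linarith) h3.le _
    have h2 : (M0 : ℝ) * y ^ M0 ≤ N0 := by
      rw [hN0]
      exact mul_le_mul_of_nonneg_left (pow_le_pow_left₀ hy0.le h1 _) (by positivity)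
    have h4 : ∑ l ∈ (pr ((M0 : ℝ) * y ^ M0)).filter (fun l : ℕ => α < l), (1 : ℝ) / l ≤
        ∑ l ∈ Icc 1 ⌊(M0 : ℝ) * y ^ M0⌋₊, (1 : ℝ) := by
      refine le_trans (sum_le_sum_of_subset_of_nonneg (?_ : _ ⊆ Icc 1 ⌊(M0 : ℝ) * y ^ M0⌋₊)
        (fun l _ _ => by positivity)) (sum_le_sum fun l hl => ?_)
      · intro l hl
        unfold pr at hl
        exact (mem_filter.1 (mem_filter.1 hl).1).1
      · rw [mem_Icc] at hl
        have : (1 : ℝ) ≤ l := by exact_mod_cast hl.1
        rw [div_le_one (by linarith)]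
        exact this
    rw [sum_const, Nat.card_Icc, nsmul_eq_mul, mul_one, Nat.add_sub_cancel] at h4
    have h5 := Nat.floor_le hbig
    linarith
  · push Not at h3
    set N : ℕ := ⌊(M0 : ℝ) * y ^ M0⌋₊ with hN
    set n : ℕ := ⌊α⌋₊ with hn
    have hn3 : 3 ≤ n := Nat.le_floor (by exact_mod_cast h3)
    have hn3' : (3 : ℝ) ≤ n := by exact_mod_cast hn3
    have hαy' : α ≤ y := by
      rw [← hαy]
      exact le_self_pow₀ hα1 (by omega)
    have hyM : y ≤ (M0 : ℝ) * y ^ M0 := by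
      have h1 : y ≤ y ^ M0 := le_self_pow₀ hy (by omega)
      have h2 : 0 ≤ y ^ M0 := by positivity
      nlinarith
    have hnN : n ≤ N := Nat.floor_le_floor (hαy'.trans hyM)
    have hN3 : 3 ≤ N := hn3.trans hnN
    have hN3' : (3 : ℝ) ≤ N := by exact_mod_cast hN3
    have e1 := sum_filter_add_sum_filter_not (pr ((M0 : ℝ) * y ^ M0)) (fun l : ℕ => α < l)
      (fun l => (1 : ℝ) / l)
    have e2 : (pr ((M0 : ℝ) * y ^ M0)).filter (fun l : ℕ => ¬ α < l) =
        (Icc 1 n).filter Nat.Prime := by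
      ext l
      rw [mem_filter, mem_filter, mem_Icc, not_lt, Nat.le_floor_iff (by linarith), mem_pr hbig]
      constructor
      · rintro ⟨⟨h1, _⟩, h2⟩
        exact ⟨⟨h1.one_le, h2⟩, h1⟩
      · rintro ⟨⟨_, h1⟩, h2⟩
        exact ⟨⟨h2, h1.trans (hαy'.trans hyM)⟩, h1⟩
    have e3 := (abs_le.1 (hC N hN3)).2
    have e4 := (abs_le.1 (hC n hn3)).1
    have e5 : pr ((M0 : ℝ) * y ^ M0) = (Icc 1 N).filter Nat.Prime := rfl
    rw [e2, e5] at e1
    rw [e5]
    have hlogα : 1 ≤ Real.log α := log3.le.trans (Real.log_le_log (by norm_num) h3)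
    have hlogn : 1 < Real.log n := log3.trans_le (Real.log_le_log (by norm_num) hn3')
    have hlogN : 1 < Real.log N := log3.trans_le (Real.log_le_log (by norm_num) hN3')
    have h6 : Real.log α ≤ 2 * Real.log n := by
      have h7 : α ≤ (n : ℝ) ^ 2 := by
        have := (Nat.lt_floor_add_one α).le
        nlinarith
      have := Real.log_le_log (by linarith) h7
      rw [Real.log_pow] at this
      exact_mod_cast this
    have h7 : Real.log N ≤ K * Real.log n := by
      have h8 : Real.log N ≤ Real.log (M0 * y ^ M0) :=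
        Real.log_le_log (by linarith) (Nat.floor_le hbig)
      rw [Real.log_mul (by linarith) (by positivity), Real.log_pow] at h8
      have h9 : Real.log y = 4 * r * Real.log α := by
        rw [← hαy, Real.log_pow]
        push_cast
        ring
      have h10 : Real.log M0 ≤ M0 := by
        have := Real.log_le_sub_one_of_pos (show (0 : ℝ) < M0 by linarith)
        linarith
      rw [h9] at h8
      have h11 : Real.log N ≤ (M0 + 4 * r * M0) * Real.log α := by nlinarith
      calc Real.log N ≤ (M0 + 4 * r * M0) * Real.log α := h11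
        _ ≤ (M0 + 4 * r * M0) * (2 * Real.log n) :=
            mul_le_mul_of_nonneg_left h6 (by positivity)
        _ = K * Real.log n := by rw [hK]; ring
    have h8 : Real.log (Real.log N) ≤ Real.log K + Real.log (Real.log n) := by
      rw [← Real.log_mul (by linarith) (by linarith)]
      exact Real.log_le_log (by linarith) h7
    linarith

/-- lower bound for the sum over the primes of degree one -/
theorem low (F : Type) [Field F] [NumberField F] : ∃ C : ℝ, ∀ y : ℝ, 1 ≤ y →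
    Real.log (1 + Real.log y) - C ≤ ∑ l ∈ pr y, (N1 F l : ℝ) / l := by
  obtain ⟨M, hM0, hM⟩ := Q282.NF.nu_sum F
  refine ⟨M + Real.log 4, fun y hy => ?_⟩
  have hpos : 0 ≤ ∑ l ∈ pr y, (N1 F l : ℝ) / l := sum_nonneg fun l _ => by positivity
  have hlog0 : 0 ≤ Real.log y := Real.log_nonneg hy
  by_cases h3 : y < 3
  · have h1 : Real.log y ≤ 2 := by
      have := Real.log_le_sub_one_of_pos (show (0 : ℝ) < y by linarith)
      linarith
    have h2 : Real.log (1 + Real.log y) ≤ Real.log 4 :=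
      Real.log_le_log (by linarith) (by linarith)
    linarith
  · push Not at h3
    have hfl : 3 ≤ ⌊y⌋₊ := Nat.le_floor (by exact_mod_cast h3)
    have h1 := hM ⌊y⌋₊ hfl
    have h2 : ∑ l ∈ pr y, (N1 F l : ℝ) / l = ∑ p ∈ Q282.BP.PP ⌊y⌋₊, Q282.NF.nu F p / p := by
      unfold pr Q282.BP.PP
      refine sum_congr rfl fun p hp => ?_
      rw [Pool.Agent.Q247.EL.N1_nu F p (mem_filter.1 hp).2]
    rw [h2]
    have h4 := (abs_le.1 h1).1
    have hfl' : (3 : ℝ) ≤ (⌊y⌋₊ : ℝ) := by exact_mod_cast hfl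
    have hl1 : 1 < Real.log ⌊y⌋₊ := log3.trans_le (Real.log_le_log (by norm_num) hfl')
    have hl2 : Real.log y ≤ 2 * Real.log ⌊y⌋₊ := by
      have hY2 : y < (⌊y⌋₊ : ℝ) + 1 := Nat.lt_floor_add_one y
      have : Real.log y ≤ Real.log ((⌊y⌋₊ : ℝ) ^ 2) := Real.log_le_log (by linarith) (by nlinarith)
      rw [Real.log_pow] at this
      exact_mod_cast this
    have h5 : Real.log (1 + Real.log y) ≤ Real.log 4 + Real.log (Real.log ⌊y⌋₊) := by
      rw [← Real.log_mul (by norm_num) (by linarith)]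
      exact Real.log_le_log (by linarith) (by linarith)
    linarith

section
variable {K : Type} [Fintype K] (M0 : ℕ) (e : Fin (Fintype.card K) ≃ K) (Y : K → ℝ) (Z : ℝ)

theorem one_le_yy (hZ : 3 ≤ Z) (hY : ∀ k, 1 ≤ Y k) (j : Fin (Fintype.card K)) :
    1 ≤ yy e Y Z j := le_min (hY _) (by linarith)

theorem yy_mono (hm : Monotone (fun j => Y (e j))) {i j : Fin (Fintype.card K)} (h : i ≤ j) :
    yy e Y Z i ≤ yy e Y Z j := min_le_min_right _ (hm h)

/-- the gaps -/
noncomputable def gp (j : Fin (Fintype.card K)) : Finset ℕ :=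
  (pr ((M0 : ℝ) * yy e Y Z j ^ M0)).filter
    (fun l => yy e Y Z j ^ ((1 : ℝ) / (4 * Fintype.card K)) < l)

theorem cover (hZ : 3 ≤ Z) (hY : ∀ k, 1 ≤ Y k) (hM : 1 ≤ M0) (i : Fin (Fintype.card K)) (l : ℕ)
    (hl : l ∈ pr (yy e Y Z i)) (hlM : M0 < l) :
    ∃ j ≤ i, l ∈ PJ M0 e Y Z j ∨ l ∈ gp M0 e Y Z j := by
  classical
  have h1 := one_le_yy e Y Z hZ hY
  have hM' : (1 : ℝ) ≤ M0 := by exact_mod_cast hM
  have hex : ∃ n : ℕ, ∃ h : n < Fintype.card K, (l : ℝ) ≤ M0 * yy e Y Z ⟨n, h⟩ ^ M0 := by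
    refine ⟨i.1, i.2, ?_⟩
    have h2 := ((mem_pr (by linarith [h1 i])).1 hl).2
    refine h2.trans ?_
    have h3 : yy e Y Z i ≤ yy e Y Z i ^ M0 := le_self_pow₀ (h1 i) (by omega)
    have h4 := h1 i
    change yy e Y Z i ≤ M0 * yy e Y Z i ^ M0
    nlinarith
  obtain ⟨hn, hln⟩ := Nat.find_spec hex
  set n := Nat.find hex with hndef
  have hni : n ≤ i.1 := Nat.find_min' hex (by
    refine ⟨i.2, ?_⟩
    have h2 := ((mem_pr (by linarith [h1 i])).1 hl).2
    refine h2.trans ?_
    have h3 : yy e Y Z i ≤ yy e Y Z i ^ M0 := le_self_pow₀ (h1 i) (by omega)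
    have h4 := h1 i
    change yy e Y Z i ≤ M0 * yy e Y Z i ^ M0
    nlinarith)
  refine ⟨⟨n, hn⟩, hni, ?_⟩
  have hyn := h1 ⟨n, hn⟩
  by_cases h5 : yy e Y Z ⟨n, hn⟩ ^ ((1 : ℝ) / (4 * Fintype.card K)) < l
  · right
    unfold gp
    rw [mem_filter, mem_pr (by positivity)]
    exact ⟨⟨prime_of_mem hl, hln⟩, h5⟩
  · left
    push Not at h5
    unfold PJ
    rw [mem_filter, mem_pr (by positivity)]
    refine ⟨⟨prime_of_mem hl, h5⟩, ?_⟩
    unfold y0
    split_ifs with h6
    · by_contra h7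
      push Not at h7
      have h6' : 0 < n := h6
      exact Nat.find_min hex (show n - 1 < Nat.find hex by omega) ⟨by omega, h7⟩
    · rw [one_pow, mul_one]
      exact_mod_cast hlM

theorem sum_low (hZ : 3 ≤ Z) (hY : ∀ k, 1 ≤ Y k) (hM : 1 ≤ M0) (B : ℝ)
    (hB : ∀ y : ℝ, 1 ≤ y → ∑ l ∈ (pr ((M0 : ℝ) * y ^ M0)).filter
      (fun l : ℕ => y ^ ((1 : ℝ) / (4 * Fintype.card K)) < l), (1 : ℝ) / l ≤ B) (hB0 : 0 ≤ B)
    (f : ℕ → ℝ) (D : ℝ) (hD : 0 ≤ D) (hf0 : ∀ l, 0 ≤ f l) (hf : ∀ l : ℕ, l.Prime → f l ≤ D * (1 / l))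
    (i : Fin (Fintype.card K)) :
    ∑ l ∈ pr (yy e Y Z i), f l ≤
      ∑ j ∈ univ.filter (fun j => j ≤ i), ∑ l ∈ PJ M0 e Y Z j, f l +
        D * (M0 + Fintype.card K * B) := by
  classical
  have h1 := one_le_yy e Y Z hZ hY
  have hpt : ∀ l ∈ pr (yy e Y Z i), f l ≤ (if l ≤ M0 then f l else 0) +
      ∑ j ∈ univ.filter (fun j => j ≤ i), ((if l ∈ PJ M0 e Y Z j then f l else 0) +
        (if l ∈ gp M0 e Y Z j then f l else 0)) := by
    intro l hl
    have hnn : ∀ (q : Prop) [Decidable q], 0 ≤ (if q then f l else 0) := by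
      intro q _
      split_ifs
      · exact hf0 l
      · exact le_rfl
    have hs : ∀ j ∈ univ.filter (fun j => j ≤ i), 0 ≤ ((if l ∈ PJ M0 e Y Z j then f l else 0) +
        (if l ∈ gp M0 e Y Z j then f l else 0)) := fun j _ => add_nonneg (hnn _) (hnn _)
    by_cases h2 : l ≤ M0
    · rw [if_pos h2]
      have := sum_nonneg hs
      linarith
    · rw [if_neg h2, zero_add]
      obtain ⟨j, hj, hj'⟩ := cover M0 e Y Z hZ hY hM i l hl (by omega)
      have h3 := single_le_sum hs (mem_filter.2 ⟨mem_univ j, hj⟩)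
      refine le_trans ?_ h3
      rcases hj' with h4 | h4
      · rw [if_pos h4]
        have := hnn (l ∈ gp M0 e Y Z j)
        linarith
      · rw [if_pos h4]
        have := hnn (l ∈ PJ M0 e Y Z j)
        linarith
  refine (sum_le_sum hpt).trans ?_
  rw [sum_add_distrib, sum_comm]
  have hA : ∑ l ∈ pr (yy e Y Z i), (if l ≤ M0 then f l else 0) ≤ D * M0 := by
    rw [← sum_filter]
    have h2 : ∑ l ∈ (pr (yy e Y Z i)).filter (fun l => l ≤ M0), f l ≤
        ∑ l ∈ Icc 1 M0, D := by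
      have h3 : ∑ l ∈ (pr (yy e Y Z i)).filter (fun l => l ≤ M0), f l ≤
          ∑ l ∈ (pr (yy e Y Z i)).filter (fun l => l ≤ M0), D := by
        refine sum_le_sum fun l hl => ?_
        have h4 := prime_of_mem (mem_filter.1 hl).1
        refine (hf l h4).trans ?_
        have h5 : (1 : ℝ) / l ≤ 1 := by
          have : (1 : ℝ) ≤ l := by exact_mod_cast h4.one_le
          rw [div_le_one (by linarith)]
          exact this
        nlinarith
      refine h3.trans (sum_le_sum_of_subset_of_nonneg ?_ (fun _ _ _ => hD))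
      intro l hl
      rw [mem_filter] at hl
      rw [mem_Icc]
      exact ⟨(prime_of_mem hl.1).one_le, hl.2⟩
    rw [sum_const, Nat.card_Icc, nsmul_eq_mul, Nat.add_sub_cancel] at h2
    linarith
  have hBj : ∀ j ∈ univ.filter (fun j : Fin (Fintype.card K) => j ≤ i),
      ∑ l ∈ pr (yy e Y Z i), ((if l ∈ PJ M0 e Y Z j then f l else 0) +
        (if l ∈ gp M0 e Y Z j then f l else 0)) ≤ ∑ l ∈ PJ M0 e Y Z j, f l + D * B := by
    intro j _
    rw [sum_add_distrib, ← sum_filter, ← sum_filter]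
    refine add_le_add ?_ ?_
    · refine sum_le_sum_of_subset_of_nonneg ?_ (fun _ _ _ => hf0 _)
      intro l hl
      exact (mem_filter.1 hl).2
    · have h2 : ∑ l ∈ (pr (yy e Y Z i)).filter (fun l => l ∈ gp M0 e Y Z j), f l ≤
          ∑ l ∈ gp M0 e Y Z j, f l := by
        refine sum_le_sum_of_subset_of_nonneg ?_ (fun _ _ _ => hf0 _)
        intro l hl
        exact (mem_filter.1 hl).2
      refine h2.trans ?_
      have h3 : ∑ l ∈ gp M0 e Y Z j, f l ≤ ∑ l ∈ gp M0 e Y Z j, D * (1 / l) := by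
        refine sum_le_sum fun l hl => hf l ?_
        unfold gp at hl
        exact prime_of_mem (mem_filter.1 hl).1
      refine h3.trans ?_
      rw [← mul_sum]
      exact mul_le_mul_of_nonneg_left (hB _ (h1 j)) hD
  have hC := sum_le_sum hBj
  rw [sum_add_distrib] at hC
  have hE : ∑ _j ∈ univ.filter (fun j : Fin (Fintype.card K) => j ≤ i), D * B ≤
      D * (Fintype.card K * B) := by
    rw [sum_const, nsmul_eq_mul]
    have h2 : ((univ.filter (fun j : Fin (Fintype.card K) => j ≤ i)).card : ℝ) ≤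
        Fintype.card K := by
      have := card_le_univ (univ.filter (fun j : Fin (Fintype.card K) => j ≤ i))
      rw [Fintype.card_fin] at this
      exact_mod_cast this
    have h3 := mul_le_mul_of_nonneg_right h2 (mul_nonneg hD hB0)
    linarith
  rw [mul_add]
  linarith

theorem PJ_lt (hZ : 3 ≤ Z) (hY : ∀ k, 1 ≤ Y k) (hM : 1 ≤ M0)
    (hm : Monotone (fun j => Y (e j))) {i j : Fin (Fintype.card K)} (hij : i < j) {l l' : ℕ}
    (hl : l ∈ PJ M0 e Y Z i) (hl' : l' ∈ PJ M0 e Y Z j) : l < l' := by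
  have h1 := one_le_yy e Y Z hZ hY
  have hM' : (1 : ℝ) ≤ M0 := by exact_mod_cast hM
  unfold PJ at hl hl'
  rw [mem_filter] at hl hl'
  have hi := h1 i
  have h2 := ((mem_pr (by positivity)).1 hl.1).2
  have h3 := hl'.2
  have hj0 : 0 < j.1 := lt_of_le_of_lt (Nat.zero_le _) hij
  unfold y0 at h3
  rw [dif_pos hj0] at h3
  have h4 : yy e Y Z i ≤ yy e Y Z ⟨j.1 - 1, by omega⟩ := by
    apply yy_mono e Y Z hm
    rw [Fin.le_def]
    have : i.1 < j.1 := hij
    change i.1 ≤ j.1 - 1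
    omega
  have h5 : yy e Y Z i ^ ((1 : ℝ) / (4 * Fintype.card K)) ≤ yy e Y Z i := by
    have hcard : (1 : ℝ) ≤ Fintype.card K := by
      have : 0 < Fintype.card K := lt_of_le_of_lt (Nat.zero_le _) i.2
      exact_mod_cast this
    calc _ ≤ yy e Y Z i ^ (1 : ℝ) := by
          apply Real.rpow_le_rpow_of_exponent_le hi
          rw [div_le_one (by positivity)]
          linarith
      _ = _ := Real.rpow_one _
  set w := yy e Y Z ⟨j.1 - 1, by omega⟩ with hw
  have hw1 : 1 ≤ w := h1 _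
  have h6 : w ≤ M0 * w ^ M0 := by
    have h7 : w ≤ w ^ M0 := le_self_pow₀ hw1 (by omega)
    nlinarith
  have h7 : (l : ℝ) < l' := by linarith
  exact_mod_cast h7

theorem PJ_sub (hZ : 3 ≤ Z) (hY : ∀ k, 1 ≤ Y k) (j : Fin (Fintype.card K)) :
    PJ M0 e Y Z j ⊆ pr Z := by
  intro l hl
  have h1 := one_le_yy e Y Z hZ hY j
  unfold PJ at hl
  rw [mem_filter, mem_pr (by positivity)] at hl
  rw [mem_pr (by linarith)]
  refine ⟨hl.1.1, hl.1.2.trans ?_⟩
  have hcard : (1 : ℝ) ≤ Fintype.card K := by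
    have : 0 < Fintype.card K := lt_of_le_of_lt (Nat.zero_le _) j.2
    exact_mod_cast this
  calc yy e Y Z j ^ ((1 : ℝ) / (4 * Fintype.card K)) ≤ yy e Y Z j ^ (1 : ℝ) := by
        apply Real.rpow_le_rpow_of_exponent_le h1
        rw [div_le_one (by positivity)]
        linarith
    _ = yy e Y Z j := Real.rpow_one _
    _ ≤ Z := min_le_right _ _

end

theorem main : S_COREB := by
  classical
  intro K _ _ _ L _ _ S M0 hM hyp
  obtain ⟨c, C, hc, hcC⟩ := hyp
  have hr : 1 ≤ Fintype.card K := Fintype.card_pos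
  obtain ⟨B, hB0, hB⟩ := gap M0 (Fintype.card K) hM hr
  have hlow := fun k => low (L k)
  choose Ck hCk using hlow
  set CB : ℝ := M0 + Fintype.card K * B with hCB
  have hCB0 : 0 ≤ CB := by positivity
  set C' : ℝ := ∑ k, (Ck k + Module.finrank ℚ (L k) * CB) +
    (|C| + c * Real.log 2 + CB) with hC'
  refine ⟨c / 4, C', by positivity, ?_⟩
  intro Z Y e hZ hY hm hex
  have h1 := one_le_yy e Y Z hZ hY
  -- lower bound of the weights
  have hwt : ∀ j, ∀ l ∈ PJ M0 e Y Z j,
      ((NA L (AJ e j) l : ℝ) / l - (if l ∈ S then (1 : ℝ) / l else 0) +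
        (1 / 4) * (if NN L l = dg L ∧ l ∈ S then (1 : ℝ) / l else 0)) ≤
      wt L S (AJ e j) l / l := by
    intro j l hl
    have hlp : l.Prime := by
      unfold PJ at hl
      exact prime_of_mem (mem_filter.1 hl).1
    have hl0 : (0 : ℝ) < l := by exact_mod_cast hlp.pos
    rw [le_div_iff₀ hl0]
    unfold wt tauR
    have e1 : (NA L (AJ e j) l : ℝ) / l * l = NA L (AJ e j) l := by field_simp
    have e2 : (1 : ℝ) / l * l = 1 := by field_simp
    by_cases hS : l ∈ S
    · simp only [hS, if_true, and_true]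
      by_cases hN : NN L l = dg L
      · simp only [hN, if_true]
        rw [add_mul, sub_mul, e1, e2, mul_assoc, e2]
        split_ifs <;> linarith
      · simp only [hN, if_false]
        rw [add_mul, sub_mul, e1, e2]
        split_ifs <;> linarith
    · simp only [hS, if_false, and_false]
      rw [add_mul, sub_mul, e1]
      linarith
  have hsum : ∑ j, ∑ l ∈ PJ M0 e Y Z j,
      ((NA L (AJ e j) l : ℝ) / l - (if l ∈ S then (1 : ℝ) / l else 0) +
        (1 / 4) * (if NN L l = dg L ∧ l ∈ S then (1 : ℝ) / l else 0)) ≤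
      ∑ j, ∑ l ∈ PJ M0 e Y Z j, wt L S (AJ e j) l / l :=
    sum_le_sum fun j _ => sum_le_sum fun l hl => hwt j l hl
  refine le_trans ?_ hsum
  simp only [sum_add_distrib, sum_sub_distrib, ← mul_sum]
  -- first sum
  have hS1 : ∑ k, Real.log (1 + Real.log (min (Y k) Z)) -
      ∑ k, (Ck k + Module.finrank ℚ (L k) * CB) ≤
      ∑ j, ∑ l ∈ PJ M0 e Y Z j, (NA L (AJ e j) l : ℝ) / l := by
    have e1 : ∑ j, ∑ l ∈ PJ M0 e Y Z j, (NA L (AJ e j) l : ℝ) / l =
        ∑ i, ∑ j ∈ univ.filter (fun j => j ≤ i), ∑ l ∈ PJ M0 e Y Z j,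
          (N1 (L (e i)) l : ℝ) / l := by
      have e2 : ∀ j l, (NA L (AJ e j) l : ℝ) / l =
          ∑ i, (if j ≤ i then (N1 (L (e i)) l : ℝ) / l else 0) := by
        intro j l
        unfold NA AJ
        rw [Nat.cast_sum, sum_div, sum_filter, ← Equiv.sum_comp e]
        simp only [Equiv.symm_apply_apply]
      have e3 : ∀ i, ∑ j ∈ univ.filter (fun j => j ≤ i), ∑ l ∈ PJ M0 e Y Z j,
          (N1 (L (e i)) l : ℝ) / l =
          ∑ j, ∑ l ∈ PJ M0 e Y Z j, (if j ≤ i then (N1 (L (e i)) l : ℝ) / l else 0) := by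
        intro i
        rw [sum_filter]
        refine sum_congr rfl fun j _ => ?_
        split_ifs with h
        · rfl
        · rw [sum_const_zero]
      rw [sum_congr rfl fun i _ => e3 i, sum_comm]
      refine sum_congr rfl fun j _ => ?_
      rw [sum_comm]
      exact sum_congr rfl fun l _ => e2 j l
    rw [e1, ← Equiv.sum_comp e, ← Equiv.sum_comp e (fun k => Ck k + Module.finrank ℚ (L k) * CB),
      ← sum_sub_distrib]
    refine sum_le_sum fun i _ => ?_
    have h2 := hCk (e i) (yy e Y Z i) (h1 i)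
    have h3 := sum_low M0 e Y Z hZ hY hM B hB hB0 (fun l => (N1 (L (e i)) l : ℝ) / l)
      (Module.finrank ℚ (L (e i))) (Nat.cast_nonneg _) (fun l => by positivity)
      (fun l hl => by
        have h4 : (N1 (L (e i)) l : ℝ) ≤ Module.finrank ℚ (L (e i)) := by
          exact_mod_cast (Pool.Agent.Q91.EL.ram (L (e i))).2 l hl
        have h5 : (0 : ℝ) ≤ 1 / l := by positivity
        have h6 := mul_le_mul_of_nonneg_right h4 h5
        rw [mul_one_div] at h6
        exact h6) i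
    have h4 : yy e Y Z i = min (Y (e i)) Z := rfl
    rw [h4, ← hCB] at h3
    rw [h4] at h2
    linarith
  -- second sum
  have hS2 : ∑ j, ∑ l ∈ PJ M0 e Y Z j, (if l ∈ S then (1 : ℝ) / l else 0) ≤
      ∑ q ∈ (pr Z).filter (fun q => q ∈ S), (1 : ℝ) / q := by
    rw [sum_filter, ← sum_biUnion]
    · refine sum_le_sum_of_subset_of_nonneg ?_ (fun l _ _ => by split_ifs <;> positivity)
      intro l hl
      rw [mem_biUnion] at hl
      obtain ⟨j, _, hj⟩ := hl
      exact PJ_sub M0 e Y Z hZ hY j hj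
    · intro i _ j _ hij
      rw [Function.onFun, disjoint_left]
      intro l hl hl'
      rcases lt_or_gt_of_ne hij with h | h
      · exact absurd (PJ_lt M0 e Y Z hZ hY hM hm h hl hl') (lt_irrefl _)
      · exact absurd (PJ_lt M0 e Y Z hZ hY hM hm h hl' hl) (lt_irrefl _)
  -- third sum
  have hS3 : c * Real.log (1 + Real.log Z) - (|C| + c * Real.log 2 + CB) ≤
      ∑ j, ∑ l ∈ PJ M0 e Y Z j, (if NN L l = dg L ∧ l ∈ S then (1 : ℝ) / l else 0) := by
    set i0 : Fin (Fintype.card K) := ⟨Fintype.card K - 1, by omega⟩ with hi0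
    have hle : ∀ j : Fin (Fintype.card K), j ≤ i0 := by
      intro j
      rw [Fin.le_def]
      have := j.2
      change j.1 ≤ Fintype.card K - 1
      omega
    have hyy : yy e Y Z i0 = Z := by
      obtain ⟨k, hk⟩ := hex
      apply min_eq_right
      have h2 := hm (hle (e.symm k))
      simp only [Equiv.apply_symm_apply] at h2
      exact hk.trans h2
    have h3 := sum_low M0 e Y Z hZ hY hM B hB hB0
      (fun l => if NN L l = dg L ∧ l ∈ S then (1 : ℝ) / l else 0) 1 zero_le_one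
      (fun l => by split_ifs <;> positivity)
      (fun l hl => by
        split_ifs
        · rw [one_mul]
        · positivity) i0
    rw [hyy] at h3
    have h4 : univ.filter (fun j => j ≤ i0) = (univ : Finset (Fin (Fintype.card K))) := by
      rw [filter_true_of_mem]
      intro j _
      exact hle j
    rw [h4, ← sum_filter, one_mul] at h3
    have h5 := hcC Z hZ
    have hl1 : 1 < Real.log Z := log3.trans_le (Real.log_le_log (by norm_num) hZ)
    have h6 : Real.log (1 + Real.log Z) ≤ Real.log 2 + Real.log (Real.log Z) := by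
      rw [← Real.log_mul (by norm_num) (by linarith)]
      exact Real.log_le_log (by linarith) (by linarith)
    have h7 := mul_le_mul_of_nonneg_left h6 hc.le
    have h8 := le_abs_self C
    linarith
  have h9 : (1 / 4 : ℝ) * (c * Real.log (1 + Real.log Z) - (|C| + c * Real.log 2 + CB)) ≤
      1 / 4 * ∑ j, ∑ l ∈ PJ M0 e Y Z j, (if NN L l = dg L ∧ l ∈ S then (1 : ℝ) / l else 0) :=
    mul_le_mul_of_nonneg_left hS3 (by norm_num)
  have h10 : 0 ≤ |C| + c * Real.log 2 + CB := by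
    have := Real.log_nonneg (show (1 : ℝ) ≤ 2 by norm_num)
    positivity
  rw [hC']
  linarith

end Pool.Agent.H11.EN.COREB
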