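import Pool.Agent.H11.EN.Stm

/-! EN-DYAD: the sum over the dyadic boxes. -/

set_option autoImplicit false

namespace Pool.Agent.H11.EN.DYAD

open Finset

theorem harm_le (Λ : ℕ) : ∑ a ∈ range (Λ + 1), ((a : ℝ) + 1)⁻¹ ≤ 1 + Real.log (Λ + 1) := by
  have h := harmonic_le_one_add_log (Λ + 1)
  have h2 : ((harmonic (Λ + 1) : ℚ) : ℝ) = ∑ a ∈ range (Λ + 1), ((a : ℝ) + 1)⁻¹ := by
    simp [harmonic]
  rw [h2] at h
  push_cast at h
  exact h

theorem pow_sum_le (Λ : ℕ) : ∑ s ∈ range (Λ + 1), (2 : ℝ) ^ s / ((s : ℝ) + 1) ≤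
    4 * 2 ^ Λ / ((Λ : ℝ) + 1) := by
  rcases Nat.eq_zero_or_pos Λ with h0 | h0
  · subst h0
    norm_num
  · induction Λ, h0 using Nat.le_induction with
    | base =>
      rw [sum_range_succ, sum_range_succ]
      norm_num
    | succ n hn ih =>
      rw [sum_range_succ]
      refine (add_le_add_left ih _).trans ?_
      have hn' : (1 : ℝ) ≤ n := by exact_mod_cast hn
      rw [div_add_div _ _ (by positivity) (by positivity), div_le_div_iff₀ (by positivity)
        (by positivity)]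
      push_cast
      rw [pow_succ]
      have h2 : (0 : ℝ) < 2 ^ n := by positivity
      have h3 : 4 * 2 ^ n * ((n : ℝ) + 1 + 1) + (n + 1) * (2 ^ n * 2) ≤
        4 * (2 ^ n * 2) * ((n : ℝ) + 1) := by nlinarith
      calc _ ≤ 4 * (2 ^ n * 2) * ((n : ℝ) + 1) * ((n : ℝ) + 1 + 1) := by
            exact mul_le_mul_of_nonneg_right h3 (by positivity)
        _ = _ := by ring

theorem key (K : Type) [Fintype K] [DecidableEq K] (Λ : ℕ) (k0 : K) :
    ∑ j ∈ (Fintype.piFinset (fun _ : K => range (Λ + 1))).filter (fun j => ∑ k, j k ≤ Λ),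
      (2 : ℝ) ^ (∑ k, j k) / (((∑ k, j k : ℕ) : ℝ) + 1) *
        ∏ k, (if k = k0 then 1 else ((j k : ℝ) + 1)⁻¹) ≤
    (4 * 2 ^ Λ / ((Λ : ℝ) + 1)) * (1 + Real.log (Λ + 1)) ^ Fintype.card K := by
  set F := (Fintype.piFinset (fun _ : K => range (Λ + 1))).filter (fun j => ∑ k, j k ≤ Λ) with hF
  set G : Finset (K → ℕ) := Fintype.piFinset (fun k : K => if k = k0 then {0} else range (Λ + 1))
    with hG
  let f : ℕ × (K → ℕ) → ℝ := fun p => (2 : ℝ) ^ p.1 / ((p.1 : ℝ) + 1) *
        ∏ k, (if k = k0 then 1 else ((p.2 k : ℝ) + 1)⁻¹)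
  let m : (K → ℕ) → ℕ × (K → ℕ) := fun j => (∑ k, j k, Function.update j k0 0)
  have hfn : ∀ p, 0 ≤ f p := fun p => mul_nonneg (by positivity)
    (prod_nonneg fun k _ => by split_ifs <;> positivity)
  have hinj : Set.InjOn m F := by
    intro j _ j' _ h
    simp only [m, Prod.mk.injEq] at h
    obtain ⟨h1, h2⟩ := h
    have h3 : ∀ k, k ≠ k0 → j k = j' k := fun k hk => by
      have := congrFun h2 k
      simpa [Function.update_of_ne hk] using this
    have h4 : j k0 = j' k0 := by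
      have h5 : ∑ k ∈ univ.erase k0, j k = ∑ k ∈ univ.erase k0, j' k :=
        sum_congr rfl (fun k hk => h3 k (ne_of_mem_erase hk))
      have h6 : j k0 + ∑ k ∈ univ.erase k0, j k = ∑ k, j k := add_sum_erase univ j (mem_univ k0)
      have h7 : j' k0 + ∑ k ∈ univ.erase k0, j' k = ∑ k, j' k :=
        add_sum_erase univ j' (mem_univ k0)
      omega
    funext k
    by_cases hk : k = k0
    · rw [hk, h4]
    · exact h3 k hk
  have hmap : ∀ j ∈ F, m j ∈ range (Λ + 1) ×ˢ G := by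
    intro j hj
    rw [hF, mem_filter, Fintype.mem_piFinset] at hj
    simp only [m, mem_product, mem_range]
    refine ⟨by omega, ?_⟩
    rw [hG, Fintype.mem_piFinset]
    intro k
    by_cases hk : k = k0
    · subst hk
      simp
    · rw [if_neg hk, Function.update_of_ne hk]
      exact hj.1 k
  have hfm : ∀ j, f (m j) = (2 : ℝ) ^ (∑ k, j k) / (((∑ k, j k : ℕ) : ℝ) + 1) *
        ∏ k, (if k = k0 then 1 else ((j k : ℝ) + 1)⁻¹) := by
    intro j
    simp only [f, m]
    congr 1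
    refine prod_congr rfl (fun k _ => ?_)
    by_cases hk : k = k0
    · rw [if_pos hk, if_pos hk]
    · rw [if_neg hk, if_neg hk, Function.update_of_ne hk]
  calc _ = ∑ j ∈ F, f (m j) := sum_congr rfl (fun j _ => (hfm j).symm)
    _ = ∑ p ∈ F.image m, f p := (sum_image hinj).symm
    _ ≤ ∑ p ∈ range (Λ + 1) ×ˢ G, f p := by
        refine sum_le_sum_of_subset_of_nonneg ?_ (fun p _ _ => hfn p)
        intro p hp
        obtain ⟨j, hj, rfl⟩ := mem_image.1 hp
        exact hmap j hj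
    _ = (∑ s ∈ range (Λ + 1), (2 : ℝ) ^ s / ((s : ℝ) + 1)) *
          ∑ i ∈ G, ∏ k, (if k = k0 then 1 else ((i k : ℝ) + 1)⁻¹) := by
        rw [sum_product, sum_mul_sum]
    _ ≤ _ := by
        refine mul_le_mul (pow_sum_le Λ) ?_ ?_ (by positivity)
        · have h1 : ∑ i ∈ G, ∏ k, (if k = k0 then (1 : ℝ) else ((i k : ℝ) + 1)⁻¹) =
              ∏ k, ∑ a ∈ (if k = k0 then {0} else range (Λ + 1)),
                (if k = k0 then (1 : ℝ) else ((a : ℝ) + 1)⁻¹) := by
            rw [hG, prod_univ_sum]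
          rw [h1, ← card_univ, ← prod_const]
          have hlog : 0 ≤ Real.log ((Λ : ℝ) + 1) := Real.log_nonneg (by linarith [Λ.cast_nonneg (α := ℝ)])
          refine prod_le_prod (fun k _ => sum_nonneg fun a _ => by split_ifs <;> positivity)
            (fun k _ => ?_)
          by_cases hk : k = k0
          · simp only [if_pos hk, sum_singleton]
            linarith
          · simp only [if_neg hk]
            exact harm_le Λ
        · exact sum_nonneg fun i _ => prod_nonneg fun k _ => by split_ifs <;> positivity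

theorem main0 : ∀ (K : Type) [Fintype K] [DecidableEq K] [Nonempty K], ∃ C : ℝ, 0 < C ∧ ∀ Λ : ℕ,
  ∑ j ∈ (Fintype.piFinset (fun _ : K => range (Λ + 1))).filter (fun j => ∑ k, j k ≤ Λ),
    (2 : ℝ) ^ (∑ k, j k) * ∏ k, ((j k : ℝ) + 1)⁻¹ ≤
    C * 2 ^ Λ * (1 + Real.log (Λ + 1)) ^ Fintype.card K / (Λ + 1) := by
  intro K _ _ _
  have hc : 0 < Fintype.card K := Fintype.card_pos
  refine ⟨4 * Fintype.card K, by positivity, fun Λ => ?_⟩
  have h1 : ∀ j : K → ℕ, (2 : ℝ) ^ (∑ k, j k) * ∏ k, ((j k : ℝ) + 1)⁻¹ ≤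
      ∑ k0, (2 : ℝ) ^ (∑ k, j k) / (((∑ k, j k : ℕ) : ℝ) + 1) *
        ∏ k, (if k = k0 then 1 else ((j k : ℝ) + 1)⁻¹) := by
    intro j
    rw [← mul_sum, div_mul_eq_mul_div, le_div_iff₀ (by positivity), mul_assoc]
    refine mul_le_mul_of_nonneg_left ?_ (by positivity)
    have h2 : ∀ k0 : K, ∏ k, (if k = k0 then (1 : ℝ) else ((j k : ℝ) + 1)⁻¹) =
        ((j k0 : ℝ) + 1) * ∏ k, ((j k : ℝ) + 1)⁻¹ := by
      intro k0
      rw [← mul_prod_erase univ _ (mem_univ k0), if_pos rfl, one_mul,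
        ← mul_prod_erase univ (fun k => ((j k : ℝ) + 1)⁻¹) (mem_univ k0), ← mul_assoc,
        mul_inv_cancel₀ (by positivity), one_mul]
      exact prod_congr rfl (fun k hk => if_neg (ne_of_mem_erase hk))
    simp only [h2]
    rw [← sum_mul, mul_comm]
    refine mul_le_mul_of_nonneg_right ?_ (prod_nonneg fun k _ => by positivity)
    rw [sum_add_distrib]
    push_cast
    have h3 : (1 : ℝ) ≤ ∑ _ : K, (1 : ℝ) := by
      rw [sum_const, card_univ, nsmul_eq_mul, mul_one]
      exact_mod_cast hc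
    linarith
  calc _ ≤ _ := sum_le_sum (fun j _ => h1 j)
    _ = _ := sum_comm
    _ ≤ ∑ k0 : K, (4 * 2 ^ Λ / ((Λ : ℝ) + 1)) * (1 + Real.log (Λ + 1)) ^ Fintype.card K :=
        sum_le_sum (fun k0 _ => key K Λ k0)
    _ = _ := by
        rw [sum_const, card_univ, nsmul_eq_mul]
        ring

theorem main : S_DYAD := main0

end Pool.Agent.H11.EN.DYAD
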