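import Mathlib

/-! Project EN: factorisation. -/

set_option autoImplicit false

namespace Pool.Agent.H11.EN

open Polynomial

/-- JOB EN-FACT. Factorisation of a polynomial with integral coefficients.
Proof. `UniqueFactorizationMonoid.factors g` in `ℤ[X]`: the product is associated to `g`; separate the
constant factors from the nonconstant ones; the latter are primitive and irreducible over `ℚ`
(`Polynomial.IsPrimitive.Int.irreducible_iff_irreducible_map_cast`), pairwise non-associated over `ℚ` as `g` is
separable (squarefree) over `ℚ`; `K = Fin n` (the list of these factors); multiply one of them by the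
remaining constant (and unit). -/
def S_FACT : Prop := ∀ g : ℤ[X], (g.map (Int.castRingHom ℚ)).Separable → 1 ≤ g.natDegree →
  ∃ (n : ℕ) (f : Fin (n + 1) → ℤ[X]), ∏ k, f k = g ∧
    (∀ k, Irreducible ((f k).map (Int.castRingHom ℚ))) ∧
    ∀ k l, k ≠ l →
      ¬ Associated ((f k).map (Int.castRingHom ℚ)) ((f l).map (Int.castRingHom ℚ))

end Pool.Agent.H11.EN
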