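import Mathlib
import Pool.Agent.H11.EN.Stm2

/-! Project EN: factorisation (stub FACT). -/

set_option autoImplicit false

namespace Pool.Agent.H11.EN.FACT

open Polynomial

/-- the map to the polynomials over the rationals -/
noncomputable abbrev toQ : ℤ[X] →+* ℚ[X] := mapRingHom (Int.castRingHom ℚ)

theorem aux (s : Multiset ℤ[X]) : (∀ b ∈ s, Irreducible b) → ∀ u : ℤ[X], u ≠ 0 → u.natDegree = 0 →
    1 ≤ (s.prod).natDegree → ∃ t : Multiset ℤ[X], t ≠ 0 ∧ t.prod = u * s.prod ∧
      ∀ f ∈ t, Irreducible (f.map (Int.castRingHom ℚ)) := by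
  induction s using Multiset.induction with
  | empty =>
    intro _ u _ _ h
    rw [Multiset.prod_zero, natDegree_one] at h
    omega
  | cons a s ih =>
    intro hs u hu hu0 hd
    rw [Multiset.prod_cons] at hd ⊢
    have ha : Irreducible a := hs a (Multiset.mem_cons_self a s)
    have hs' : ∀ b ∈ s, Irreducible b := fun b hb => hs b (Multiset.mem_cons_of_mem hb)
    have hs0 : s.prod ≠ 0 := by
      rw [Ne, Multiset.prod_eq_zero_iff]
      intro h
      exact (hs' 0 h).ne_zero rfl
    have hda : (a * s.prod).natDegree = a.natDegree + s.prod.natDegree :=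
      natDegree_mul ha.ne_zero hs0
    by_cases h1 : a.natDegree = 0
    · obtain ⟨t, ht0, ht, ht'⟩ := ih hs' (u * a) (mul_ne_zero hu ha.ne_zero)
        (by rw [natDegree_mul hu ha.ne_zero, hu0, h1]) (by omega)
      exact ⟨t, ht0, by rw [ht, mul_assoc], ht'⟩
    · have hirr : Irreducible (a.map (Int.castRingHom ℚ)) := by
        have hp : a.IsPrimitive := ha.isPrimitive h1
        exact (IsPrimitive.Int.irreducible_iff_irreducible_map_cast hp).1 ha
      by_cases h2 : s.prod.natDegree = 0
      · refine ⟨{u * (a * s.prod)}, Multiset.singleton_ne_zero _, Multiset.prod_singleton _, ?_⟩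
        intro f hf
        rw [Multiset.mem_singleton] at hf
        subst hf
        have h3 : ∀ v : ℤ[X], v ≠ 0 → v.natDegree = 0 → IsUnit (v.map (Int.castRingHom ℚ)) := by
          intro v hv hv0
          rw [natDegree_eq_zero] at hv0
          obtain ⟨c, rfl⟩ := hv0
          rw [map_C, isUnit_C, isUnit_iff_ne_zero]
          intro hc
          apply hv
          have : (c : ℚ) = 0 := hc
          rw [Int.cast_eq_zero.1 this, C_0]
        rw [Polynomial.map_mul, Polynomial.map_mul]
        have h4 : Associated (a.map (Int.castRingHom ℚ))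
            (u.map (Int.castRingHom ℚ) * (a.map (Int.castRingHom ℚ) *
              s.prod.map (Int.castRingHom ℚ))) := by
          obtain ⟨w1, hw1⟩ := h3 u hu hu0
          obtain ⟨w2, hw2⟩ := h3 s.prod hs0 h2
          refine ⟨w1 * w2, ?_⟩
          rw [Units.val_mul, hw1, hw2]
          ring
        exact h4.irreducible hirr
      · obtain ⟨t, ht0, ht, ht'⟩ := ih hs' u hu hu0 (by omega)
        refine ⟨a ::ₘ t, Multiset.cons_ne_zero, ?_, ?_⟩
        · rw [Multiset.prod_cons, ht]; ring
        · intro f hf
          rw [Multiset.mem_cons] at hf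
          rcases hf with rfl | hf
          · exact hirr
          · exact ht' f hf

theorem main : S_FACT := by
  intro g hg hd
  have hg0 : g ≠ 0 := by
    rintro rfl
    rw [natDegree_zero] at hd
    omega
  obtain ⟨s, hs, u, hu⟩ := WfDvdMonoid.exists_factors g hg0
  have hu0 : (u : ℤ[X]).natDegree = 0 := natDegree_coe_units u
  have h1 : 1 ≤ s.prod.natDegree := by
    have hne : s.prod ≠ 0 := by
      intro h
      rw [h, zero_mul] at hu
      exact hg0 hu.symm
    have := natDegree_mul hne u.ne_zero
    rw [hu, hu0] at this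
    omega
  obtain ⟨t, ht0, ht, ht'⟩ := aux s hs u u.ne_zero hu0 h1
  rw [mul_comm, hu] at ht
  obtain ⟨n, hn⟩ : ∃ n, t.toList.length = n + 1 := by
    rw [Multiset.length_toList]
    have : 0 < t.card := Multiset.card_pos.2 ht0
    exact ⟨t.card - 1, by omega⟩
  refine ⟨n, fun k => t.toList.get (Fin.cast hn.symm k), ?_, ?_, ?_⟩
  · have h2 : ∏ k : Fin (n + 1), t.toList.get (Fin.cast hn.symm k) =
        ∏ k : Fin t.toList.length, t.toList.get k :=
      Fintype.prod_equiv (finCongr hn.symm) _ _ (fun k => rfl)
    rw [h2, ← List.prod_ofFn, List.ofFn_get, Multiset.prod_toList, ht]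
  · intro k
    apply ht'
    rw [← Multiset.mem_toList]
    exact List.get_mem _ _
  · intro k l hkl hass
    have h2 : ∏ k : Fin (n + 1), t.toList.get (Fin.cast hn.symm k) = g := by
      have h2 : ∏ k : Fin (n + 1), t.toList.get (Fin.cast hn.symm k) =
          ∏ k : Fin t.toList.length, t.toList.get k :=
        Fintype.prod_equiv (finCongr hn.symm) _ _ (fun k => rfl)
      rw [h2, ← List.prod_ofFn, List.ofFn_get, Multiset.prod_toList, ht]
    set f : Fin (n + 1) → ℤ[X] := fun k => t.toList.get (Fin.cast hn.symm k) with hf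
    have h3 : f k * f l ∣ g := by
      rw [← h2, ← Finset.prod_pair hkl]
      exact Finset.prod_dvd_prod_of_subset _ _ _ (Finset.subset_univ _)
    have h4 : (f k).map (Int.castRingHom ℚ) * (f l).map (Int.castRingHom ℚ) ∣
        g.map (Int.castRingHom ℚ) := by
      rw [← Polynomial.map_mul]
      exact Polynomial.map_dvd _ h3
    have h5 : (f k).map (Int.castRingHom ℚ) * (f k).map (Int.castRingHom ℚ) ∣
        g.map (Int.castRingHom ℚ) :=
      (mul_dvd_mul_left _ hass.dvd).trans h4
    have h6 := hg.squarefree _ h5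
    have h7 : Irreducible ((f k).map (Int.castRingHom ℚ)) := by
      apply ht'
      rw [← Multiset.mem_toList]
      exact List.get_mem _ _
    exact h7.not_isUnit h6

end Pool.Agent.H11.EN.FACT
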