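import Pool.Agent.H11.EN.Main
import Pool.Agent.H11.EN.Stm2

/-! Project EN: the theorems in terms of the polynomial `g`. -/

set_option autoImplicit false
set_option linter.unusedSectionVars false

namespace Pool.Agent.H11.EN

open Polynomial NumberField IsDedekindDomain Finset Filter Topology
open Pool.Agent.H11.EC (SR SQ Sel ELS CurvePt Hyp S_SPLIT S_MEAN S_LOW S_LOWM S_CNTM MFree ELSM
  CurvePtM Sel2)

/-- `σ` fixes a zero `θ` of `q` and square roots of all `h i (θ)` -/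
def Fix {I : Type} (σ : AlgebraicClosure ℚ ≃ₐ[ℚ] AlgebraicClosure ℚ) (q : ℚ[X]) (h : I → ℤ[X]) :
    Prop :=
  ∃ θ : AlgebraicClosure ℚ, aeval θ q = 0 ∧ σ θ = θ ∧
    ∀ i, ∃ s : AlgebraicClosure ℚ, s ^ 2 = aeval θ (h i) ∧ σ s = s

/-- the hypothesis in terms of `g` -/
def HG {I : Type} (g : ℤ[X]) (h : I → ℤ[X]) : Prop :=
  ∀ q : ℚ[X], q ∣ g.map (Int.castRingHom ℚ) → 1 ≤ q.natDegree → q.natDegree ≤ 2 →
    ∃ σ, Fix σ (g.map (Int.castRingHom ℚ)) h ∧ ¬ Fix σ q h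

theorem aeval_cast (f : ℤ[X]) (θ : AlgebraicClosure ℚ) :
    aeval θ (f.map (Int.castRingHom ℚ)) = aeval θ f := by
  have : Int.castRingHom ℚ = algebraMap ℤ ℚ := rfl
  rw [this, aeval_map_algebraMap]

theorem HH_of {K I : Type} [Fintype K] [Fintype I] (f : K → ℤ[X]) (h : I → ℤ[X]) (hyp : Hyp f h)
    (hg : HG (∏ k, f k) h) : HH f h := by
  classical
  intro A hA hA2
  have hdeg : (∏ k ∈ A, (f k).map (Int.castRingHom ℚ)).natDegree = ∑ k ∈ A, (f k).natDegree := by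
    rw [natDegree_prod _ _ fun k _ => (hyp.irr k).ne_zero]
    exact sum_congr rfl fun k _ => natDegree_map_eq_of_injective (RingHom.injective_int _) _
  have hpos : ∀ k, 1 ≤ (f k).natDegree := by
    intro k
    have := (hyp.irr k).natDegree_pos
    rwa [natDegree_map_eq_of_injective (RingHom.injective_int _)] at this
  obtain ⟨k0, hk0⟩ := hA
  obtain ⟨σ, ⟨θ, h1, h2, h3⟩, h4⟩ := hg (∏ k ∈ A, (f k).map (Int.castRingHom ℚ)) (by
      rw [Polynomial.map_prod]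
      exact Finset.prod_dvd_prod_of_subset _ _ _ (subset_univ A)) (by
      rw [hdeg]
      exact (hpos k0).trans (single_le_sum (f := fun k => (f k).natDegree) (fun _ _ => Nat.zero_le _)
        hk0)) (by rw [hdeg]; exact hA2)
  refine ⟨σ, ?_, ?_⟩
  · rw [aeval_cast, map_prod, prod_eq_zero_iff] at h1
    obtain ⟨k, -, hk⟩ := h1
    refine ⟨k, ?_⟩
    unfold SQ
    exact mem_filter.2 ⟨mem_univ _, θ, hk, h2, h3⟩
  · rw [Finset.disjoint_left]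
    intro k hk hkA
    unfold SQ at hk
    obtain ⟨-, θ', h5, h6, h7⟩ := mem_filter.1 hk
    refine h4 ⟨θ', ?_, h6, h7⟩
    rw [map_prod]
    exact prod_eq_zero hkA (by rw [aeval_cast, h5])

theorem fac (hFACT : S_FACT) {I : Type} [Fintype I] (g : ℤ[X]) (h : I → ℤ[X])
    (hev : Even g.natDegree) (h6 : 6 ≤ g.natDegree)
    (hh : ∀ i, Even (h i).natDegree ∧ 1 ≤ (h i).natDegree)
    (hsep : ((g * ∏ i, h i).map (Int.castRingHom ℚ)).Separable) (hHG : HG g h) :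
    ∃ (n : ℕ) (f : Fin (n + 1) → ℤ[X]), ∏ k, f k = g ∧ Hyp f h ∧ HH f h := by
  obtain ⟨n, f, hf, hirr, hna⟩ := hFACT g (by
    rw [Polynomial.map_mul] at hsep
    exact hsep.of_mul_left) (by omega)
  have hyp : Hyp f h := ⟨hirr, hna, by rw [hf]; exact hev, fun i => (hh i).1, fun i => (hh i).2, by
    rw [hf]; exact hsep⟩
  exact ⟨n, f, hf, hyp, HH_of f h hyp (by rw [hf]; exact hHG)⟩

theorem main_g (hFACT : S_FACT) (hSPLIT : S_SPLIT) (hCORE : S_COREM) (hGOOD : S_GOOD)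
    (hMEAN : S_MEAN) (hLOW : S_LOW) (I : Type) [Fintype I] (g : ℤ[X]) (h : I → ℤ[X])
    (hev : Even g.natDegree) (h6 : 6 ≤ g.natDegree)
    (hh : ∀ i, Even (h i).natDegree ∧ 1 ≤ (h i).natDegree)
    (hsep : ((g * ∏ i, h i).map (Int.castRingHom ℚ)).Separable) (hHG : HG g h) :
    (∀ D : ℤ, D ≠ 0 → CurvePt g h D ℚ → Sel g h D) ∧
    (∀ D : ℤ, D ≠ 0 → Sel g h D → ELS g h D) ∧
    (∃ δ C : ℝ, 0 < δ ∧ ∀ X : ℕ, 3 ≤ X →
      ({D : ℤ | D.natAbs ≤ X ∧ Squarefree D ∧ Sel g h D}.ncard : ℝ) ≤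
        C * Real.log X ^ (-δ) *
        ({D : ℤ | D.natAbs ≤ X ∧ Squarefree D ∧ ELS g h D}.ncard : ℝ)) ∧
    ((∃ D0 : ℤ, Squarefree D0 ∧ ELS g h D0) → ∀ᶠ X : ℕ in atTop, (X : ℝ) / Real.log X ≤
      ({D : ℤ | D.natAbs ≤ X ∧ Squarefree D ∧ ELS g h D}.ncard : ℝ)) := by
  obtain ⟨n, f, rfl, hyp, hHH⟩ := fac hFACT g h hev h6 hh hsep hHG
  exact main hSPLIT hCORE hGOOD hMEAN hLOW _ I f h hyp h6 hHH

theorem mainM_g (hFACT : S_FACT) (hSPLIT : S_SPLIT) (hCORE : S_COREM) (hGOOD : S_GOOD)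
    (hMEAN : S_MEAN) (hLOW : S_LOWM) (hCNT : S_CNTM) (I : Type) [Fintype I] (g : ℤ[X])
    (h : I → ℤ[X]) (hev : Even g.natDegree) (h6 : 6 ≤ g.natDegree)
    (hh : ∀ i, Even (h i).natDegree ∧ 1 ≤ (h i).natDegree)
    (hsep : ((g * ∏ i, h i).map (Int.castRingHom ℚ)).Separable) (hHG : HG g h)
    (m : ℕ) (hm : m ≠ 0) (hmev : Even m) :
    (∀ D : ℤ, D ≠ 0 → CurvePtM m g h D ℚ → Sel2 m g h D) ∧
    (∀ D : ℤ, D ≠ 0 → Sel2 m g h D → ELSM m g h D) ∧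
    (∃ δ C : ℝ, 0 < δ ∧ ∀ X : ℕ, 3 ≤ X →
      ({D : ℤ | D.natAbs ≤ X ∧ MFree m D ∧ Sel2 m g h D}.ncard : ℝ) ≤
        C * Real.log X ^ (-δ) *
        ({D : ℤ | D.natAbs ≤ X ∧ MFree m D ∧ ELSM m g h D}.ncard : ℝ)) ∧
    ((∃ D0 : ℤ, MFree m D0 ∧ ELSM m g h D0) → ∀ᶠ X : ℕ in atTop, (X : ℝ) / Real.log X ≤
      ({D : ℤ | D.natAbs ≤ X ∧ MFree m D ∧ ELSM m g h D}.ncard : ℝ)) := by
  obtain ⟨n, f, rfl, hyp, hHH⟩ := fac hFACT g h hev h6 hh hsep hHG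
  exact mainM hSPLIT hCORE hGOOD hMEAN hLOW hCNT _ I f h hyp h6 hHH m hm hmev

end Pool.Agent.H11.EN
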