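import Pool.Agent.H11.EN.Stm

/-! EN-GOOD: the number of the `D` with large components of total degree at least 3. -/

set_option autoImplicit false

namespace Pool.Agent.H11.EN.GOOD

open Polynomial NumberField IsDedekindDomain Finset Filter Topology
open Pool.Agent.Q51.EL (Abv Par N1 pr Setup hom)
open Pool.Agent.H11.EM (PL In Ty1 Ty2 box cls dg NN tau)

lemma coverW {K : Type} [Fintype K] [DecidableEq K] {β : Type*} (E : Set ℤ)
    (hE : E.Finite) (A : ℤ → β) (hA : Set.InjOn A E) (P : ℤ → K → ℕ) (X : ℕ)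
    (hP : ∀ D ∈ E, (∀ k, P D k ≠ 0) ∧ ∏ k, P D k ≤ X) (Bx : (K → ℕ) → Set β)
    (W : (K → ℕ) → ℝ) (hW : ∀ j, 0 ≤ W j)
    (hB : ∀ D ∈ E, A D ∈ Bx (fun k => Nat.log 2 (P D k)))
    (hc : ∀ D ∈ E, (Bx (fun k => Nat.log 2 (P D k))).Finite ∧
      ((Bx (fun k => Nat.log 2 (P D k))).ncard : ℝ) ≤ W (fun k => Nat.log 2 (P D k))) :
    (E.ncard : ℝ) ≤ ∑ j ∈ (Fintype.piFinset fun _ : K => range (Nat.log 2 X + 1)).filter
      (fun j => ∑ k, j k ≤ Nat.log 2 X), W j := by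
  classical
  set m := Nat.log 2 X with hm
  set J := (Fintype.piFinset fun _ : K => range (m + 1)).filter (fun j => ∑ k, j k ≤ m) with hJ
  let g : ℤ → K → ℕ := fun D k => Nat.log 2 (P D k)
  have hg : ∀ D ∈ hE.toFinset, g D ∈ J := by
    intro D hD
    obtain ⟨h1, h2⟩ := hP D (hE.mem_toFinset.1 hD)
    have h3 : 2 ^ (∑ k, g D k) ≤ X := by
      rw [← Finset.prod_pow_eq_pow_sum]
      refine (Finset.prod_le_prod' fun k _ => ?_).trans h2
      exact Nat.pow_log_le_self 2 (h1 k)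
    have h4 : ∑ k, g D k ≤ m := Nat.le_log_of_pow_le (by norm_num) h3
    refine mem_filter.2 ⟨Fintype.mem_piFinset.2 fun k => mem_range.2 ?_, h4⟩
    have := Finset.single_le_sum (f := g D) (fun _ _ => Nat.zero_le _) (mem_univ k)
    omega
  rw [Set.ncard_eq_toFinset_card _ hE, Finset.card_eq_sum_card_fiberwise hg]
  push_cast
  refine Finset.sum_le_sum (fun j _ => ?_)
  rcases (hE.toFinset.filter (fun D => g D = j)).eq_empty_or_nonempty with h | ⟨D0, hD0⟩
  · rw [h, card_empty, Nat.cast_zero]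
    exact hW j
  · obtain ⟨hD1, rfl⟩ := mem_filter.1 hD0
    obtain ⟨h6, h7⟩ := hc D0 (hE.mem_toFinset.1 hD1)
    refine le_trans ?_ h7
    have h8 : ((hE.toFinset.filter (fun D => g D = g D0) : Finset ℤ) : Set ℤ).ncard ≤
        (Bx (fun k => Nat.log 2 (P D0 k))).ncard := by
      refine Set.ncard_le_ncard_of_injOn A ?_ ?_ h6
      · intro D hD
        obtain ⟨h9, h10⟩ := mem_filter.1 (Finset.mem_coe.1 hD)
        have h11 := hB D (hE.mem_toFinset.1 h9)
        have h12 : (fun k => Nat.log 2 (P D k)) = fun k => Nat.log 2 (P D0 k) := h10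
        rwa [h12] at h11
      · intro D hD D' hD' h
        obtain ⟨h9, -⟩ := mem_filter.1 (Finset.mem_coe.1 hD)
        obtain ⟨h9', -⟩ := mem_filter.1 (Finset.mem_coe.1 hD')
        exact hA (hE.mem_toFinset.1 h9) (hE.mem_toFinset.1 h9') h
    rw [Set.ncard_coe_finset] at h8
    exact_mod_cast h8

lemma fin_nat (X : ℕ) (P : ℤ → Prop) : {D : ℤ | D.natAbs ≤ X ∧ P D}.Finite := by
  refine (Set.finite_Icc (-(X : ℤ)) X).subset ?_
  rintro D ⟨hD, -⟩
  constructor <;> omega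

/-- lower bound for one factor -/
lemma factor_lower {n dgg j Λ : ℕ} {C1' Z : ℝ} (hC : 1 ≤ C1') (hZ : 3 ≤ Z) (hn : 1 ≤ n)
    (hnd : n ≤ dgg) (hj : j ≤ Λ) (hZΛ : Real.log Z ≤ (Λ : ℝ) + 1) :
    Real.log 2 / dgg * ((j : ℝ) + 1) * (Real.log Z / ((Λ : ℝ) + 1)) ≤
      1 + Real.log (min (C1' * ((2 : ℝ) ^ (j + 1)) ^ ((1 : ℝ) / n)) Z) := by
  have hn' : (1 : ℝ) ≤ n := by exact_mod_cast hn
  have hnd' : (n : ℝ) ≤ dgg := by exact_mod_cast hnd
  have hj' : (j : ℝ) ≤ Λ := by exact_mod_cast hj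
  have hl2 : 0 < Real.log 2 := Real.log_pos (by norm_num)
  have hl21 : Real.log 2 ≤ 1 := by linarith [Real.log_two_lt_d9]
  have hlZ : 0 < Real.log Z := Real.log_pos (by linarith)
  have hΛ0 : (0 : ℝ) < (Λ : ℝ) + 1 := by positivity
  have hj0 : (0 : ℝ) < (j : ℝ) + 1 := by positivity
  rcases le_total (C1' * ((2 : ℝ) ^ (j + 1)) ^ ((1 : ℝ) / n)) Z with h | h
  · rw [min_eq_left h]
    have h1 : Real.log (((2 : ℝ) ^ (j + 1)) ^ ((1 : ℝ) / n)) ≤
        Real.log (C1' * ((2 : ℝ) ^ (j + 1)) ^ ((1 : ℝ) / n)) := by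
      apply Real.log_le_log (by positivity)
      exact le_mul_of_one_le_left (by positivity) hC
    rw [Real.log_rpow (by positivity), Real.log_pow] at h1
    push_cast at h1
    have h2 : Real.log 2 / dgg ≤ Real.log 2 / n := by gcongr
    have h3 : Real.log Z / ((Λ : ℝ) + 1) ≤ 1 := by rwa [div_le_one hΛ0]
    calc Real.log 2 / dgg * ((j : ℝ) + 1) * (Real.log Z / ((Λ : ℝ) + 1))
        ≤ Real.log 2 / n * ((j : ℝ) + 1) * 1 := by
          refine mul_le_mul (mul_le_mul_of_nonneg_right h2 hj0.le) h3 (by positivity) (by positivity)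
      _ = 1 / n * (((j : ℝ) + 1) * Real.log 2) := by ring
      _ ≤ _ := by linarith
  · rw [min_eq_right h]
    have h1 : Real.log 2 / dgg ≤ 1 := by
      rw [div_le_one (by linarith)]
      linarith
    calc Real.log 2 / dgg * ((j : ℝ) + 1) * (Real.log Z / ((Λ : ℝ) + 1))
        ≤ 1 * ((Λ : ℝ) + 1) * (Real.log Z / ((Λ : ℝ) + 1)) := by
          refine mul_le_mul_of_nonneg_right ?_ (by positivity)
          exact mul_le_mul h1 (by linarith) hj0.le (by norm_num)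
      _ = Real.log Z := by field_simp
      _ ≤ _ := by linarith

theorem main (hdyad : S_DYAD) : S_GOOD := by
  intro K _ _ _ L _ _ T A P E GG C1 C2 c hC2 hA hE hbox
  classical
  obtain ⟨CD, hCD, hdy⟩ := hdyad K
  set C1' : ℝ := max C1 1 with hC1'
  have hC1'1 : 1 ≤ C1' := le_max_right _ _
  have hn0 : ∀ k, 0 < Module.finrank ℚ (L k) := fun k => Module.finrank_pos
  have hnd : ∀ k, Module.finrank ℚ (L k) ≤ dg L := fun k =>
    Finset.single_le_sum (f := fun k => Module.finrank ℚ (L k)) (fun _ _ => Nat.zero_le _)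
      (mem_univ k)
  have hdg1 : 1 ≤ dg L := (hn0 (Classical.arbitrary K)).trans_le (hnd _)
  have hdg1' : (1 : ℝ) ≤ dg L := by exact_mod_cast hdg1
  have hl2 : 0 < Real.log 2 := Real.log_pos (by norm_num)
  set c0 : ℝ := Real.log 2 / dg L with hc0
  have hc0p : 0 < c0 := by positivity
  set r : ℕ := Fintype.card K with hr
  refine ⟨C2 * (C1' ^ dg L * 2 ^ r) * (c0⁻¹) ^ r * CD, by positivity, fun Z X hZ hX => ?_⟩
  set G : ℝ := Real.exp (GG Z) * Real.log Z ^ (-c) with hG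
  have hlZ : 0 < Real.log Z := Real.log_pos (by linarith)
  have hG0 : 0 ≤ G := mul_nonneg (Real.exp_pos _).le (Real.rpow_nonneg hlZ.le _)
  set Λ := Nat.log 2 X with hΛ
  have hΛ0 : (0 : ℝ) < (Λ : ℝ) + 1 := by positivity
  have hlogΛ : 0 ≤ Real.log ((Λ : ℝ) + 1) := Real.log_nonneg (by linarith [Λ.cast_nonneg (α := ℝ)])
  set S : Set ℤ := {D : ℤ | D.natAbs ≤ X ∧ D ∈ E ∧
      3 ≤ nA L (univ.filter (fun k => Z ^ dg L ≤ (P D k : ℝ)))} with hS
  rcases S.eq_empty_or_nonempty with hemp | ⟨D0, hD0⟩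
  · rw [hemp, Set.ncard_empty, Nat.cast_zero]
    positivity
  have hP2 : ∀ D ∈ S, (∀ k, P D k ≠ 0) ∧ ∏ k, P D k ≤ X := fun D hD =>
    ⟨(hE D hD.2.1).1, (hE D hD.2.1).2.1.trans hD.1⟩
  have hPX : ∀ D ∈ S, ∀ k, P D k ≤ X := by
    intro D hD k
    obtain ⟨h1, h2⟩ := hP2 D hD
    refine le_trans ?_ h2
    exact Finset.single_le_prod' (f := P D) (fun k _ => Nat.one_le_iff_ne_zero.2 (h1 k)) (mem_univ k)
  have hX2 : (X : ℝ) ≤ 2 ^ (Λ + 1) := by
    exact_mod_cast (Nat.lt_pow_succ_log_self (by norm_num : 1 < 2) X).le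
  have hZΛ : Real.log Z ≤ (Λ : ℝ) + 1 := by
    have h1 := hD0.2.2
    have h2 : (univ.filter (fun k => Z ^ dg L ≤ (P D0 k : ℝ))).Nonempty := by
      by_contra hcon
      rw [Finset.not_nonempty_iff_eq_empty] at hcon
      rw [hcon] at h1
      simp [nA] at h1
    obtain ⟨k, hk⟩ := h2
    rw [mem_filter] at hk
    have h3 : (P D0 k : ℝ) ≤ X := by exact_mod_cast hPX D0 hD0 k
    have h4 : Z ≤ 2 ^ (Λ + 1) := by
      calc Z = Z ^ 1 := (pow_one Z).symm
        _ ≤ Z ^ dg L := pow_le_pow_right₀ (by linarith) hdg1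
        _ ≤ _ := hk.2.trans (h3.trans hX2)
    have h5 := Real.log_le_log (by linarith) h4
    rw [Real.log_pow] at h5
    push_cast at h5
    have h6 : Real.log 2 ≤ 1 := by linarith [Real.log_two_lt_d9]
    nlinarith
  let Y : (K → ℕ) → K → ℝ := fun j k => C1' * ((2 : ℝ) ^ (j k + 1)) ^
    ((1 : ℝ) / Module.finrank ℚ (L k))
  have hYprod : ∀ j : K → ℕ, ∏ k, Y j k ^ Module.finrank ℚ (L k) =
      C1' ^ dg L * 2 ^ r * 2 ^ (∑ k, j k) := by
    intro j
    have h1 : ∀ k, Y j k ^ Module.finrank ℚ (L k) = C1' ^ Module.finrank ℚ (L k) * (2 * 2 ^ j k) := by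
      intro k
      simp only [Y]
      rw [mul_pow, ← Real.rpow_natCast (((2 : ℝ) ^ (j k + 1)) ^ ((1 : ℝ) / Module.finrank ℚ (L k))),
        ← Real.rpow_mul (by positivity), one_div, inv_mul_cancel₀ (by exact_mod_cast (hn0 k).ne'),
        Real.rpow_one, pow_succ, mul_comm ((2 : ℝ) ^ j k)]
    rw [Finset.prod_congr rfl fun k _ => h1 k, Finset.prod_mul_distrib, Finset.prod_mul_distrib,
      Finset.prod_pow_eq_pow_sum, Finset.prod_pow_eq_pow_sum, Finset.prod_const, card_univ]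
    unfold dg
    ring
  have hY1 : ∀ j k, 1 ≤ Y j k := by
    intro j k
    simp only [Y]
    have h1 : (1 : ℝ) ≤ ((2 : ℝ) ^ (j k + 1)) ^ ((1 : ℝ) / Module.finrank ℚ (L k)) := by
      apply Real.one_le_rpow _ (by positivity)
      exact one_le_pow₀ (by norm_num)
    nlinarith
  let W : (K → ℕ) → ℝ := fun j => C2 * (C1' ^ dg L * 2 ^ r * 2 ^ (∑ k, j k)) * G *
    ((c0⁻¹ * (((Λ : ℝ) + 1) / Real.log Z)) ^ r * ∏ k, ((j k : ℝ) + 1)⁻¹)
  have key := coverW S (fin_nat X _) A (hA.mono fun D hD => hD.2.1) P X hP2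
    (fun j => box (Y j) T) W (fun j => mul_nonneg (mul_nonneg (by positivity) hG0)
      (mul_nonneg (by positivity) (prod_nonneg fun k _ => by positivity))) ?_ ?_
  · refine key.trans ?_
    have h1 : ∑ j ∈ (Fintype.piFinset fun _ : K => range (Λ + 1)).filter
      (fun j => ∑ k, j k ≤ Λ), W j = C2 * (C1' ^ dg L * 2 ^ r) * G *
        (c0⁻¹ * (((Λ : ℝ) + 1) / Real.log Z)) ^ r *
        ∑ j ∈ (Fintype.piFinset fun _ : K => range (Λ + 1)).filter
      (fun j => ∑ k, j k ≤ Λ), (2 : ℝ) ^ (∑ k, j k) * ∏ k, ((j k : ℝ) + 1)⁻¹ := by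
      rw [mul_sum]
      refine sum_congr rfl (fun j _ => ?_)
      simp only [W]
      ring
    rw [h1]
    have h2 : (2 : ℝ) ^ Λ ≤ X := by exact_mod_cast Nat.pow_log_le_self 2 (by omega)
    have h3 : ∑ j ∈ (Fintype.piFinset fun _ : K => range (Λ + 1)).filter
      (fun j => ∑ k, j k ≤ Λ), (2 : ℝ) ^ (∑ k, j k) * ∏ k, ((j k : ℝ) + 1)⁻¹ ≤
        CD * X * (1 + Real.log (Λ + 1)) ^ r / (Λ + 1) := by
      refine (hdy Λ).trans ?_
      gcongr
    calc _ ≤ C2 * (C1' ^ dg L * 2 ^ r) * G * (c0⁻¹ * (((Λ : ℝ) + 1) / Real.log Z)) ^ r *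
          (CD * X * (1 + Real.log (Λ + 1)) ^ r / (Λ + 1)) :=
          mul_le_mul_of_nonneg_left h3 (by positivity)
      _ = _ := by
          rw [mul_pow]
          ring
  · intro D hD
    obtain ⟨h1, h2, h3, h4⟩ := hE D hD.2.1
    refine ⟨h3, fun k σ => (h4 k σ).trans ?_⟩
    simp only [Y]
    refine mul_le_mul (le_max_left _ _) ?_ (by positivity) (by positivity)
    refine Real.rpow_le_rpow (by positivity) ?_ (by positivity)
    have h5 : P D k < 2 ^ (Nat.log 2 (P D k) + 1) := Nat.lt_pow_succ_log_self (by norm_num) _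
    exact_mod_cast h5.le
  · intro D hD
    obtain ⟨h1, h2, h3, h4⟩ := hE D hD.2.1
    have hsub : univ.filter (fun k => Z ^ dg L ≤ (P D k : ℝ)) ⊆
        univ.filter (fun k => Z ≤ Y (fun k => Nat.log 2 (P D k)) k) := by
      intro k hk
      rw [mem_filter] at hk ⊢
      refine ⟨mem_univ k, ?_⟩
      simp only [Y]
      have h6 : P D k < 2 ^ (Nat.log 2 (P D k) + 1) := Nat.lt_pow_succ_log_self (by norm_num) _
      have h7 : (P D k : ℝ) ≤ 2 ^ (Nat.log 2 (P D k) + 1) := by exact_mod_cast h6.le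
      have h8 : Z ^ Module.finrank ℚ (L k) ≤ 2 ^ (Nat.log 2 (P D k) + 1) := by
        refine le_trans ?_ (hk.2.trans h7)
        exact pow_le_pow_right₀ (by linarith) (hnd k)
      have h9 := Real.rpow_le_rpow (by positivity) h8
        (by positivity : (0 : ℝ) ≤ (1 : ℝ) / Module.finrank ℚ (L k))
      rw [← Real.rpow_natCast, ← Real.rpow_mul (by linarith), one_div,
        mul_inv_cancel₀ (by exact_mod_cast (hn0 k).ne'), Real.rpow_one, ← one_div] at h9
      calc Z = 1 * Z := (one_mul Z).symm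
        _ ≤ C1' * ((2 : ℝ) ^ (Nat.log 2 (P D k) + 1)) ^ ((1 : ℝ) / Module.finrank ℚ (L k)) :=
          mul_le_mul hC1'1 h9 (by linarith) (by linarith)
    have h3' : 3 ≤ nA L (univ.filter (fun k => Z ≤ Y (fun k => Nat.log 2 (P D k)) k)) :=
      hD.2.2.trans (Finset.sum_le_sum_of_subset hsub)
    obtain ⟨h5, h6⟩ := hbox Z (Y fun k => Nat.log 2 (P D k)) hZ (hY1 _) h3'
    refine ⟨h5, h6.trans ?_⟩
    rw [hYprod, mul_assoc (C2 * _) (Real.exp _)]
    simp only [W]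
    rw [← hG]
    refine mul_le_mul_of_nonneg_left ?_ (mul_nonneg (by positivity) hG0)
    have hjΛ : ∀ k, Nat.log 2 (P D k) ≤ Λ := fun k => Nat.log_mono_right (hPX D hD k)
    have h7 : ∏ k, (c0 * ((Nat.log 2 (P D k) : ℝ) + 1) * (Real.log Z / ((Λ : ℝ) + 1))) ≤
        ∏ k, (1 + Real.log (min (Y (fun k => Nat.log 2 (P D k)) k) Z)) := by
      refine prod_le_prod (fun k _ => by positivity) (fun k _ => ?_)
      exact factor_lower hC1'1 hZ (hn0 k) (hnd k) (hjΛ k) hZΛ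
    have h8 : 0 < ∏ k, (c0 * ((Nat.log 2 (P D k) : ℝ) + 1) * (Real.log Z / ((Λ : ℝ) + 1))) :=
      prod_pos (fun k _ => by positivity)
    refine (inv_anti₀ h8 h7).trans (le_of_eq ?_)
    have e1 : ((Λ : ℝ) + 1) / Real.log Z = (Real.log Z / ((Λ : ℝ) + 1))⁻¹ := (inv_div _ _).symm
    rw [prod_mul_distrib, prod_mul_distrib, prod_const, prod_const, card_univ, ← hr,
      mul_inv, mul_inv, ← inv_pow, ← inv_pow, ← prod_inv_distrib, e1, mul_pow]
    ring

end Pool.Agent.H11.EN.GOOD
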