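import Mathlib
import Pool.Agent.H11.EN.Stm
import Pool.Agent.H11.V.R_pool_sql_team_seeded_3997aac3_Q51_EL_LSV

/-!
# Project EN, job MS: the multi-scale large sieve
-/

set_option autoImplicit false

namespace Pool.Agent.H11.EN.MS

open Finset
open Pool.Agent.Helper112 (ee ls_ee_zero ls_ee_add ls_ee_nat ls_ee_int ls_norm_ee)
open Pool.Agent.TH194.BL (Far)

theorem pi_split {ι : Type} [Fintype ι] [DecidableEq ι] {α M : Type} [DecidableEq α]
    [AddCommMonoid M] (t : ι → Finset α) (i : ι) (c : α) (f : (ι → α) → M) :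
    ∑ x ∈ Fintype.piFinset t, f x =
      ∑ x' ∈ Fintype.piFinset (Function.update t i {c}), ∑ y ∈ t i, f (Function.update x' i y) := by
  rw [← Finset.sum_product']
  refine Finset.sum_bij' (fun x _ => (Function.update x i c, x i))
    (fun p _ => Function.update p.1 i p.2) ?_ ?_ ?_ ?_ ?_
  · intro x hx
    rw [Fintype.mem_piFinset] at hx
    rw [Finset.mem_product, Fintype.mem_piFinset]
    refine ⟨fun j => ?_, hx i⟩
    by_cases hj : j = i
    · subst hj; simp
    · simp only [Function.update_of_ne hj]; exact hx j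
  · intro p hp
    rw [Finset.mem_product, Fintype.mem_piFinset] at hp
    rw [Fintype.mem_piFinset]
    intro j
    by_cases hj : j = i
    · subst hj; simpa using hp.2
    · have := hp.1 j
      simp only [Function.update_of_ne hj] at this ⊢
      exact this
  · intro x _
    simp
  · intro p hp
    rw [Finset.mem_product, Fintype.mem_piFinset] at hp
    have h1 := hp.1 i
    simp only [Function.update_self, Finset.mem_singleton] at h1
    ext1
    · simp only [Function.update_idem]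
      rw [← h1, Function.update_eq_self]
    · simp
  · intro x _
    simp

theorem one_dim' (a N F : ℕ) (α : ℕ → ℂ) :
    ∑ r ∈ Far F, ‖∑ n ∈ Ioc a (a + N), α n * ee ((n : ℝ) * r.2 / r.1)‖ ^ 2 ≤
      6 * (N + (F : ℝ) ^ 2) * ∑ n ∈ Ioc a (a + N), ‖α n‖ ^ 2 := by
  have key : ∀ {M : Type} [AddCommMonoid M] (g : ℕ → M), ∑ n ∈ Ioc a (a + N), g n =
      ∑ n ∈ Icc 1 N, g (a + n) := by
    intro M _ g
    refine Finset.sum_bij' (fun n _ => n - a) (fun n _ => a + n) ?_ ?_ ?_ ?_ ?_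
    · intro n hn; rw [Finset.mem_Ioc] at hn; rw [Finset.mem_Icc]; omega
    · intro n hn; rw [Finset.mem_Icc] at hn; rw [Finset.mem_Ioc]; omega
    · intro n hn; rw [Finset.mem_Ioc] at hn; omega
    · intro n hn; omega
    · intro n hn; rw [Finset.mem_Ioc] at hn; congr 1; omega
  rw [key (fun n => ‖α n‖ ^ 2)]
  refine le_trans (le_of_eq ?_) (Pool.Agent.TH194.BL.AddX.one_dim N F (fun n => α (a + n)))
  refine Finset.sum_congr rfl fun r _ => ?_
  rw [key (fun n => α n * ee ((n : ℝ) * r.2 / r.1))]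
  have h1 : ∀ n ∈ Icc 1 N, α (a + n) * ee (((a + n : ℕ) : ℝ) * r.2 / r.1) =
      ee ((a : ℝ) * r.2 / r.1) * (α (a + n) * ee ((n : ℝ) * r.2 / r.1)) := by
    intro n _
    have : ((a + n : ℕ) : ℝ) * r.2 / r.1 = (a : ℝ) * r.2 / r.1 + (n : ℝ) * r.2 / r.1 := by
      push_cast; ring
    rw [this, ls_ee_add]
    ring
  rw [Finset.sum_congr rfl h1, ← Finset.mul_sum, norm_mul, ls_norm_ee, one_mul]

section

variable {ι : Type} [Fintype ι] [DecidableEq ι]

/-- the character -/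
noncomputable def EE (z : ι → ℕ) (r : ι → ℕ × ℕ) : ℂ := ee (∑ i, (z i : ℝ) * (r i).2 / (r i).1)

/-- the values outside `S` -/
def WS (N a : ι → ℕ) (S : Finset ι) : Finset (ι → ℕ) :=
  Fintype.piFinset (fun i => if i ∈ S then {0} else Ioc (a i) (a i + N i))

/-- the fractions in `S` -/
def RS (S : Finset ι) (q : ℕ) : Finset (ι → ℕ × ℕ) :=
  Fintype.piFinset (fun i => if i ∈ S then Far q else {(1, 0)})

/-- the elements of `Z` with the given values outside `S` -/
def cl (Z : Finset (ι → ℕ)) (S : Finset ι) (w : ι → ℕ) : Finset (ι → ℕ) :=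
  Z.filter (fun z => ∀ i, i ∉ S → z i = w i)

/-- the mean square -/
noncomputable def V (N a : ι → ℕ) (Z : Finset (ι → ℕ)) (S : Finset ι) (q : ℕ) : ℝ :=
  ∑ w ∈ WS N a S, ∑ r ∈ RS S q, ‖∑ z ∈ cl Z S w, EE z r‖ ^ 2

theorem V_nonneg (N a : ι → ℕ) (Z : Finset (ι → ℕ)) (S : Finset ι) (q : ℕ) : 0 ≤ V N a Z S q :=
  Finset.sum_nonneg fun _ _ => Finset.sum_nonneg fun _ _ => by positivity

theorem EE_update {z : ι → ℕ} {r : ι → ℕ × ℕ} {i : ι} (hr : (r i).2 = 0) (f : ℕ × ℕ) :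
    EE z (Function.update r i f) = EE z r * ee ((z i : ℝ) * f.2 / f.1) := by
  unfold EE
  rw [← ls_ee_add]
  congr 1
  rw [← Finset.add_sum_erase univ (fun j => (z j : ℝ) * (Function.update r i f j).2 /
      (Function.update r i f j).1) (Finset.mem_univ i),
    ← Finset.add_sum_erase univ (fun j => (z j : ℝ) * (r j).2 / (r j).1) (Finset.mem_univ i)]
  have h1 : ∑ j ∈ univ.erase i, (z j : ℝ) * (Function.update r i f j).2 /
      (Function.update r i f j).1 = ∑ j ∈ univ.erase i, (z j : ℝ) * (r j).2 / (r j).1 := by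
    refine Finset.sum_congr rfl fun j hj => ?_
    rw [Function.update_of_ne (Finset.ne_of_mem_erase hj)]
  rw [h1, Function.update_self, hr]
  simp
  ring

theorem up (N a : ι → ℕ) (Z : Finset (ι → ℕ)) (hZ : ∀ z ∈ Z, ∀ i, z i ∈ Ioc (a i) (a i + N i))
    (S : Finset ι) (q : ℕ) (i : ι) (hi : i ∉ S) :
    V N a Z (insert i S) q ≤ 6 * (N i + (q : ℝ) ^ 2) * V N a Z S q := by
  have hW : Function.update (fun j => if j ∈ S then ({0} : Finset ℕ) else Ioc (a j) (a j + N j)) i {0} =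
      fun j => if j ∈ insert i S then ({0} : Finset ℕ) else Ioc (a j) (a j + N j) := by
    funext j
    by_cases hj : j = i
    · subst hj; simp
    · rw [Function.update_of_ne hj]
      simp [Finset.mem_insert, hj]
  have hR : Function.update (fun j => if j ∈ insert i S then Far q else {((1 : ℕ), (0 : ℕ))}) i {(1, 0)} =
      fun j => if j ∈ S then Far q else {((1 : ℕ), (0 : ℕ))} := by
    funext j
    by_cases hj : j = i
    · subst hj; simp [hi]
    · rw [Function.update_of_ne hj]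
      simp [Finset.mem_insert, hj]
  have e1 : V N a Z S q = ∑ w ∈ WS N a (insert i S), ∑ r ∈ RS S q, ∑ n ∈ Ioc (a i) (a i + N i),
      ‖∑ z ∈ cl Z S (Function.update w i n), EE z r‖ ^ 2 := by
    unfold V
    conv_lhs => rw [WS, pi_split _ i 0, hW]
    simp only [if_neg hi]
    refine Finset.sum_congr rfl fun w _ => ?_
    rw [Finset.sum_comm]
  have e2 : V N a Z (insert i S) q = ∑ w ∈ WS N a (insert i S), ∑ r ∈ RS S q, ∑ f ∈ Far q,
      ‖∑ z ∈ cl Z (insert i S) w, EE z (Function.update r i f)‖ ^ 2 := by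
    unfold V
    refine Finset.sum_congr rfl fun w _ => ?_
    conv_lhs => rw [RS, pi_split _ i (1, 0), hR]
    simp only [Finset.mem_insert_self, if_true]
    rfl
  rw [e1, e2, Finset.mul_sum]
  refine Finset.sum_le_sum fun w _ => ?_
  rw [Finset.mul_sum]
  refine Finset.sum_le_sum fun r hr => ?_
  have hri : (r i).2 = 0 := by
    rw [RS, Fintype.mem_piFinset] at hr
    have := hr i
    rw [if_neg hi, Finset.mem_singleton] at this
    rw [this]
  refine le_trans (le_of_eq ?_) (one_dim' (a i) (N i) q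
    (fun n => ∑ z ∈ cl Z S (Function.update w i n), EE z r))
  refine Finset.sum_congr rfl fun f _ => ?_
  congr 2
  rw [← Finset.sum_fiberwise_of_maps_to (s := cl Z (insert i S) w) (t := Ioc (a i) (a i + N i))
    (g := fun z => z i) (fun z hz => hZ z (Finset.mem_filter.1 hz).1 i)]
  refine Finset.sum_congr rfl fun n _ => ?_
  have hcl : (cl Z (insert i S) w).filter (fun z => z i = n) = cl Z S (Function.update w i n) := by
    ext z
    simp only [cl, Finset.mem_filter, Finset.mem_insert, not_or]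
    constructor
    · rintro ⟨⟨h1, h2⟩, h3⟩
      refine ⟨h1, fun j hj => ?_⟩
      by_cases hji : j = i
      · subst hji; simpa using h3
      · rw [Function.update_of_ne hji]; exact h2 j ⟨hji, hj⟩
    · rintro ⟨h1, h2⟩
      refine ⟨⟨h1, fun j hj => ?_⟩, ?_⟩
      · have := h2 j hj.2
        rwa [Function.update_of_ne hj.1] at this
      · simpa using h2 i hi
  rw [hcl, Finset.sum_mul]
  refine Finset.sum_congr rfl fun z hz => ?_
  rw [EE_update hri]
  have hzn : z i = n := by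
    have := (Finset.mem_filter.1 hz).2 i hi
    simpa using this
  rw [hzn]

theorem ups (N a : ι → ℕ) (Z : Finset (ι → ℕ)) (hZ : ∀ z ∈ Z, ∀ i, z i ∈ Ioc (a i) (a i + N i))
    (S : Finset ι) (q : ℕ) (T : Finset ι) : Disjoint T S → (∀ i ∈ T, q ^ 2 ≤ N i) →
    V N a Z (T ∪ S) q ≤ (∏ i ∈ T, (12 * (N i : ℝ))) * V N a Z S q := by
  induction T using Finset.induction_on with
  | empty => intro _ _; simp
  | insert i T hi ih =>
    intro hd hq
    rw [Finset.disjoint_insert_left] at hd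
    have h1 := ih hd.2 (fun j hj => hq j (Finset.mem_insert_of_mem hj))
    have h2 := up N a Z hZ (T ∪ S) q i (by
      rw [Finset.mem_union, not_or]; exact ⟨hi, hd.1⟩)
    rw [Finset.insert_union, Finset.prod_insert hi]
    refine h2.trans ?_
    have h3 : 6 * ((N i : ℝ) + (q : ℝ) ^ 2) ≤ 12 * (N i : ℝ) := by
      have : ((q : ℝ)) ^ 2 ≤ N i := by exact_mod_cast hq i (Finset.mem_insert_self i T)
      linarith
    calc 6 * ((N i : ℝ) + (q : ℝ) ^ 2) * V N a Z (T ∪ S) q ≤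
        (12 * (N i : ℝ)) * V N a Z (T ∪ S) q :=
          mul_le_mul_of_nonneg_right h3 (V_nonneg _ _ _ _ _)
      _ ≤ (12 * (N i : ℝ)) * ((∏ i ∈ T, (12 * (N i : ℝ))) * V N a Z S q) :=
          mul_le_mul_of_nonneg_left h1 (by positivity)
      _ = _ := by ring

/-- the numerators modulo `∏ t ∈ D, t` -/
def BS (S : Finset ι) (D : Finset ℕ) : Set (ι → ℕ) :=
  {b | (∀ i ∈ S, b i < ∏ t ∈ D, t) ∧ (∀ i, i ∉ S → b i = 0) ∧ ∀ t ∈ D, ∃ i, ¬ t ∣ b i}

theorem low' (η : ℕ → ℝ) (D : Finset ℕ) (S : Finset ι) (Z : Finset (ι → ℕ)) (w : ι → ℕ)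
    (hZw : ∀ z ∈ Z, ∀ i, i ∉ S → z i = w i) (hp : ∀ t ∈ D, t.Prime) (hη : ∀ t ∈ D, 0 < η t)
    (hcl : ∀ t ∈ D, ((((fun (z : ι → ℕ) (i : S) => ((z i : ℕ) : ZMod t)) ''
      (Z : Set (ι → ℕ))).ncard : ℕ) : ℝ) ≤ (1 - η t) * (t : ℝ) ^ S.card) (c : (ι → ℕ) → ℂ) :
    ∃ B : Finset (ι → ℕ), (∀ b ∈ B, b ∈ BS S D) ∧
    (∏ t ∈ D, η t) * ‖∑ z ∈ Z, c z‖ ^ 2 ≤
      ∑ b ∈ B, ‖∑ z ∈ Z, c z * ee (∑ i, (z i : ℝ) * (b i : ℝ) / ((∏ t ∈ D, t : ℕ) : ℝ))‖ ^ 2 := by
  classical
  set k := S.card with hk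
  set e : Fin k ≃ S := S.equivFin.symm with he
  set ρ : (ι → ℕ) → (Fin k → ℕ) := fun z i => z (e i) with hρ
  set ex : (ι → ℕ) → (Fin k → ℕ) → (ι → ℕ) := fun w u i =>
    if h : i ∈ S then u (e.symm ⟨i, h⟩) else w i with hex
  have hexρ : ∀ z ∈ Z, ex w (ρ z) = z := by
    intro z hz
    funext i
    simp only [hex, hρ]
    split_ifs with h
    · rw [Equiv.apply_symm_apply]
    · exact (hZw z hz i h).symm
  have hinj : Set.InjOn ρ (Z : Set (ι → ℕ)) := by
    intro z hz z' hz' h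
    rw [← hexρ z hz, ← hexρ z' hz', h]
  set m := ∏ t ∈ D, t with hm
  set B' : Finset (Fin k → ℕ) := (Fintype.piFinset (fun _ : Fin k => range m)).filter
      (fun b => ∀ t ∈ D, ∃ i, ¬ t ∣ b i) with hB'
  have hinj2 : Set.InjOn (ex 0) (B' : Set (Fin k → ℕ)) := by
    intro u _ u' _ h
    funext i
    have h1 := congrFun h (e i)
    simp only [hex] at h1
    rw [dif_pos (e i).2, dif_pos (e i).2] at h1
    simpa using h1
  refine ⟨B'.image (ex 0), ?_, ?_⟩
  · intro b hb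
    rw [Finset.mem_image] at hb
    obtain ⟨u, hu, rfl⟩ := hb
    rw [hB', Finset.mem_filter, Fintype.mem_piFinset] at hu
    refine ⟨fun i hi => ?_, fun i hi => ?_, fun t ht => ?_⟩
    · simp only [hex]
      rw [dif_pos hi]
      exact Finset.mem_range.1 (hu.1 _)
    · simp only [hex]
      rw [dif_neg hi]
      rfl
    · obtain ⟨i, hi⟩ := hu.2 t ht
      refine ⟨e i, ?_⟩
      simp only [hex]
      rw [dif_pos (e i).2]
      simpa using hi
  · have h1 := Pool.Agent.Q51.EL.LSVp.lowV η k D (Z.image ρ)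
      (fun t => Z.image (fun z i => ((z (e i) : ℕ) : ZMod t))) hp hη (fun t ht => by
        refine le_trans (le_of_eq ?_) (hcl t ht)
        have h2 : (fun (u : S → ZMod t) (i : Fin k) => u (e i)) ''
            ((fun (z : ι → ℕ) (i : S) => ((z i : ℕ) : ZMod t)) '' (Z : Set (ι → ℕ))) =
            ((Z.image (fun z i => ((z (e i) : ℕ) : ZMod t)) : Finset (Fin k → ZMod t)) :
              Set (Fin k → ZMod t)) := by
          rw [Set.image_image, Finset.coe_image]
        have h3 : Function.Injective (fun (u : S → ZMod t) (i : Fin k) => u (e i)) := by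
          intro u u' h
          funext i
          have := congrFun h (e.symm i)
          simpa using this
        rw [← Set.ncard_image_of_injective _ h3, h2, Set.ncard_coe_finset])
      (fun z hz t _ => by
        rw [Finset.mem_image] at hz
        obtain ⟨z0, hz0, rfl⟩ := hz
        exact Finset.mem_image.2 ⟨z0, hz0, rfl⟩) (fun u => c (ex w u))
    rw [Finset.sum_image hinj] at h1
    have h4 : ∑ z ∈ Z, c (ex w (ρ z)) = ∑ z ∈ Z, c z :=
      Finset.sum_congr rfl fun z hz => by rw [hexρ z hz]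
    rw [h4] at h1
    refine h1.trans (le_of_eq ?_)
    rw [Finset.sum_image hinj2]
    refine Finset.sum_congr rfl fun u _ => ?_
    rw [Finset.sum_image hinj]
    congr 2
    refine Finset.sum_congr rfl fun z hz => ?_
    rw [hexρ z hz]
    congr 2
    have h5 : ∑ i : Fin k, ((ρ z i : ℕ) : ℝ) * (u i : ℝ) / ((m : ℕ) : ℝ) =
        ∑ i : S, (z i : ℝ) * (ex 0 u i : ℝ) / ((m : ℕ) : ℝ) := by
      rw [← Equiv.sum_comp e]
      refine Finset.sum_congr rfl fun i _ => ?_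
      simp only [hex, hρ]
      rw [dif_pos (e i).2]
      simp
    rw [h5, Finset.sum_coe_sort S (fun i => (z i : ℝ) * (ex 0 u i : ℝ) / ((m : ℕ) : ℝ))]
    refine Finset.sum_subset (Finset.subset_univ S) fun i _ hi => ?_
    simp only [hex]
    rw [dif_neg hi]
    simp

end

/-- a rational number as a pair -/
def tp (x : ℚ) : ℕ × ℕ := (x.den, x.num.toNat)

theorem tp_mem {x : ℚ} (h0 : 0 ≤ x) (h1 : x < 1) {Q : ℕ} (hQ : x.den ≤ Q) : tp x ∈ Far Q := by
  have hn : 0 ≤ x.num := Rat.num_nonneg.2 h0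
  have hd : 0 < x.den := x.den_pos
  have hlt : x.num < x.den := by
    have := Rat.lt_iff x 1 |>.1 h1
    simpa using this
  have hlt' : x.num.toNat < x.den := by omega
  unfold Far tp
  rw [Finset.mem_filter, Finset.mem_product, Finset.mem_Icc, Finset.mem_range]
  refine ⟨⟨⟨hd, hQ⟩, ?_⟩, hlt', ?_⟩
  · show x.num.toNat < Q
    omega
  · show Nat.Coprime x.num.toNat x.den
    have := x.reduced
    have h2 : x.num.natAbs = x.num.toNat := by omega
    rwa [h2] at this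

theorem tp_inj {x y : ℚ} (hx : 0 ≤ x) (hy : 0 ≤ y) (h : tp x = tp y) : x = y := by
  have hn : 0 ≤ x.num := Rat.num_nonneg.2 hx
  have hn' : 0 ≤ y.num := Rat.num_nonneg.2 hy
  unfold tp at h
  rw [Prod.mk.injEq] at h
  apply Rat.ext
  · omega
  · exact h.1

theorem tp_val {x : ℚ} (hx : 0 ≤ x) : ((tp x).2 : ℝ) / ((tp x).1 : ℝ) = (x : ℝ) := by
  have hn : 0 ≤ x.num := Rat.num_nonneg.2 hx
  unfold tp
  have h1 : ((x.num.toNat : ℕ) : ℝ) = (x.num : ℝ) := by
    have : ((x.num.toNat : ℕ) : ℤ) = x.num := Int.toNat_of_nonneg hn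
    exact_mod_cast this
  show ((x.num.toNat : ℕ) : ℝ) / (x.den : ℝ) = (x : ℝ)
  rw [h1, Rat.cast_def]

theorem tp_zero : tp 0 = (1, 0) := rfl

/-- two numbers with coprime denominators and integral sum -/
theorem cop_int {u v : ℕ} (huv : Nat.Coprime u v) (hu : 0 < u) (hv : 0 < v) {p s n : ℤ}
    (h : (p : ℚ) / u + (s : ℚ) / v = n) : (u : ℤ) ∣ p ∧ (v : ℤ) ∣ s := by
  have hu' : (u : ℚ) ≠ 0 := by positivity
  have hv' : (v : ℚ) ≠ 0 := by positivity
  have h1 : (p : ℚ) * v + s * u = n * u * v := by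
    field_simp at h
    linarith
  have h2 : p * v + s * u = n * u * v := by exact_mod_cast h1
  have huv' : IsCoprime (u : ℤ) (v : ℤ) := Nat.isCoprime_iff_coprime.2 huv
  constructor
  · have h3 : (u : ℤ) ∣ p * v := ⟨n * v - s, by linarith⟩
    exact huv'.dvd_of_dvd_mul_right h3
  · have h3 : (v : ℤ) ∣ s * u := ⟨n * u - p, by linarith⟩
    exact huv'.symm.dvd_of_dvd_mul_right h3

section

variable {ι : Type} [Fintype ι] [DecidableEq ι]

/-- the sum of the fractions -/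
def fr (r : ι → ℕ × ℕ) (m : ℕ) (b : ι → ℕ) (i : ι) : ℚ :=
  Int.fract (((r i).2 : ℚ) / (r i).1 + (b i : ℚ) / m)

/-- the vector of the sums of the fractions -/
def Psi (x : (ι → ℕ × ℕ) × (_ : Finset ℕ) × (ι → ℕ)) : ι → ℕ × ℕ :=
  fun i => tp (fr x.1 (∏ t ∈ x.2.1, t) x.2.2 i)

theorem den_fr {r : ι → ℕ × ℕ} {m q Q : ℕ} {b : ι → ℕ} {i : ι} (hr : (r i).1 ≤ q)
    (hr0 : 0 < (r i).1) (hm : 0 < m) (hmQ : m ≤ Q) : (fr r m b i).den ≤ q * Q := by
  have h1 : (fr r m b i).den ∣ (r i).1 * m := by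
    have h2 : fr r m b i = ((((r i).2 : ℤ) * m + (b i : ℤ) * (r i).1 -
        ⌊(((r i).2 : ℚ) / (r i).1 + (b i : ℚ) / m)⌋ * ((r i).1 * m) : ℤ) : ℚ) /
        (((r i).1 * m : ℕ) : ℚ) := by
      unfold fr
      rw [← Int.self_sub_floor]
      have h3 : ((r i).1 : ℚ) ≠ 0 := by positivity
      have h4 : (m : ℚ) ≠ 0 := by positivity
      push_cast
      field_simp
    rw [h2]
    have := Rat.den_dvd ((((r i).2 : ℤ) * m + (b i : ℤ) * (r i).1 -
        ⌊(((r i).2 : ℚ) / (r i).1 + (b i : ℚ) / m)⌋ * ((r i).1 * m) : ℤ)) (((r i).1 * m : ℕ) : ℤ)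
    rw [Rat.divInt_eq_div] at this
    have h5 : (((((r i).1 * m : ℕ) : ℤ)) : ℚ) = (((r i).1 * m : ℕ) : ℚ) := by push_cast; rfl
    rw [h5] at this
    exact_mod_cast this
  calc (fr r m b i).den ≤ (r i).1 * m := Nat.le_of_dvd (Nat.mul_pos hr0 hm) h1
    _ ≤ q * Q := Nat.mul_le_mul hr hmQ

theorem EE_Psi (z : ι → ℕ) (r : ι → ℕ × ℕ) (D : Finset ℕ) (b : ι → ℕ) :
    EE z (Psi (r, ⟨D, b⟩)) =
      EE z r * ee (∑ i, (z i : ℝ) * (b i : ℝ) / ((∏ t ∈ D, t : ℕ) : ℝ)) := by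
  unfold EE
  rw [← ls_ee_add, ← Finset.sum_add_distrib]
  set m := ∏ t ∈ D, t with hm
  have h1 : ∑ i, ((z i : ℝ) * (r i).2 / (r i).1 + (z i : ℝ) * (b i : ℝ) / (m : ℝ)) =
      ∑ i, (z i : ℝ) * (Psi (r, ⟨D, b⟩) i).2 / (Psi (r, ⟨D, b⟩) i).1 +
      ((∑ i, (z i : ℤ) * ⌊(((r i).2 : ℚ) / (r i).1 + (b i : ℚ) / m)⌋ : ℤ) : ℝ) := by
    push_cast
    rw [← Finset.sum_add_distrib]
    refine Finset.sum_congr rfl fun i _ => ?_
    have h2 : ((Psi (r, ⟨D, b⟩) i).2 : ℝ) / ((Psi (r, ⟨D, b⟩) i).1 : ℝ) =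
        ((fr r m b i : ℚ) : ℝ) := tp_val (Int.fract_nonneg _)
    rw [mul_div_assoc, mul_div_assoc, mul_div_assoc, h2]
    unfold fr
    rw [← Int.self_sub_floor]
    push_cast
    ring
  rw [h1, ls_ee_add, ls_ee_int, mul_one]

theorem Psi_mem {S : Finset ι} {q Q : ℕ} {r : ι → ℕ × ℕ} (hr : r ∈ RS S q) {D : Finset ℕ}
    (hD : ∀ t ∈ D, t.Prime) (hQ : ∏ t ∈ D, t ≤ Q) {b : ι → ℕ} (hb : b ∈ BS S D) :
    Psi (r, ⟨D, b⟩) ∈ RS S (q * Q) := by
  have hm : 0 < ∏ t ∈ D, t := Finset.prod_pos fun t ht => (hD t ht).pos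
  rw [RS, Fintype.mem_piFinset] at hr ⊢
  intro i
  have h1 := hr i
  by_cases hi : i ∈ S
  · rw [if_pos hi] at h1 ⊢
    unfold Far at h1
    rw [Finset.mem_filter, Finset.mem_product, Finset.mem_Icc] at h1
    exact tp_mem (Int.fract_nonneg _) (Int.fract_lt_one _) (den_fr h1.1.1.2 h1.1.1.1 hm hQ)
  · rw [if_neg hi] at h1 ⊢
    rw [Finset.mem_singleton] at h1 ⊢
    have h2 : fr r (∏ t ∈ D, t) b i = 0 := by
      unfold fr
      rw [h1, hb.2.1 i hi]
      simp
    show tp (fr r (∏ t ∈ D, t) b i) = (1, 0)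
    rw [h2, tp_zero]

theorem Psi_inj {S : Finset ι} {q : ℕ} {r r' : ι → ℕ × ℕ} (hr : r ∈ RS S q) (hr' : r' ∈ RS S q)
    {D D' : Finset ℕ} (hD : ∀ t ∈ D, t.Prime ∧ q < t) (hD' : ∀ t ∈ D', t.Prime ∧ q < t)
    {b b' : ι → ℕ} (hb : b ∈ BS S D) (hb' : b' ∈ BS S D')
    (h : Psi (r, ⟨D, b⟩) = Psi (r', ⟨D', b'⟩)) : r = r' ∧ D = D' ∧ b = b' := by
  have hm : 0 < ∏ t ∈ D, t := Finset.prod_pos fun t ht => (hD t ht).1.pos
  have hm' : 0 < ∏ t ∈ D', t := Finset.prod_pos fun t ht => (hD' t ht).1.pos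
  have hq : ∀ {D : Finset ℕ}, (∀ t ∈ D, t.Prime ∧ q < t) → ∀ x : ℕ, 0 < x → x ≤ q →
      Nat.Coprime x (∏ t ∈ D, t) := by
    intro D hD x hx hxq
    refine Nat.Coprime.prod_right fun t ht => ?_
    exact (Nat.coprime_of_lt_prime hx.ne' (lt_of_le_of_lt hxq (hD t ht).2) (hD t ht).1).symm
  have key : ∀ i, r i = r' i ∧ b i * ∏ t ∈ D', t = b' i * ∏ t ∈ D, t := by
    intro i
    by_cases hi : i ∈ S
    · have h1 := hr
      have h1' := hr'
      rw [RS, Fintype.mem_piFinset] at h1 h1'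
      have h2 := h1 i
      have h2' := h1' i
      rw [if_pos hi] at h2 h2'
      unfold Far at h2 h2'
      rw [Finset.mem_filter, Finset.mem_product, Finset.mem_Icc] at h2 h2'
      obtain ⟨⟨⟨hf0, hfq⟩, _⟩, hlt, hco⟩ := h2
      obtain ⟨⟨⟨hf0', hfq'⟩, _⟩, hlt', hco'⟩ := h2'
      have h3 : fr r (∏ t ∈ D, t) b i = fr r' (∏ t ∈ D', t) b' i :=
        tp_inj (Int.fract_nonneg _) (Int.fract_nonneg _) (congrFun h i)
      unfold fr at h3
      rw [← Int.self_sub_floor, ← Int.self_sub_floor] at h3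
      set m := ∏ t ∈ D, t with hmdef
      set m' := ∏ t ∈ D', t with hm'def
      have hf0r : ((r i).1 : ℚ) ≠ 0 := by
        have : 0 < (r i).1 := hf0
        positivity
      have hf0r' : ((r' i).1 : ℚ) ≠ 0 := by
        have : 0 < (r' i).1 := hf0'
        positivity
      have hmr : (m : ℚ) ≠ 0 := by positivity
      have hmr' : (m' : ℚ) ≠ 0 := by positivity
      have h4 : (((((r i).2 : ℤ) * (r' i).1 - (r' i).2 * (r i).1 : ℤ)) : ℚ) /
          (((r i).1 * (r' i).1 : ℕ) : ℚ) +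
          ((((b i : ℤ) * m' - b' i * m : ℤ)) : ℚ) / ((m * m' : ℕ) : ℚ) =
          ((⌊((r i).2 : ℚ) / (r i).1 + (b i : ℚ) / m⌋ -
            ⌊((r' i).2 : ℚ) / (r' i).1 + (b' i : ℚ) / m'⌋ : ℤ) : ℚ) := by
        have e1 : (((((r i).2 : ℤ) * (r' i).1 - (r' i).2 * (r i).1 : ℤ)) : ℚ) /
          (((r i).1 * (r' i).1 : ℕ) : ℚ) = ((r i).2 : ℚ) / (r i).1 - ((r' i).2 : ℚ) / (r' i).1 := by
          push_cast
          field_simp
        have e2 : ((((b i : ℤ) * m' - b' i * m : ℤ)) : ℚ) / ((m * m' : ℕ) : ℚ) =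
            (b i : ℚ) / m - (b' i : ℚ) / m' := by
          push_cast
          field_simp
        rw [e1, e2]
        push_cast
        linarith
      have hcop : Nat.Coprime ((r i).1 * (r' i).1) (m * m') := by
        refine Nat.Coprime.mul_left ?_ ?_ <;> refine Nat.Coprime.mul_right ?_ ?_
        · exact hq hD _ hf0 hfq
        · exact hq hD' _ hf0 hfq
        · exact hq hD _ hf0' hfq'
        · exact hq hD' _ hf0' hfq'
      obtain ⟨h5, h6⟩ := cop_int hcop (Nat.mul_pos hf0 hf0') (Nat.mul_pos hm hm') h4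
      have h7 : ((r i).2 : ℤ) * (r' i).1 - (r' i).2 * (r i).1 = 0 := by
        apply Int.eq_zero_of_abs_lt_dvd h5
        have a1 : (r i).2 * (r' i).1 < (r i).1 * (r' i).1 := Nat.mul_lt_mul_of_pos_right hlt hf0'
        have a2 : (r' i).2 * (r i).1 < (r i).1 * (r' i).1 := by
          rw [mul_comm (r i).1]
          exact Nat.mul_lt_mul_of_pos_right hlt' hf0
        rw [abs_lt]
        zify at a1 a2
        push_cast
        constructor <;> nlinarith
      have hbi : b i < m := hb.1 i hi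
      have hbi' : b' i < m' := hb'.1 i hi
      have h8 : (b i : ℤ) * m' - b' i * m = 0 := by
        apply Int.eq_zero_of_abs_lt_dvd h6
        have a1 : b i * m' < m * m' := Nat.mul_lt_mul_of_pos_right hbi hm'
        have a2 : b' i * m < m * m' := by
          rw [mul_comm m]
          exact Nat.mul_lt_mul_of_pos_right hbi' hm
        rw [abs_lt]
        zify at a1 a2
        push_cast
        constructor <;> nlinarith
      have h9 : (r i).2 * (r' i).1 = (r' i).2 * (r i).1 := by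
        have : ((r i).2 : ℤ) * (r' i).1 = (r' i).2 * (r i).1 := by linarith
        exact_mod_cast this
      have h10 : b i * m' = b' i * m := by
        have : (b i : ℤ) * m' = b' i * m := by linarith
        exact_mod_cast this
      have h11 : (r i).1 = (r' i).1 := by
        apply Nat.dvd_antisymm
        · have : (r i).1 ∣ (r i).2 * (r' i).1 := by rw [h9]; exact Dvd.intro_left _ rfl
          exact hco.symm.dvd_of_dvd_mul_left this
        · have : (r' i).1 ∣ (r' i).2 * (r i).1 := by rw [← h9]; exact Dvd.intro_left _ rfl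
          exact hco'.symm.dvd_of_dvd_mul_left this
      refine ⟨Prod.ext h11 ?_, h10⟩
      rw [h11] at h9
      exact Nat.eq_of_mul_eq_mul_right hf0' h9
    · have h1 := hr
      have h1' := hr'
      rw [RS, Fintype.mem_piFinset] at h1 h1'
      have h2 := h1 i
      have h2' := h1' i
      rw [if_neg hi, Finset.mem_singleton] at h2 h2'
      refine ⟨by rw [h2, h2'], ?_⟩
      rw [hb.2.1 i hi, hb'.2.1 i hi]
      simp
  have hDD : ∀ {D D' : Finset ℕ} {b b' : ι → ℕ}, (∀ t ∈ D, t.Prime ∧ q < t) →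
      (∀ t ∈ D', t.Prime ∧ q < t) → b ∈ BS S D →
      (∀ i, b i * ∏ t ∈ D', t = b' i * ∏ t ∈ D, t) → D ⊆ D' := by
    intro D D' b b' hD hD' hb hk t ht
    obtain ⟨i, hi⟩ := hb.2.2 t ht
    have h1 : t ∣ b i * ∏ t ∈ D', t := by
      rw [hk i]
      exact Dvd.dvd.mul_left (Finset.dvd_prod_of_mem (fun t => t) ht) _
    rcases ((hD t ht).1.dvd_mul).1 h1 with h2 | h2
    · exact absurd h2 hi
    · obtain ⟨s, hs, h3⟩ := ((hD t ht).1.prime.dvd_finsetProd_iff _).1 h2
      rwa [(Nat.prime_dvd_prime_iff_eq (hD t ht).1 (hD' s hs).1).1 h3]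
  have hDe : D = D' := Finset.Subset.antisymm (hDD hD hD' hb (fun i => (key i).2))
    (hDD hD' hD hb' (fun i => (key i).2.symm))
  refine ⟨funext fun i => (key i).1, hDe, funext fun i => ?_⟩
  have h1 := (key i).2
  rw [hDe] at h1
  exact Nat.eq_of_mul_eq_mul_right hm' h1

theorem step (N a : ι → ℕ) (Z : Finset (ι → ℕ)) (S : Finset ι) (q Q : ℕ) (P : Finset ℕ)
    (η : ℕ → ℝ) (hP : ∀ t ∈ P, t.Prime ∧ q < t ∧ 0 < η t)
    (hcl : ∀ t ∈ P, ∀ w ∈ Z, ((((fun (z : ι → ℕ) (i : S) => ((z i : ℕ) : ZMod t)) ''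
      {z | z ∈ Z ∧ ∀ i, i ∉ S → z i = w i}).ncard : ℕ) : ℝ) ≤ (1 - η t) * (t : ℝ) ^ S.card) :
    (∑ D ∈ P.powerset.filter (fun D => ∏ t ∈ D, t ≤ Q), ∏ t ∈ D, η t) * V N a Z S q ≤
      V N a Z S (q * Q) := by
  classical
  unfold V
  rw [Finset.mul_sum]
  refine Finset.sum_le_sum fun w _ => ?_
  rcases Finset.eq_empty_or_nonempty (cl Z S w) with h0 | ⟨w0, hw0⟩
  · rw [h0]
    simp
  set Fa := P.powerset.filter (fun D => ∏ t ∈ D, t ≤ Q) with hFa
  have hFaP : ∀ D ∈ Fa, (∀ t ∈ D, t ∈ P) ∧ ∏ t ∈ D, t ≤ Q := by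
    intro D hD
    rw [hFa, Finset.mem_filter, Finset.mem_powerset] at hD
    exact ⟨fun t ht => hD.1 ht, hD.2⟩
  have hw0' := Finset.mem_filter.1 hw0
  have hset : ((cl Z S w : Finset (ι → ℕ)) : Set (ι → ℕ)) =
      {z | z ∈ Z ∧ ∀ i, i ∉ S → z i = w0 i} := by
    ext z
    simp only [cl, Finset.coe_filter, Set.mem_ofPred_eq]
    constructor
    · rintro ⟨h1, h2⟩
      exact ⟨h1, fun i hi => by rw [h2 i hi, hw0'.2 i hi]⟩
    · rintro ⟨h1, h2⟩
      exact ⟨h1, fun i hi => by rw [h2 i hi, hw0'.2 i hi]⟩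
  have hlow : ∀ (D : Finset ℕ) (r : ι → ℕ × ℕ), ∃ B : Finset (ι → ℕ), D ∈ Fa →
      (∀ b ∈ B, b ∈ BS S D) ∧
      (∏ t ∈ D, η t) * ‖∑ z ∈ cl Z S w, EE z r‖ ^ 2 ≤
      ∑ b ∈ B, ‖∑ z ∈ cl Z S w, EE z (Psi (r, ⟨D, b⟩))‖ ^ 2 := by
    intro D r
    by_cases hD : D ∈ Fa
    · have hDP := hFaP D hD
      obtain ⟨B, hB1, hB2⟩ := low' η D S (cl Z S w) w (fun z hz => (Finset.mem_filter.1 hz).2)
        (fun t ht => (hP t (hDP.1 t ht)).1) (fun t ht => (hP t (hDP.1 t ht)).2.2)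
        (fun t ht => by rw [hset]; exact hcl t (hDP.1 t ht) w0 hw0'.1) (fun z => EE z r)
      refine ⟨B, fun _ => ⟨hB1, hB2.trans (le_of_eq ?_)⟩⟩
      refine Finset.sum_congr rfl fun b _ => ?_
      congr 2
      refine Finset.sum_congr rfl fun z _ => ?_
      rw [EE_Psi]
    · exact ⟨∅, fun h => absurd h hD⟩
  choose B hB using hlow
  set F : (ι → ℕ × ℕ) → ℝ := fun r => ‖∑ z ∈ cl Z S w, EE z r‖ ^ 2 with hF
  have hF0 : ∀ r, 0 ≤ F r := fun r => by simp only [hF]; positivity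
  set X : Finset ((ι → ℕ × ℕ) × (_ : Finset ℕ) × (ι → ℕ)) :=
    (RS S q).biUnion (fun r => (Fa.sigma (fun D => B D r)).image (fun y => (r, y))) with hX
  have hXmem : ∀ x, x ∈ X ↔ x.1 ∈ RS S q ∧ x.2.1 ∈ Fa ∧ x.2.2 ∈ B x.2.1 x.1 := by
    rintro ⟨r, D, b⟩
    rw [hX, Finset.mem_biUnion]
    constructor
    · rintro ⟨r1, hr1, h1⟩
      rw [Finset.mem_image] at h1
      obtain ⟨⟨D1, b1⟩, h2, h3⟩ := h1
      rw [Finset.mem_sigma] at h2
      simp only [Prod.mk.injEq, Sigma.mk.injEq, heq_eq_eq] at h3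
      obtain ⟨rfl, rfl, rfl⟩ := h3
      exact ⟨hr1, h2.1, h2.2⟩
    · rintro ⟨h1, h2, h3⟩
      exact ⟨r, h1, Finset.mem_image.2 ⟨⟨D, b⟩, Finset.mem_sigma.2 ⟨h2, h3⟩, rfl⟩⟩
  have hXsum : ∀ G : ((ι → ℕ × ℕ) × (_ : Finset ℕ) × (ι → ℕ)) → ℝ, ∑ x ∈ X, G x =
      ∑ r ∈ RS S q, ∑ D ∈ Fa, ∑ b ∈ B D r, G (r, ⟨D, b⟩) := by
    intro G
    rw [hX, Finset.sum_biUnion]
    · refine Finset.sum_congr rfl fun r _ => ?_
      rw [Finset.sum_image (fun x _ y _ h => (Prod.mk.inj h).2), Finset.sum_sigma]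
    · intro r _ r' _ hne
      rw [Function.onFun, Finset.disjoint_left]
      rintro x hx hx'
      rw [Finset.mem_image] at hx hx'
      obtain ⟨y, _, rfl⟩ := hx
      obtain ⟨y', _, h⟩ := hx'
      exact hne (Prod.mk.inj h).1.symm
  have hinj : Set.InjOn Psi (X : Set ((ι → ℕ × ℕ) × (_ : Finset ℕ) × (ι → ℕ))) := by
    rintro ⟨r, D, b⟩ hx ⟨r', D', b'⟩ hx' h
    rw [Finset.mem_coe, hXmem] at hx hx'
    obtain ⟨h1, h2, h3⟩ := Psi_inj hx.1 hx'.1
      (fun t ht => ⟨(hP t ((hFaP D hx.2.1).1 t ht)).1, (hP t ((hFaP D hx.2.1).1 t ht)).2.1⟩)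
      (fun t ht => ⟨(hP t ((hFaP D' hx'.2.1).1 t ht)).1, (hP t ((hFaP D' hx'.2.1).1 t ht)).2.1⟩)
      ((hB D r hx.2.1).1 b hx.2.2) ((hB D' r' hx'.2.1).1 b' hx'.2.2) h
    subst h1 h2 h3
    rfl
  have hsub : X.image Psi ⊆ RS S (q * Q) := by
    intro y hy
    rw [Finset.mem_image] at hy
    obtain ⟨⟨r, D, b⟩, hx, rfl⟩ := hy
    rw [hXmem] at hx
    exact Psi_mem hx.1 (fun t ht => (hP t ((hFaP D hx.2.1).1 t ht)).1) (hFaP D hx.2.1).2
      ((hB D r hx.2.1).1 b hx.2.2)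
  calc (∑ D ∈ Fa, ∏ t ∈ D, η t) * ∑ r ∈ RS S q, F r
      = ∑ r ∈ RS S q, ∑ D ∈ Fa, (∏ t ∈ D, η t) * F r := by
        rw [Finset.mul_sum]
        exact Finset.sum_congr rfl fun r _ => Finset.sum_mul _ _ _
    _ ≤ ∑ r ∈ RS S q, ∑ D ∈ Fa, ∑ b ∈ B D r, F (Psi (r, ⟨D, b⟩)) :=
        Finset.sum_le_sum fun r _ => Finset.sum_le_sum fun D hD => (hB D r hD).2
    _ = ∑ x ∈ X, F (Psi x) := (hXsum (fun x => F (Psi x))).symm
    _ = ∑ y ∈ X.image Psi, F y := (Finset.sum_image hinj).symm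
    _ ≤ ∑ y ∈ RS S (q * Q), F y :=
        Finset.sum_le_sum_of_subset_of_nonneg hsub fun y _ _ => hF0 y

theorem V_univ (N a : ι → ℕ) (Z : Finset (ι → ℕ)) : V N a Z univ 1 = (Z.card : ℝ) ^ 2 := by
  have h1 : WS N a univ = {fun _ => 0} := by
    ext w
    rw [WS, Fintype.mem_piFinset, Finset.mem_singleton]
    simp only [Finset.mem_univ, if_true, Finset.mem_singleton]
    exact ⟨fun h => funext h, fun h i => congrFun h i⟩
  have hfar : Far 1 = {(1, 0)} := by decide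
  have h2 : RS (univ : Finset ι) 1 = {fun _ => (1, 0)} := by
    ext w
    rw [RS, Fintype.mem_piFinset, Finset.mem_singleton]
    simp only [Finset.mem_univ, if_true, hfar, Finset.mem_singleton]
    exact ⟨fun h => funext h, fun h i => congrFun h i⟩
  have h3 : ∀ z : ι → ℕ, EE z (fun _ => ((1 : ℕ), (0 : ℕ))) = 1 := by
    intro z
    unfold EE
    simp [ls_ee_zero]
  have h4 : cl Z univ (fun _ => 0) = Z := by
    unfold cl
    rw [Finset.filter_true_of_mem]
    intro z _ i hi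
    exact absurd (Finset.mem_univ i) hi
  unfold V
  rw [h1, h2, Finset.sum_singleton, Finset.sum_singleton, h4, Finset.sum_congr rfl fun z _ => h3 z]
  simp

theorem V_empty (N a : ι → ℕ) (Z : Finset (ι → ℕ)) (q : ℕ) : V N a Z ∅ q ≤ (Z.card : ℝ) := by
  have h2 : RS (∅ : Finset ι) q = {fun _ => (1, 0)} := by
    ext w
    rw [RS, Fintype.mem_piFinset, Finset.mem_singleton]
    simp only [Finset.notMem_empty, if_false, Finset.mem_singleton]
    exact ⟨fun h => funext h, fun h i => congrFun h i⟩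
  have h3 : ∀ z : ι → ℕ, EE z (fun _ => ((1 : ℕ), (0 : ℕ))) = 1 := by
    intro z
    unfold EE
    simp [ls_ee_zero]
  have h4 : ∀ w, cl Z ∅ w = if w ∈ Z then {w} else ∅ := by
    intro w
    ext z
    simp only [cl, Finset.mem_filter, Finset.notMem_empty, not_false_eq_true, true_implies]
    split_ifs with h
    · rw [Finset.mem_singleton]
      constructor
      · rintro ⟨_, h5⟩
        exact funext h5
      · rintro rfl
        exact ⟨h, fun _ => rfl⟩
    · simp only [Finset.notMem_empty, iff_false]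
      rintro ⟨h5, h6⟩
      exact h (by rwa [← funext h6])
  unfold V
  rw [h2]
  have h5 : ∀ w ∈ WS N a (∅ : Finset ι), ∑ r ∈ {fun _ : ι => ((1 : ℕ), (0 : ℕ))},
      ‖∑ z ∈ cl Z ∅ w, EE z r‖ ^ 2 = if w ∈ Z then (1 : ℝ) else 0 := by
    intro w _
    rw [Finset.sum_singleton, h4]
    split_ifs with h
    · rw [Finset.sum_singleton, h3]
      simp
    · simp
  rw [Finset.sum_congr rfl h5, ← Finset.sum_filter, Finset.sum_const, nsmul_eq_mul, mul_one]
  have h6 : (WS N a (∅ : Finset ι)).filter (fun w => w ∈ Z) ⊆ Z := by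
    intro w hw
    exact (Finset.mem_filter.1 hw).2
  exact_mod_cast Finset.card_le_card h6

end

theorem main : S_MS := by
  intro ι _ _ s A P Q η N a Z hA hQ hP hN hZ hcl
  classical
  have hanti : ∀ j j', j ≤ j' → A j' ⊆ A j := by
    intro j j' h
    induction h with
    | refl => exact Finset.Subset.refl _
    | step _ ih => exact (hA _).trans ih
  set q : ℕ → ℕ := fun j => ∏ j' ∈ range j, Q j' with hq
  set G : ℕ → ℝ := fun j =>
    ∑ D ∈ (P j).powerset.filter (fun D => ∏ t ∈ D, t ≤ Q j), ∏ t ∈ D, η j t with hG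
  have hqN : ∀ j, j ≤ s → ∀ i, (∀ j' < j, i ∈ A j') → q j ^ 2 ≤ N i := by
    intro j hj i hi
    refine le_trans ?_ (hN i)
    apply Nat.pow_le_pow_left
    apply Finset.prod_le_prod_of_subset_of_one_le'
    · intro j' hj'
      rw [Finset.mem_range] at hj'
      rw [Finset.mem_filter, Finset.mem_range]
      exact ⟨by omega, hi j' hj'⟩
    · intro j' _ _
      exact hQ j'
  have hmain : ∀ j, j ≤ s → (Z.card : ℝ) ^ 2 * ∏ j' ∈ range j, G j' ≤
      (∏ i ∈ univ \ A j, (12 * (N i : ℝ))) * V N a Z (A j) (q j) := by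
    intro j
    induction j with
    | zero =>
      intro _
      have h1 := ups N a Z hZ (A 0) 1 (univ \ A 0) Finset.sdiff_disjoint (fun i _ => by
        have := hqN 0 (Nat.zero_le _) i (fun j' hj' => absurd hj' (Nat.not_lt_zero _))
        simpa [hq] using this)
      rw [Finset.sdiff_union_of_subset (Finset.subset_univ _), V_univ] at h1
      simpa [hq] using h1
    | succ j ih =>
      intro hj
      have hjs : j < s := by omega
      have h1 := ih (by omega)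
      have h2 := step N a Z (A j) (q j) (Q j) (P j) (η j) (fun t ht => hP j hjs t ht)
        (fun t ht w hw => hcl j hjs t ht w hw)
      have hqs : q j * Q j = q (j + 1) := by
        simp only [hq]
        rw [Finset.prod_range_succ]
      rw [hqs] at h2
      have hG0 : 0 ≤ G j := by
        simp only [hG]
        refine Finset.sum_nonneg fun D hD => Finset.prod_nonneg fun t ht => ?_
        rw [Finset.mem_filter, Finset.mem_powerset] at hD
        exact (hP j hjs t (hD.1 ht)).2.2.le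
      have h3 := ups N a Z hZ (A (j + 1)) (q (j + 1)) (A j \ A (j + 1)) Finset.sdiff_disjoint
        (fun i hi => hqN (j + 1) hj i (fun j' hj' =>
          hanti j' j (by omega) (Finset.mem_sdiff.1 hi).1))
      rw [Finset.sdiff_union_of_subset (hA j)] at h3
      have hprod0 : 0 ≤ ∏ i ∈ univ \ A j, (12 * (N i : ℝ)) :=
        Finset.prod_nonneg fun i _ => by positivity
      have hsd : univ \ A (j + 1) = (univ \ A j) ∪ (A j \ A (j + 1)) := by
        ext i
        simp only [Finset.mem_sdiff, Finset.mem_univ, true_and, Finset.mem_union]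
        constructor
        · intro h
          by_cases h4 : i ∈ A j
          · exact Or.inr ⟨h4, h⟩
          · exact Or.inl h4
        · rintro (h | h)
          · exact fun h5 => h (hA j h5)
          · exact h.2
      have hdis : Disjoint (univ \ A j) (A j \ A (j + 1)) := by
        rw [Finset.disjoint_left]
        intro i h4 h5
        exact (Finset.mem_sdiff.1 h4).2 (Finset.mem_sdiff.1 h5).1
      rw [Finset.prod_range_succ, hsd, Finset.prod_union hdis]
      calc (Z.card : ℝ) ^ 2 * ((∏ j' ∈ range j, G j') * G j)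
          = G j * ((Z.card : ℝ) ^ 2 * ∏ j' ∈ range j, G j') := by ring
        _ ≤ G j * ((∏ i ∈ univ \ A j, (12 * (N i : ℝ))) * V N a Z (A j) (q j)) :=
            mul_le_mul_of_nonneg_left h1 hG0
        _ = (∏ i ∈ univ \ A j, (12 * (N i : ℝ))) * (G j * V N a Z (A j) (q j)) := by ring
        _ ≤ (∏ i ∈ univ \ A j, (12 * (N i : ℝ))) * V N a Z (A j) (q (j + 1)) :=
            mul_le_mul_of_nonneg_left h2 hprod0
        _ ≤ (∏ i ∈ univ \ A j, (12 * (N i : ℝ))) *
            ((∏ i ∈ A j \ A (j + 1), (12 * (N i : ℝ))) * V N a Z (A (j + 1)) (q (j + 1))) :=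
            mul_le_mul_of_nonneg_left h3 hprod0
        _ = _ := by ring
  have h1 := hmain s le_rfl
  have h2 := ups N a Z hZ ∅ (q s) (A s) (Finset.disjoint_empty_right _)
    (fun i hi => hqN s le_rfl i (fun j' hj' => hanti j' s hj'.le hi))
  rw [Finset.union_empty] at h2
  have h3 := V_empty N a Z (q s)
  have hprod0 : 0 ≤ ∏ i ∈ univ \ A s, (12 * (N i : ℝ)) :=
    Finset.prod_nonneg fun i _ => by positivity
  have hprod1 : 0 ≤ ∏ i ∈ A s, (12 * (N i : ℝ)) := Finset.prod_nonneg fun i _ => by positivity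
  have h4 : (Z.card : ℝ) ^ 2 * ∏ j' ∈ range s, G j' ≤ (∏ i, (12 * (N i : ℝ))) * Z.card := by
    have h5 : (univ : Finset ι) = (univ \ A s) ∪ A s :=
      (Finset.sdiff_union_of_subset (Finset.subset_univ _)).symm
    have h6 : ∏ i, (12 * (N i : ℝ)) =
        (∏ i ∈ univ \ A s, (12 * (N i : ℝ))) * ∏ i ∈ A s, (12 * (N i : ℝ)) := by
      rw [← Finset.prod_union Finset.sdiff_disjoint, ← h5]
    rw [h6]
    calc (Z.card : ℝ) ^ 2 * ∏ j' ∈ range s, G j'
        ≤ (∏ i ∈ univ \ A s, (12 * (N i : ℝ))) * V N a Z (A s) (q s) := h1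
      _ ≤ (∏ i ∈ univ \ A s, (12 * (N i : ℝ))) *
          ((∏ i ∈ A s, (12 * (N i : ℝ))) * V N a Z ∅ (q s)) :=
          mul_le_mul_of_nonneg_left h2 hprod0
      _ ≤ (∏ i ∈ univ \ A s, (12 * (N i : ℝ))) * ((∏ i ∈ A s, (12 * (N i : ℝ))) * Z.card) :=
          mul_le_mul_of_nonneg_left (mul_le_mul_of_nonneg_left h3 hprod1) hprod0
      _ = _ := by ring
  rcases Nat.eq_zero_or_pos Z.card with h0 | h0
  · rw [h0]
    simp only [Nat.cast_zero, zero_mul]
    exact Finset.prod_nonneg fun i _ => by positivity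
  · have hZ0 : (0 : ℝ) < Z.card := by exact_mod_cast h0
    have h5 : ((Z.card : ℝ) * ∏ j' ∈ range s, G j') * Z.card ≤
        (∏ i, (12 * (N i : ℝ))) * Z.card := by
      refine le_trans (le_of_eq ?_) h4
      ring
    exact le_of_mul_le_mul_right h5 hZ0

end Pool.Agent.H11.EN.MS
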