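import Mathlib
import Pool.Agent.H11.EN.Stm
import Pool.Agent.H11.EM.SIEVE

/-!
# Project EN, job NS: the multi-scale large sieve for number fields
-/

set_option autoImplicit false

namespace Pool.Agent.H11.EN.NS

open Finset NumberField IsDedekindDomain
open Pool.Agent.H11.EM (box dg finite_box)

open Classical in
theorem main (hMS : S_MS) : S_NS := by
  intro K _ _ _ L _ _
  have hbas := fun k => Pool.Agent.Q247.EL.exists_basis (L k)
  choose b c1 hc1 hb using hbas
  obtain ⟨C1, hC1, hC1'⟩ : ∃ C1 : ℝ, 1 ≤ C1 ∧ ∀ k, c1 k ≤ C1 := by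
    refine ⟨∑ k, c1 k, ?_, fun k => ?_⟩
    · obtain ⟨k0⟩ := (inferInstance : Nonempty K)
      exact (hc1 k0).trans (single_le_sum (f := c1) (fun k _ => by linarith [hc1 k]) (mem_univ k0))
    · exact single_le_sum (f := c1) (fun k _ => by linarith [hc1 k]) (mem_univ k)
  refine ⟨(12 * (2 * C1 + 3)) ^ dg L, by positivity, ?_⟩
  intro s A P Q η Y T hY1 hA hQ hP hQY hcl
  have hfin := finite_box L T Y
  refine ⟨hfin, ?_⟩
  obtain ⟨M, hM⟩ : ∃ M : K → ℕ, M = fun k => ⌈C1 * Y k⌉₊ := ⟨_, rfl⟩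
  have hM1 : ∀ k, C1 * Y k ≤ M k := by
    intro k
    rw [hM]
    exact Nat.le_ceil _
  have hM2 : ∀ k, (M k : ℝ) ≤ C1 * Y k + 1 := by
    intro k
    rw [hM]
    have := hY1 k
    exact (Nat.ceil_lt_add_one (by positivity)).le
  -- coordinates
  have hco : ∀ β ∈ hfin.toFinset, ∀ k, ∀ i, |(b k).repr (β k) i| ≤ (M k : ℤ) := by
    intro β hβ k i
    rw [Set.Finite.mem_toFinset] at hβ
    have hYk := hY1 k
    have h1 := (hb k (β k) (Y k) (by linarith) (hβ.2 k) i)
    have h3 : c1 k * Y k ≤ M k :=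
      (mul_le_mul_of_nonneg_right (hC1' k) (by linarith)).trans (hM1 k)
    have h2 : ((|(b k).repr (β k) i| : ℤ) : ℝ) ≤ ((M k : ℤ) : ℝ) := by
      push_cast
      exact h1.trans h3
    exact_mod_cast h2
  obtain ⟨z, hz⟩ : ∃ z : (∀ k, 𝓞 (L k)) → ((Σ k, Fin (Module.finrank ℚ (L k))) → ℕ),
    z = fun β i => ((b i.1).repr (β i.1) i.2 + M i.1 + 1).toNat := ⟨_, rfl⟩
  have hzc : ∀ β ∈ hfin.toFinset, ∀ i, ((z β i : ℕ) : ℤ) =
      (b i.1).repr (β i.1) i.2 + M i.1 + 1 := by
    intro β hβ i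
    have h1 := abs_le.1 (hco β hβ i.1 i.2)
    rw [hz]
    exact Int.toNat_of_nonneg (by linarith [h1.1])
  have hinjk : ∀ β ∈ hfin.toFinset, ∀ β' ∈ hfin.toFinset, ∀ k, (∀ i, z β ⟨k, i⟩ = z β' ⟨k, i⟩) →
      β k = β' k := by
    intro β hβ β' hβ' k h
    apply (b k).repr.injective
    ext i
    have h1 := hzc β hβ ⟨k, i⟩
    have h2 := hzc β' hβ' ⟨k, i⟩
    rw [h i, h2] at h1
    simp only at h1
    linarith
  have hinj : Set.InjOn z hfin.toFinset := by
    intro β hβ β' hβ' h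
    funext k
    exact hinjk β hβ β' hβ' k (fun i => congrFun h _)
  have hA'card : ∀ j, (univ.filter (fun p : (Σ k, Fin (Module.finrank ℚ (L k))) =>
      p.1 ∈ A j)).card = nA L (A j) := by
    intro j
    have h1 : (univ.filter (fun p : (Σ k, Fin (Module.finrank ℚ (L k))) => p.1 ∈ A j)) =
        (A j).sigma (fun k => (univ : Finset (Fin (Module.finrank ℚ (L k))))) := by
      ext p
      simp
    rw [h1, card_sigma]
    simp [nA]
  have hmain := hMS (Σ k, Fin (Module.finrank ℚ (L k))) s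
    (fun j => univ.filter (fun p => p.1 ∈ A j)) P Q η (fun i => 2 * M i.1 + 1) (fun _ => 0)
    (hfin.toFinset.image z) ?_ hQ hP ?_ ?_ ?_
  · have hcard : (hfin.toFinset.image z).card = (box Y T).ncard := by
      rw [card_image_of_injOn hinj, Set.ncard_eq_toFinset_card _ hfin]
    rw [hcard] at hmain
    refine hmain.trans ?_
    rw [Fintype.prod_sigma]
    have h2 : (12 * (2 * C1 + 3)) ^ dg L = ∏ k, (12 * (2 * C1 + 3)) ^ Module.finrank ℚ (L k) := by
      rw [prod_pow_eq_pow_sum]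
      rfl
    rw [h2, ← prod_mul_distrib]
    refine prod_le_prod (fun k _ => prod_nonneg fun i _ => by positivity) fun k _ => ?_
    rw [← mul_pow]
    have h3 : ∏ i : Fin (Module.finrank ℚ (L k)), (12 * (((2 * M k + 1 : ℕ)) : ℝ)) =
        (12 * (((2 * M k + 1 : ℕ)) : ℝ)) ^ Module.finrank ℚ (L k) := by simp
    show ∏ i : Fin (Module.finrank ℚ (L k)), (12 * (((2 * M k + 1 : ℕ)) : ℝ)) ≤ _
    rw [h3]
    apply pow_le_pow_left₀ (by positivity)
    push_cast
    have h4 := hM2 k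
    have h5 := hY1 k
    nlinarith
  · intro j p hp
    rw [mem_filter] at hp ⊢
    exact ⟨hp.1, hA j hp.2⟩
  · intro i
    have h1 : (range s).filter (fun j => i ∈ univ.filter
        (fun p : (Σ k, Fin (Module.finrank ℚ (L k))) => p.1 ∈ A j)) =
        (range s).filter (fun j => i.1 ∈ A j) := by
      refine filter_congr fun j _ => ?_
      simp
    show (∏ j ∈ (range s).filter (fun j => i ∈ univ.filter
        (fun p : (Σ k, Fin (Module.finrank ℚ (L k))) => p.1 ∈ A j)), Q j) ^ 2 ≤ 2 * M i.1 + 1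
    rw [h1]
    have h2 := hQY i.1
    have h3 := hM1 i.1
    have h4 := hY1 i.1
    have h5 : (((∏ j ∈ (range s).filter (fun j => i.1 ∈ A j), Q j) ^ 2 : ℕ) : ℝ) ≤
        ((2 * M i.1 + 1 : ℕ) : ℝ) := by
      push_cast
      have h6 : ((∏ j ∈ (range s).filter (fun j => i.1 ∈ A j), (Q j : ℝ))) ^ 2 ≤ Y i.1 := by
        have := h2
        push_cast at this
        exact this
      nlinarith
    exact_mod_cast h5
  · intro x hx i
    rw [mem_image] at hx
    obtain ⟨β, hβ, rfl⟩ := hx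
    have h1 := abs_le.1 (hco β hβ i.1 i.2)
    have h2 := hzc β hβ i
    rw [mem_Ioc]
    constructor
    · have : (0 : ℤ) < z β i := by rw [h2]; linarith [h1.1]
      exact_mod_cast this
    · have : ((z β i : ℕ) : ℤ) ≤ ((0 + (2 * M i.1 + 1) : ℕ) : ℤ) := by
        rw [h2]
        push_cast
        linarith [h1.2]
      exact_mod_cast this
  · intro j hj t ht w hw
    rw [mem_image] at hw
    obtain ⟨γ, hγ, rfl⟩ := hw
    have hγ' := hγ
    rw [Set.Finite.mem_toFinset] at hγ'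
    have h0 := hcl j hj t ht γ hγ'
    have htp : t.Prime := (hP j hj t ht).1
    show _ ≤ (1 - η j t) * (t : ℝ) ^ (univ.filter
      (fun p : (Σ k, Fin (Module.finrank ℚ (L k))) => p.1 ∈ A j)).card
    rw [hA'card]
    refine le_trans ?_ h0
    rw [Nat.cast_le]
    -- the quotient is finite
    have : ∀ k, Finite (𝓞 (L k) ⧸ Ideal.span {(t : 𝓞 (L k))}) := by
      intro k
      have hne : (Ideal.span {(t : 𝓞 (L k))}) ≠ ⊥ := by
        rw [Ne, Ideal.span_singleton_eq_bot]
        exact_mod_cast htp.ne_zero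
      exact Ideal.finiteQuotientOfFreeOfNeBot _ hne
    have hTf : (clsA (A j) t (fib (A j) γ (box Y T))).Finite := Set.toFinite _
    have hch : ∀ x ∈ ((fun (z : (Σ k, Fin (Module.finrank ℚ (L k))) → ℕ)
        (i : (univ.filter (fun p : (Σ k, Fin (Module.finrank ℚ (L k))) => p.1 ∈ A j) :
          Finset (Σ k, Fin (Module.finrank ℚ (L k))))) => ((z i : ℕ) : ZMod t)) ''
        {z0 | z0 ∈ hfin.toFinset.image z ∧ ∀ i, i ∉ (univ.filter
          (fun p : (Σ k, Fin (Module.finrank ℚ (L k))) => p.1 ∈ A j)) → z0 i = z γ i}),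
        ∃ β, β ∈ hfin.toFinset ∧ (∀ k, k ∉ A j → β k = γ k) ∧
          (fun (i : (univ.filter (fun p : (Σ k, Fin (Module.finrank ℚ (L k))) => p.1 ∈ A j) :
          Finset (Σ k, Fin (Module.finrank ℚ (L k))))) => ((z β i : ℕ) : ZMod t)) = x := by
      rintro x ⟨z0, ⟨hz0, hz1⟩, rfl⟩
      rw [mem_image] at hz0
      obtain ⟨β, hβ, rfl⟩ := hz0
      refine ⟨β, hβ, fun k hk => hinjk β hβ γ hγ k (fun i => hz1 _ ?_), rfl⟩
      rw [mem_filter]
      rintro ⟨_, h⟩
      exact hk h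
    choose! g hg1 hg2 hg3 using hch
    refine Set.ncard_le_ncard_of_injOn (fun x => fun k : A j =>
      Ideal.Quotient.mk (Ideal.span {(t : 𝓞 (L k))}) (g x k)) ?_ ?_ hTf
    · intro x hx
      have h1 := hg1 x hx
      rw [Set.Finite.mem_toFinset] at h1
      exact ⟨g x, ⟨h1, hg2 x hx⟩, rfl⟩
    · intro x hx y hy hxy
      rw [← hg3 x hx, ← hg3 y hy]
      funext i
      obtain ⟨⟨k, i⟩, hi⟩ := i
      have hk : k ∈ A j := by
        rw [mem_filter] at hi
        exact hi.2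
      have h1 : g x k - g y k ∈ Ideal.span {(t : 𝓞 (L k))} :=
        (Ideal.Quotient.eq).1 (congrFun hxy ⟨k, hk⟩)
      rw [Ideal.mem_span_singleton] at h1
      obtain ⟨w, hw⟩ := h1
      have h2 := hzc (g x) (hg1 x hx) ⟨k, i⟩
      have h3 := hzc (g y) (hg1 y hy) ⟨k, i⟩
      have h4 : (b k).repr (g x k) i - (b k).repr (g y k) i = t * (b k).repr w i := by
        have h5 : (b k).repr (g x k - g y k) i = (b k).repr ((t : 𝓞 (L k)) * w) i := by rw [hw]
        rw [map_sub, Finsupp.sub_apply] at h5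
        rw [h5]
        have h6 : ((t : 𝓞 (L k)) * w) = (t : ℤ) • w := by
          rw [zsmul_eq_mul]
          push_cast
          rfl
        rw [h6, map_smul, Finsupp.smul_apply, smul_eq_mul]
      have h5 : (((z (g x) ⟨k, i⟩ : ℕ) : ℤ) : ZMod t) = (((z (g y) ⟨k, i⟩ : ℕ) : ℤ) : ZMod t) := by
        rw [ZMod.intCast_eq_intCast_iff_dvd_sub]
        refine ⟨-((b k).repr w i), ?_⟩
        rw [h2, h3]
        simp only
        linarith
      push_cast at h5
      exact h5

end Pool.Agent.H11.EN.NS
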