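import Pool.Agent.H11.EN.Core
import Pool.Agent.H11.EN.Fac
import Pool.Agent.H11.EN.COREA
import Pool.Agent.H11.EN.COREB
import Pool.Agent.H11.EN.NS
import Pool.Agent.H11.EN.MS
import Pool.Agent.H11.EN.CNTR
import Pool.Agent.H11.EN.CNTS
import Pool.Agent.H11.EN.GOOD
import Pool.Agent.H11.EN.DYAD
import Pool.Agent.H11.EN.FACT
import Pool.Agent.H11.EC.Fin2

/-! Project EN: assembly. -/

set_option autoImplicit false

namespace Pool.Agent.H11.EN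

open Polynomial NumberField IsDedekindDomain Finset Filter Topology
open Pool.Agent.H11.EC (Sel ELS CurvePt MFree ELSM CurvePtM Sel2 t_split low solv weil)

theorem t_corem : S_COREM :=
  corem (COREA.main (NS.main MS.main) (CNTR.main CNTS.main)) COREB.main

theorem main_thm (I : Type) [Fintype I] (g : ℤ[X]) (h : I → ℤ[X])
    (hev : Even g.natDegree) (h6 : 6 ≤ g.natDegree)
    (hh : ∀ i, Even (h i).natDegree ∧ 1 ≤ (h i).natDegree)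
    (hsep : ((g * ∏ i, h i).map (Int.castRingHom ℚ)).Separable) (hHG : HG g h) :
    (∀ D : ℤ, D ≠ 0 → CurvePt g h D ℚ → Sel g h D) ∧
    (∀ D : ℤ, D ≠ 0 → Sel g h D → ELS g h D) ∧
    (∃ δ C : ℝ, 0 < δ ∧ ∀ X : ℕ, 3 ≤ X →
      ({D : ℤ | D.natAbs ≤ X ∧ Squarefree D ∧ Sel g h D}.ncard : ℝ) ≤
        C * Real.log X ^ (-δ) *
        ({D : ℤ | D.natAbs ≤ X ∧ Squarefree D ∧ ELS g h D}.ncard : ℝ)) ∧
    ((∃ D0 : ℤ, Squarefree D0 ∧ ELS g h D0) → ∀ᶠ X : ℕ in atTop, (X : ℝ) / Real.log X ≤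
      ({D : ℤ | D.natAbs ≤ X ∧ Squarefree D ∧ ELS g h D}.ncard : ℝ)) :=
  main_g FACT.main t_split t_corem (GOOD.main DYAD.main) Pool.Agent.H11.EC.Mean.main
    (low (solv weil)) I g h hev h6 hh hsep hHG

theorem main_thmM (I : Type) [Fintype I] (g : ℤ[X]) (h : I → ℤ[X])
    (hev : Even g.natDegree) (h6 : 6 ≤ g.natDegree)
    (hh : ∀ i, Even (h i).natDegree ∧ 1 ≤ (h i).natDegree)
    (hsep : ((g * ∏ i, h i).map (Int.castRingHom ℚ)).Separable) (hHG : HG g h)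
    (m : ℕ) (hm : m ≠ 0) (hmev : Even m) :
    (∀ D : ℤ, D ≠ 0 → CurvePtM m g h D ℚ → Sel2 m g h D) ∧
    (∀ D : ℤ, D ≠ 0 → Sel2 m g h D → ELSM m g h D) ∧
    (∃ δ C : ℝ, 0 < δ ∧ ∀ X : ℕ, 3 ≤ X →
      ({D : ℤ | D.natAbs ≤ X ∧ MFree m D ∧ Sel2 m g h D}.ncard : ℝ) ≤
        C * Real.log X ^ (-δ) *
        ({D : ℤ | D.natAbs ≤ X ∧ MFree m D ∧ ELSM m g h D}.ncard : ℝ)) ∧
    ((∃ D0 : ℤ, MFree m D0 ∧ ELSM m g h D0) → ∀ᶠ X : ℕ in atTop, (X : ℝ) / Real.log X ≤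
      ({D : ℤ | D.natAbs ≤ X ∧ MFree m D ∧ ELSM m g h D}.ncard : ℝ)) :=
  mainM_g FACT.main t_split t_corem (GOOD.main DYAD.main) Pool.Agent.H11.EC.Mean.main
    (Pool.Agent.H11.EC.LOWM.main (Pool.Agent.H11.EC.SOLVM.main Pool.Agent.H11.EC.WeilM.main))
    Pool.Agent.H11.EC.CNTM.main I g h hev h6 hh hsep hHG m hm hmev

end Pool.Agent.H11.EN
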