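import Pool.Agent.H11.EN.Stm

/-! Project EN: the main bound from the two parts. -/

set_option autoImplicit false

namespace Pool.Agent.H11.EN

open NumberField Finset
open Pool.Agent.Q51.EL (pr)
open Pool.Agent.H11.EM (PL In Ty1 Ty2 box cls dg NN tau)

theorem exists_sort {K : Type} [Fintype K] (Y : K → ℝ) :
    ∃ e : Fin (Fintype.card K) ≃ K, Monotone (fun j => Y (e j)) := by
  let e0 : Fin (Fintype.card K) ≃ K := (Fintype.equivFin K).symm
  refine ⟨(Tuple.sort (Y ∘ e0)).trans e0, ?_⟩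
  exact Tuple.monotone_sort (Y ∘ e0)

theorem corem (hA : S_COREA) (hB : S_COREB) : S_COREM := by
  classical
  intro K _ _ _ L _ _ hev h5 B hB0 S hsplit
  obtain ⟨C1, M0, hC1, hM0, h1⟩ := hA K L hev h5 B hB0 S
  obtain ⟨c, C2, hc, h2⟩ := hB K L S M0 hM0 hsplit
  refine ⟨c, C1 * Real.exp C2, hc, by positivity, fun T hT hT0 Z Y hZ hY hY3 => ?_⟩
  obtain ⟨e, he⟩ := exists_sort Y
  obtain ⟨h3, h4⟩ := h1 T hT hT0 Z Y e hZ hY he hY3
  have h5 := h2 Z Y e hZ hY he (by
    by_contra hcon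
    push Not at hcon
    have : univ.filter (fun k => Z ≤ Y k) = ∅ := by
      rw [Finset.filter_eq_empty_iff]
      intro k _
      exact not_le.2 (hcon k)
    rw [this] at hY3
    simp [nA] at hY3)
  refine ⟨h3, h4.trans ?_⟩
  have hlZ : 0 < Real.log Z := Real.log_pos (by linarith)
  have hm : ∀ k, 0 < 1 + Real.log (min (Y k) Z) := by
    intro k
    have : 0 ≤ Real.log (min (Y k) Z) := Real.log_nonneg (le_min (hY k) (by linarith))
    linarith
  have hV : 0 ≤ ∏ k, Y k ^ Module.finrank ℚ (L k) :=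
    prod_nonneg fun k _ => pow_nonneg (by linarith [hY k]) _
  obtain ⟨G, hG⟩ : ∃ G, G = ∑ q ∈ (pr Z).filter (fun q => q ∈ S), (1 : ℝ) / q := ⟨_, rfl⟩
  have h6 : Real.exp (-(∑ j, ∑ l ∈ PJ M0 e Y Z j, wt L S (AJ e j) l / l)) ≤
      Real.exp C2 * (Real.exp G * Real.log Z ^ (-c) * (∏ k, (1 + Real.log (min (Y k) Z)))⁻¹) := by
    have e1 : (∏ k, (1 + Real.log (min (Y k) Z)))⁻¹ =
        Real.exp (-(∑ k, Real.log (1 + Real.log (min (Y k) Z)))) := by
      rw [Real.exp_neg, Real.exp_sum]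
      congr 1
      exact prod_congr rfl fun k _ => (Real.exp_log (hm k)).symm
    have e2 : Real.exp (-(c * Real.log (1 + Real.log Z))) ≤ Real.log Z ^ (-c) := by
      rw [Real.rpow_def_of_pos hlZ]
      apply Real.exp_le_exp.2
      have : Real.log (Real.log Z) ≤ Real.log (1 + Real.log Z) :=
        Real.log_le_log hlZ (by linarith)
      nlinarith
    calc Real.exp (-(∑ j, ∑ l ∈ PJ M0 e Y Z j, wt L S (AJ e j) l / l))
        ≤ Real.exp (C2 + G + -(c * Real.log (1 + Real.log Z)) +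
            -(∑ k, Real.log (1 + Real.log (min (Y k) Z)))) := by
          apply Real.exp_le_exp.2
          have h7 : G = ∑ q ∈ (pr Z).filter (fun q => q ∈ S), (1 : ℝ) / q := hG
          have h8 : ∑ k, Real.log (1 + Real.log (min (Y k) Z)) + c * Real.log (1 + Real.log Z) -
            G - C2 ≤ ∑ j, ∑ l ∈ PJ M0 e Y Z j, wt L S (AJ e j) l / l := by
            rw [h7]
            refine (le_of_eq ?_).trans h5
            congr!
          linarith
      _ = Real.exp C2 * (Real.exp G * Real.exp (-(c * Real.log (1 + Real.log Z))) *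
            Real.exp (-(∑ k, Real.log (1 + Real.log (min (Y k) Z))))) := by
          rw [Real.exp_add, Real.exp_add, Real.exp_add]
          ring
      _ ≤ _ := by
          rw [← e1]
          refine mul_le_mul_of_nonneg_left (mul_le_mul_of_nonneg_right
            (mul_le_mul_of_nonneg_left e2 (Real.exp_pos _).le) ?_) (Real.exp_pos _).le
          exact inv_nonneg.2 (prod_nonneg fun k _ => (hm k).le)
  calc C1 * (∏ k, Y k ^ Module.finrank ℚ (L k)) *
      Real.exp (-(∑ j, ∑ l ∈ PJ M0 e Y Z j, wt L S (AJ e j) l / l))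
      ≤ C1 * (∏ k, Y k ^ Module.finrank ℚ (L k)) *
        (Real.exp C2 * (Real.exp G * Real.log Z ^ (-c) * (∏ k, (1 + Real.log (min (Y k) Z)))⁻¹)) :=
        mul_le_mul_of_nonneg_left h6 (mul_nonneg hC1.le hV)
    _ = C1 * Real.exp C2 * (∏ k, Y k ^ Module.finrank ℚ (L k)) * Real.exp G * Real.log Z ^ (-c) *
        (∏ k, (1 + Real.log (min (Y k) Z)))⁻¹ := by ring
    _ = _ := by rw [hG]

end Pool.Agent.H11.EN
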