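import Pool.Agent.H11.EC.Data
import Pool.Agent.H11.EN.Stm

/-! Project EN: the data of the descent. -/

set_option autoImplicit false
set_option linter.unusedSectionVars false

namespace Pool.Agent.H11.EN

open Polynomial NumberField IsDedekindDomain Finset
open Pool.Agent.Q51.EL (Abv Par N1 pr Setup hom)
open Pool.Agent.H11.EM (PL In Ty1 Ty2 box cls dg NN tau Good Sys S_SIEVE S_CNT ty nrm)
open Pool.Agent.H11.EC (SR SQ Sel S_SPLIT GS desc')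

variable {K I : Type} [Fintype K] [DecidableEq K] [Fintype I] {f : K → ℤ[X]} {h : I → ℤ[X]}
  {L : K → Type} [∀ k, Field (L k)] [∀ k, NumberField (L k)] {θ : ∀ k, L k}

open Classical in
/-- the data of the descent -/
theorem data [Nonempty K] (hSPLIT : S_SPLIT) (hCORE : S_COREM) (hs : Sys f L θ)
    (hevh : ∀ i, Even (h i).natDegree) (hev : Even (∏ k, f k).natDegree)
    (h6 : 6 ≤ (∏ k, f k).natDegree) :
    ∃ (B : ℕ) (C1 C2 c : ℝ) (T : Set (∀ k, 𝓞 (L k))) (A : ℤ → ∀ k, 𝓞 (L k)) (P : ℤ → K → ℕ),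
      B ≠ 0 ∧ 0 < C1 ∧ 0 < C2 ∧ 0 < c ∧
      Set.InjOn A {D : ℤ | Squarefree D ∧ Sel (∏ k, f k) h D} ∧
      (∀ D : ℤ, Squarefree D → Sel (∏ k, f k) h D →
        (∀ k, P D k ≠ 0) ∧ ∏ k, P D k ≤ D.natAbs ∧ A D ∈ T ∧
        (∀ k, ∀ σ : L k →+* ℂ, ‖σ (A D k : L k)‖ ≤
          C1 * (P D k : ℝ) ^ ((1 : ℝ) / Module.finrank ℚ (L k))) ∧
        ∀ q : ℕ, q.Prime → q ∣ D.natAbs → ¬ q ∣ B → ∃ k, k ∈ SR f h q ∧ q ∣ P D k) ∧
      (∀ (Z : ℝ) (Y : K → ℝ), 3 ≤ Z → (∀ k, 1 ≤ Y k) →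
        3 ≤ nA L (univ.filter (fun k => Z ≤ Y k)) → (box Y T).Finite ∧
        (((box Y T).ncard : ℕ) : ℝ) ≤ C2 * (∏ k, Y k ^ Module.finrank ℚ (L k)) *
          Real.exp (GS f h Z) * Real.log Z ^ (-c) * (∏ k, (1 + Real.log (min (Y k) Z)))⁻¹) := by
  set g : ℤ[X] := ∏ k, f k with hg
  have hint : ∀ k, IsIntegral ℤ ((g.leadingCoeff : L k) * θ k) := by
    intro k
    have h1 : IsIntegral ℤ (g.leadingCoeff • θ k) := isIntegral_leadingCoeff_smul g (θ k) (hs.root k)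
    rwa [zsmul_eq_mul] at h1
  let t : ∀ k, 𝓞 (L k) := fun k => ⟨(g.leadingCoeff : L k) * θ k, hint k⟩
  obtain ⟨B, C1, hB, hC1, hD⟩ := desc' K I f h L θ hs hevh hev (by rw [← hg]; omega) t (fun k => rfl)
  set Sq : Set ℕ := {q : ℕ | (SR f h q).Nonempty} with hSq
  obtain ⟨c, C2, hc, hC2, hcore⟩ := hCORE K L (by rw [hs.deg, ← hg]; exact hev)
    (by rw [hs.deg, ← hg]; omega) B hB Sq (by
    obtain ⟨c, C, hc, h1⟩ := hSPLIT K I f h L θ hs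
    refine ⟨c, C, hc, fun Y hY => (h1 Y hY).trans (le_of_eq ?_)⟩
    congr!)
  have hα : ∀ D : ℤ, Squarefree D → Sel g h D → ∃ (α : ∀ k, 𝓞 (L k)) (S : K → Finset ℕ),
      (∀ k, α k ≠ 0) ∧ Good B t α ∧
      (∀ l : ℕ, l.Prime → ¬ l ∣ B → (∃ u : PL L l, In α u) → (SR f h l).Nonempty) ∧
      IsSquare (((D * g.leadingCoeff : ℤ) : ℚ) * ∏ k, Algebra.norm ℚ (α k : L k)) ∧
      (∀ k, ∀ q ∈ S k, q.Prime ∧ k ∈ SR f h q) ∧ (∏ k, ∏ q ∈ S k, q) ∣ D.natAbs ∧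
      (∀ q : ℕ, q.Prime → ¬ q ∣ B → q ∣ D.natAbs → ∃ k, q ∈ S k) ∧
      ∀ k, ∀ σ : L k →+* ℂ, ‖σ (α k : L k)‖ ≤
        C1 * ((∏ q ∈ S k, q : ℕ) : ℝ) ^ ((1 : ℝ) / Module.finrank ℚ (L k)) := by
    rintro D hDs ⟨d, hcop, hsq, -, hp⟩
    refine hD D hDs ⟨d, (hs.cop_iff).1 hcop, ?_, hp⟩
    rw [nrm K f L θ hs d] at hsq
    exact hsq
  choose! A S hA0 hAG hAR hAsq hS1 hS2 hS3 hAσ using hα
  refine ⟨B, C1, C2, c, {α | Good B t α ∧ (∀ l : ℕ, l.Prime → ¬ l ∣ B → (∃ u : PL L l, In α u) →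
    (SR f h l).Nonempty) ∧ ∀ k, α k ≠ 0}, A, fun D k => ∏ q ∈ S D k, q, hB, hC1, hC2, hc, ?_, ?_, ?_⟩
  · rintro D ⟨hDs, hDS⟩ D' ⟨hDs', hDS'⟩ hAA
    have h1 := hAsq D hDs hDS
    have h2 := hAsq D' hDs' hDS'
    have hAA' : A D = A D' := hAA
    rw [← hAA'] at h2
    have hN0 : ∏ k, Algebra.norm ℚ (A D k : L k) ≠ 0 := by
      refine Finset.prod_ne_zero_iff.2 fun k _ => ?_
      rw [Algebra.norm_ne_zero_iff]
      exact_mod_cast (hA0 D hDs hDS k)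
    have hg0 : ((g.leadingCoeff : ℤ) : ℚ) ≠ 0 := by
      exact_mod_cast leadingCoeff_ne_zero.2 hs.prod_ne
    apply Pool.Agent.Q51.EL.sqf_eq hDs hDs'
    obtain ⟨u, hu⟩ := h1
    obtain ⟨w, hw⟩ := h2
    set N := ∏ k, Algebra.norm ℚ (A D k : L k) with hN
    refine ⟨u * w / ((g.leadingCoeff : ℤ) * N), ?_⟩
    field_simp
    have h3 : ((D * D' : ℤ) : ℚ) * (((g.leadingCoeff : ℤ) : ℚ) ^ 2 * N ^ 2) =
        (u * u) * (w * w) := by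
      rw [← hu, ← hw]; push_cast; ring
    linear_combination h3
  · intro D hDs hDS
    have hD0 : D.natAbs ≠ 0 := Int.natAbs_ne_zero.2 hDs.ne_zero
    refine ⟨fun k => ?_, ?_, ⟨hAG D hDs hDS, hAR D hDs hDS, hA0 D hDs hDS⟩, hAσ D hDs hDS, ?_⟩
    · exact Finset.prod_ne_zero_iff.2 fun q hq => (hS1 D hDs hDS k q hq).1.ne_zero
    · exact Nat.le_of_dvd (Nat.pos_of_ne_zero hD0) (hS2 D hDs hDS)
    · intro q hq hqD hqB
      obtain ⟨k', hk'⟩ := hS3 D hDs hDS q hq hqB hqD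
      exact ⟨k', (hS1 D hDs hDS k' q hk').2, Finset.dvd_prod_of_mem _ hk'⟩
  · intro Z Y hZ hY hY3
    obtain ⟨h1, h2⟩ := hcore {α | Good B t α ∧ (∀ l : ℕ, l.Prime → ¬ l ∣ B →
      (∃ u : PL L l, In α u) → (SR f h l).Nonempty) ∧ ∀ k, α k ≠ 0} (fun l hl hlB => by
        obtain ⟨h3, h4⟩ := ty K L B t l hl hlB
        refine ⟨fun β hβ => h3 β hβ.1, fun β hβ β' hβ' => h4 β hβ.1 β' hβ'.1, ?_⟩
        intro hA β hβ u hu
        exact hA (hβ.2.1 l hl hlB ⟨u, hu⟩)) (fun β hβ => hβ.2.2) Z Y hZ hY hY3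
    refine ⟨h1, h2.trans (le_of_eq ?_)⟩
    unfold GS
    congr!

end Pool.Agent.H11.EN
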