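import Pool.Agent.H11.EN.Fac

/-! Project EN: the case without polynomials `h i`. -/

set_option autoImplicit false

namespace Pool.Agent.H11.EN

open Polynomial Finset

theorem inst1 : (DivisionRing.toRatAlgebra : Algebra ℚ (AlgebraicClosure ℚ)) =
    AlgebraicClosure.instAlgebra ℚ := Subsingleton.elim _ _

theorem inst2 : IsGalois ℚ (AlgebraicClosure ℚ) := by
  have h : @IsGalois ℚ _ (AlgebraicClosure ℚ) _ (AlgebraicClosure.instAlgebra ℚ) := inferInstance
  rw [← inst1] at h
  exact h

theorem hg_of (g : ℤ[X]) (hrat : ∀ x : ℚ, aeval x g ≠ 0)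
    (hquad : ∀ q : ℚ[X], q ∣ g.map (Int.castRingHom ℚ) → q.natDegree = 2 →
      ∃ θ : AlgebraicClosure ℚ, aeval θ g = 0 ∧
        ∀ η ∈ IntermediateField.adjoin ℚ {θ}, aeval η q ≠ 0) (h : Empty → ℤ[X]) : HG g h := by
  classical
  intro q hq h1 h2
  rcases (by omega : q.natDegree = 1 ∨ q.natDegree = 2) with hd | hd
  · exfalso
    obtain ⟨x, hx⟩ := Polynomial.exists_root_of_degree_eq_one
      ((Polynomial.degree_eq_iff_natDegree_eq_of_pos one_pos).2 hd)
    apply hrat x
    have h3 : (g.map (Int.castRingHom ℚ)).IsRoot x := hx.dvd hq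
    rw [Polynomial.IsRoot, eval_map] at h3
    rw [aeval_def]
    exact h3
  · obtain ⟨θ, hθ, hη⟩ := hquad q hq hd
    have hq0 : q ≠ 0 := by
      rintro rfl
      simp at hd
    obtain ⟨η, hη0⟩ := IsAlgClosed.exists_aeval_eq_zero (AlgebraicClosure ℚ) q (by
      rw [Polynomial.degree_eq_natDegree hq0, hd]
      norm_num)
    have hηE : η ∉ IntermediateField.adjoin ℚ {θ} := fun h => hη η h hη0
    obtain ⟨σ, hσ⟩ : ∃ σ : AlgebraicClosure ℚ ≃ₐ[IntermediateField.adjoin ℚ {θ}] AlgebraicClosure ℚ,
        σ η ≠ η := by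
      by_contra hcon
      push Not at hcon
      apply hηE
      have hG : IsGalois ℚ (AlgebraicClosure ℚ) := inst2
      have h3 : η ∈ (⊥ : IntermediateField (IntermediateField.adjoin ℚ {θ}) (AlgebraicClosure ℚ)) :=
        (InfiniteGalois.mem_bot_iff_fixed η).2 hcon
      rw [IntermediateField.mem_bot] at h3
      obtain ⟨y, hy⟩ := h3
      rw [← hy]
      exact y.2
    let σ' : AlgebraicClosure ℚ ≃ₐ[ℚ] AlgebraicClosure ℚ := σ.restrictScalars ℚ
    have hσ' : ∀ x, σ' x = σ x := fun x => rfl
    refine ⟨σ', ⟨θ, ?_, ?_, fun i => i.elim⟩, ?_⟩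
    · rw [aeval_cast]
      exact hθ
    · rw [hσ']
      exact σ.commutes ⟨θ, IntermediateField.mem_adjoin_simple_self ℚ θ⟩
    · rintro ⟨η', hη', hfix, -⟩
      have h3 : η' ≠ η := by
        rintro rfl
        exact hσ hfix
      have h4 : η' ≠ σ η := by
        intro h4
        apply hσ
        have h5 : σ (σ η) = σ η := by
          rw [← h4]
          exact hfix
        exact σ.injective h5
      have h5 : aeval (σ η) q = 0 := by
        have h6 : σ' (aeval η q) = aeval (σ' η) q := (aeval_algHom_apply σ'.toAlgHom η q).symm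
        rw [hη0, map_zero] at h6
        exact h6.symm
      have h6 : ({η', η, σ η} : Finset (AlgebraicClosure ℚ)).card = 3 := by
        rw [card_insert_of_notMem, card_insert_of_notMem, card_singleton]
        · rw [mem_singleton]
          exact hσ.symm
        · rw [mem_insert, mem_singleton, not_or]
          exact ⟨h3, h4⟩
      have h7 : ({η', η, σ η} : Finset (AlgebraicClosure ℚ)) ⊆ (q.map (algebraMap ℚ (AlgebraicClosure ℚ))).roots.toFinset := by
        intro x hx
        rw [Multiset.mem_toFinset, mem_roots ((Polynomial.map_ne_zero_iff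
          (algebraMap ℚ (AlgebraicClosure ℚ)).injective).2 hq0), IsRoot, eval_map, ← aeval_def]
        rw [mem_insert, mem_insert, mem_singleton] at hx
        rcases hx with rfl | rfl | rfl
        · exact hη'
        · exact hη0
        · exact h5
      have h8 := card_le_card h7
      have h9 := (Multiset.toFinset_card_le (q.map (algebraMap ℚ (AlgebraicClosure ℚ))).roots).trans
        (card_roots' _)
      rw [natDegree_map] at h9
      omega

end Pool.Agent.H11.EN
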