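import Pool.Agent.H11.EN.Data
import Pool.Agent.H11.EC.MainM

/-! Project EN: the upper bound. -/

set_option autoImplicit false
set_option linter.unusedSectionVars false

namespace Pool.Agent.H11.EN

open Polynomial NumberField IsDedekindDomain Finset Filter Topology
open Pool.Agent.Q51.EL (Abv Par N1 pr Setup hom)
open Pool.Agent.H11.EM (PL In Ty1 Ty2 box cls dg NN tau Good Sys fin_nat cover ncard_cover
  bad_exp pr_eq log_two_le)
open Pool.Agent.H11.EC (SR SQ Sel S_SPLIT GS)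

variable {K I : Type} [Fintype K] [DecidableEq K] [Fintype I] {f : K → ℤ[X]} {h : I → ℤ[X]}
  {L : K → Type} [∀ k, Field (L k)] [∀ k, NumberField (L k)] {θ : ∀ k, L k}

open Classical in
theorem bad_count (R : ℕ → Finset K) (P : ℤ → K → ℕ) (E : Set ℤ) (B : ℕ) (hB : B ≠ 0)
    (hE : ∀ D ∈ E, D ≠ 0 ∧ (∀ k, P D k ≠ 0) ∧ ∀ q : ℕ, q.Prime → q ∣ D.natAbs → ¬ q ∣ B →
          ∃ k, k ∈ R q ∧ q ∣ P D k) :
    ∃ C : ℝ, 0 < C ∧ ∀ (A : Finset K) (X : ℕ) (W : ℝ), 3 ≤ X →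
      ({D : ℤ | D.natAbs ≤ X ∧ D ∈ E ∧ ∀ k, W ≤ (P D k : ℝ) → k ∈ A}.ncard : ℝ) ≤
        C * X / Real.log X * Real.exp (∑ q ∈ (pr X).filter
          (fun q => (R q).Nonempty ∧ (Disjoint (R q) A → (q : ℝ) < W)), (1 : ℝ) / q) := by
  obtain ⟨C, hC, hub⟩ := Pool.Agent.H29.EM.ub B hB
  refine ⟨2 * C, by positivity, fun A X W hX => ?_⟩
  have h1 := hub {q | (R q).Nonempty ∧ (Disjoint (R q) A → (q : ℝ) < W)} X (by exact_mod_cast hX)
  set F : Set ℕ := {m : ℕ | 1 ≤ m ∧ (m : ℝ) ≤ X ∧ ∀ q : ℕ, q.Prime → q ∣ m → q ∣ B ∨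
    q ∈ {q | (R q).Nonempty ∧ (Disjoint (R q) A → (q : ℝ) < W)}} with hF
  have hFfin : F.Finite := by
    refine (Set.finite_Iic X).subset ?_
    rintro m ⟨-, hm, -⟩
    exact_mod_cast hm
  have h2 : {D : ℤ | D.natAbs ≤ X ∧ D ∈ E ∧ ∀ k, W ≤ (P D k : ℝ) → k ∈ A} ⊆
      (fun m : ℕ => (m : ℤ)) '' F ∪ (fun m : ℕ => -(m : ℤ)) '' F := by
    rintro D ⟨hDX, hDE, hDW⟩
    obtain ⟨hD0, hP0, h3⟩ := hE D hDE
    have h4 : D.natAbs ∈ F := by
      refine ⟨Nat.one_le_iff_ne_zero.2 (Int.natAbs_ne_zero.2 hD0), by exact_mod_cast hDX,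
        fun q hq hqD => ?_⟩
      by_cases hqB : q ∣ B
      · exact Or.inl hqB
      · obtain ⟨k, h5, h6⟩ := h3 q hq hqD hqB
        refine Or.inr ⟨⟨k, h5⟩, fun h => ?_⟩
        by_contra hcon
        push Not at hcon
        have h7 := Nat.le_of_dvd (Nat.pos_of_ne_zero (hP0 k)) h6
        have h8 : (q : ℝ) ≤ P D k := by exact_mod_cast h7
        exact (Finset.disjoint_left.1 h h5) (hDW k (hcon.trans h8))
    rcases Int.natAbs_eq D with h | h
    · exact Or.inl ⟨D.natAbs, h4, h.symm⟩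
    · exact Or.inr ⟨D.natAbs, h4, h.symm⟩
  have h3 : {D : ℤ | D.natAbs ≤ X ∧ D ∈ E ∧ ∀ k, W ≤ (P D k : ℝ) → k ∈ A}.ncard ≤
      F.ncard + F.ncard := by
    refine (Set.ncard_le_ncard h2 ((hFfin.image _).union (hFfin.image _))).trans ?_
    refine (Set.ncard_union_le _ _).trans ?_
    exact Nat.add_le_add (Set.ncard_image_le hFfin) (Set.ncard_image_le hFfin)
  have h4 : ({D : ℤ | D.natAbs ≤ X ∧ D ∈ E ∧ ∀ k, W ≤ (P D k : ℝ) → k ∈ A}.ncard : ℝ) ≤
      F.ncard + F.ncard := by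
    exact_mod_cast h3
  have h5 : (F.ncard : ℝ) ≤ C * X / Real.log X * Real.exp (∑ q ∈ (pr X).filter
          (fun q => (R q).Nonempty ∧ (Disjoint (R q) A → (q : ℝ) < W)), (1 : ℝ) / q) := by
    refine h1.trans (le_of_eq ?_)
    congr!
  calc _ ≤ (F.ncard : ℝ) + F.ncard := h4
    _ ≤ _ := by
      rw [mul_assoc 2 C, mul_div_assoc, mul_assoc 2]
      linarith

/-- the bound of `S_GOOD` -/
lemma good_exp (C4 C5 ρ η c ε : ℝ) (m : ℕ) (hm : 1 ≤ m) (hC4 : 0 < C4) (hc : 0 < c)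
    (hρ : 0 ≤ ρ + η) (hη : η ≤ c / 8) (hε0 : 0 < ε) (hε1 : ε ≤ 1 / 2) (hε : ε * (m + c) ≤ c / 2)
    (X : ℕ) (hX : 3 ≤ X) (G Z : ℝ) (hZ : Real.log Z = Real.log X ^ (1 - ε))
    (hG : G ≤ (ρ + η) * Real.log (Real.log Z) + C5) :
    C4 * X * (((Nat.log 2 X : ℝ) + 1) / Real.log Z) ^ m *
        (1 + Real.log ((Nat.log 2 X : ℝ) + 1)) ^ m / ((Nat.log 2 X : ℝ) + 1) *
        (Real.exp G * Real.log Z ^ (-c)) ≤
      C4 * 3 ^ m * ((1 + 8 * m / c) ^ m * 3 ^ (c / 8)) * Real.exp C5 * X *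
        Real.log X ^ (ρ - 1 - c / 4) := by
  have h1 : (1 : ℝ) < Real.log X := Pool.Agent.W262.TW.one_lt_log hX
  have h0 : (0 : ℝ) < Real.log X := by linarith
  have hX0 : (0 : ℝ) < X := by exact_mod_cast (by omega : 0 < X)
  have hlZ : 0 < Real.log Z := by rw [hZ]; positivity
  have hm1 : (1 : ℝ) ≤ m := by exact_mod_cast hm
  obtain ⟨Λ, hΛ⟩ : ∃ Λ : ℝ, Λ = (Nat.log 2 X : ℝ) + 1 := ⟨_, rfl⟩
  rw [← hΛ]
  have hΛ3 : Λ ≤ 3 * Real.log X := by rw [hΛ]; exact log_two_le X hX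
  have hΛ1 : Real.log X ≤ Λ := by
    have h2 : X < 2 ^ (Nat.log 2 X + 1) := Nat.lt_pow_succ_log_self (by norm_num) X
    have h3 : (X : ℝ) ≤ 2 ^ (Nat.log 2 X + 1) := by exact_mod_cast h2.le
    have h4 := Real.log_le_log hX0 h3
    rw [Real.log_pow] at h4
    have h5 : Real.log 2 ≤ 1 := by
      have := Real.log_two_lt_d9
      linarith
    rw [hΛ]
    push_cast at h4
    have h6 : (0 : ℝ) ≤ (Nat.log 2 X : ℝ) + 1 := by positivity
    nlinarith
  have hΛ0 : 0 < Λ := by linarith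
  have hΛ1' : 1 ≤ Λ := by linarith
  -- the first factor
  have e1 : (Λ / Real.log Z) ^ m ≤ 3 ^ m * Real.log X ^ (ε * m) := by
    have h2 : Λ / Real.log Z ≤ 3 * Real.log X ^ ε := by
      rw [hZ, div_le_iff₀ (by positivity), mul_assoc, ← Real.rpow_add h0]
      have : ε + (1 - ε) = 1 := by ring
      rw [this, Real.rpow_one]
      exact hΛ3
    calc (Λ / Real.log Z) ^ m ≤ (3 * Real.log X ^ ε) ^ m :=
          pow_le_pow_left₀ (by positivity) h2 m
      _ = _ := by rw [mul_pow, Real.rpow_mul_natCast h0.le]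
  -- the second factor
  have e2 : (1 + Real.log Λ) ^ m ≤ (1 + 8 * m / c) ^ m * (3 ^ (c / 8) * Real.log X ^ (c / 8)) := by
    set s : ℝ := c / (8 * m) with hs
    have hs0 : 0 < s := by positivity
    have h2 : Real.log Λ ≤ Λ ^ s / s := Real.log_le_rpow_div hΛ0.le hs0
    have h3 : 1 ≤ Λ ^ s := Real.one_le_rpow hΛ1' hs0.le
    have h4 : 1 + Real.log Λ ≤ (1 + 8 * m / c) * Λ ^ s := by
      have h5 : Λ ^ s / s = 8 * m / c * Λ ^ s := by
        rw [hs]
        field_simp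
      rw [h5] at h2
      linarith
    have h5 : 0 ≤ 1 + Real.log Λ := by
      have := Real.log_nonneg hΛ1'
      linarith
    calc (1 + Real.log Λ) ^ m ≤ ((1 + 8 * m / c) * Λ ^ s) ^ m := pow_le_pow_left₀ h5 h4 m
      _ = (1 + 8 * m / c) ^ m * Λ ^ (c / 8) := by
          rw [mul_pow, ← Real.rpow_mul_natCast hΛ0.le]
          congr 2
          rw [hs]
          field_simp
      _ ≤ _ := by
          rw [← Real.mul_rpow (by norm_num) h0.le]
          exact mul_le_mul_of_nonneg_left (Real.rpow_le_rpow hΛ0.le hΛ3 (by positivity))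
            (by positivity)
  -- the last factor
  have e3 : Real.exp G * Real.log Z ^ (-c) ≤
      Real.exp C5 * Real.log X ^ ((1 - ε) * (ρ + η - c)) := by
    calc Real.exp G * Real.log Z ^ (-c)
        ≤ Real.exp ((ρ + η) * Real.log (Real.log Z) + C5) * Real.log Z ^ (-c) :=
          mul_le_mul_of_nonneg_right (Real.exp_le_exp.2 hG) (by positivity)
      _ = Real.exp C5 * Real.log Z ^ (ρ + η - c) := by
          have e1 : Real.log Z ^ (ρ + η - c) =
              Real.log Z ^ (ρ + η) * Real.log Z ^ (-c) := by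
            rw [← Real.rpow_add hlZ]
            congr 1
          rw [e1, Real.exp_add, mul_comm (ρ + η), ← Real.rpow_def_of_pos hlZ]
          ring
      _ = _ := by rw [hZ, ← Real.rpow_mul h0.le]
  have e4 : 1 / Λ ≤ 1 / Real.log X := one_div_le_one_div_of_le h0 hΛ1
  have h6 : 0 ≤ (1 + Real.log Λ) ^ m := by
    have := Real.log_nonneg hΛ1'
    positivity
  calc C4 * X * (Λ / Real.log Z) ^ m * (1 + Real.log Λ) ^ m / Λ * (Real.exp G * Real.log Z ^ (-c))
      = C4 * X * ((Λ / Real.log Z) ^ m * (1 + Real.log Λ) ^ m * (1 / Λ) *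
          (Real.exp G * Real.log Z ^ (-c))) := by ring
    _ ≤ C4 * X * ((3 ^ m * Real.log X ^ (ε * m)) *
          ((1 + 8 * m / c) ^ m * (3 ^ (c / 8) * Real.log X ^ (c / 8))) * (1 / Real.log X) *
          (Real.exp C5 * Real.log X ^ ((1 - ε) * (ρ + η - c)))) := by
        refine mul_le_mul_of_nonneg_left ?_ (by positivity)
        refine mul_le_mul (mul_le_mul (mul_le_mul e1 e2 h6 (by positivity)) e4 (by positivity)
          (by positivity)) e3 (by positivity) (by positivity)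
    _ = C4 * 3 ^ m * ((1 + 8 * m / c) ^ m * 3 ^ (c / 8)) * Real.exp C5 * X *
          (Real.log X ^ (ε * m) * Real.log X ^ (c / 8) * (1 / Real.log X) *
            Real.log X ^ ((1 - ε) * (ρ + η - c))) := by ring
    _ ≤ _ := by
        refine mul_le_mul_of_nonneg_left ?_ (by positivity)
        rw [one_div, ← Real.rpow_neg_one, ← Real.rpow_add h0, ← Real.rpow_add h0,
          ← Real.rpow_add h0]
        apply Real.rpow_le_rpow_of_exponent_le h1.le
        nlinarith [mul_nonneg hε0.le hρ]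

end Pool.Agent.H11.EN
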